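import Pool.Agent.Zk64.Alt.Tab5T

/-!
# The third table: dimension 79, modulo 5
-/

set_option autoImplicit false
set_option maxRecDepth 100000

namespace Pool.Agent.Zk64.Alt

lemma rows5 : allr 79 (fun i => rchk Q5 A5.get B5.get 5 40 79 5 3 i) = true := by decide +kernel

lemma nil5 (i j : ℕ) (h : 79 ≤ i ∨ 79 ≤ j) : Q5 i j = [] := by
  rw [Q5, ntab]
  rcases h with h | h
  · rw [Nat.ble_eq.mpr h, cond_true]
  · rw [Nat.ble_eq.mpr h, cond_true]
    cases Nat.ble 79 i <;> rfl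

lemma fchk5 : FChk Q5 A5.get B5.get 5 40 79 5 3 :=
  ⟨by norm_num, by norm_num, nil5, fun _ hi => allr_spec rows5 hi⟩

lemma chkG5 : chkG (fun i j => nz (Q5 i j)) A5.get B5.get 5 4 [(75, 3), (77, 2)] 0 78 4 = true := by
  decide +kernel

theorem not_separated_five {K k : Type*} [CommRing K] [CommRing k] [Algebra K k]
    (h5 : ((5 : ℕ) : k) = 0)
    (hc : ∀ m : ℕ, (2 : k) * 6 ^ m * (Nat.factorial 4 * Nat.factorial (7 - 4) : ℕ) * (4 : ℤ) ≠ 0) :
    ¬ Separated K (FreeAlt K ℕ) :=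
  not_separated_of_fchk h5 fchk5 chkG5 hc

end Pool.Agent.Zk64.Alt
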