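import Pool.Agent.Zk64.Alt.Check

/-!
# The second table: dimension 21, modulo 7
-/

set_option autoImplicit false

namespace Pool.Agent.Zk64.Alt

/-- the table -/
def T7 : List (List (List (ℕ × ℤ))) := [
  [[(2, 1)], [(3, 1)], [(4, 1)], [(6, -2)], [(7, 3), (8, -2)], [(7, 3), (8, -2)], [(9, 1), (10, -1)], [(11, 1)], [(11, -2), (12, 3)], [(13, 1)], [(14, -2)], [(15, 1)], [(15, 1)], [(16, 1)], [(16, 1), (17, -1)], [(18, 3)], [(19, 1)], [(19, -2)], [], [(20, 1)]],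
  [[], [], [(6, -1)], [], [(9, 1)], [(9, -2)], [], [(13, 1), (14, -1)], [(13, -2), (14, -1)], [], [], [], [(16, 1)], [], [], [(19, -1)], [], [], [(20, -2)]],
  [[(5, 1)], [(6, -1)], [(7, -2), (8, 3)], [(9, 1), (10, 1)], [(11, 2), (12, -1)], [(11, -2), (12, 3)], [(13, 1), (14, 1)], [(15, 1)], [(15, -3)], [(16, 1)], [(16, 1), (17, 1)], [(18, 1)], [(18, -3)], [(19, 1)], [(19, 2)], [], [(20, 1)], [(20, 1)]],
  [[(6, 1)], [], [(9, -2), (10, 1)], [], [(13, 1), (14, 1)], [(13, -2), (14, 1)], [], [(17, 1)], [(16, 1), (17, 1)], [], [], [(19, 1)], [(19, 2)], [], [], [(20, -2)]],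
  [[(7, 1)], [(10, 1)], [(11, -1), (12, 2)], [(13, 1), (14, -2)], [], [], [(16, 1), (17, -1)], [(18, 3)], [(18, -2)], [(19, 1)], [(19, -1)], [], [], [(20, 1)], [(20, 1)]],
  [[(8, 1)], [(10, 1)], [(11, 2), (12, -1)], [(13, -2), (14, -2)], [(15, 3)], [(15, 3)], [(16, 1), (17, -1)], [(18, 1)], [(18, 3)], [(19, 1)], [(19, 3)], [], [], [(20, 1)], [(20, 1)]],
  [[(9, 1)], [], [(13, 1), (14, 1)], [], [], [(16, 3)], [], [(19, 1)], [(19, -3)], [], [], [(20, 1)]],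
  [[(11, 1)], [(13, 1), (14, -1)], [(15, 1)], [(17, 1)], [(18, 3)], [(18, 1)], [(19, 1)], [], [], [(20, 1)]],
  [[(12, 1)], [(13, -2), (14, -1)], [(15, -3)], [(16, 3), (17, 1)], [(18, -1)], [(18, -3)], [(19, -3)], [], [], [(20, 1)], [(20, 3)]],
  [[(13, 1)], [], [(16, 1)], [], [(19, 1)], [(19, 1)], [], [(20, 1)], [(20, 1)]],
  [[(14, 1)], [], [(16, -2), (17, 1)], [], [(19, 2)], [(19, -1)], [], [], [(20, 1)]],
  [[(15, 1)], [(17, 1)], [(18, 3)], [(19, -2)], [], [], [(20, 1)]],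
  [[], [(17, 1)], [(18, -1)], [(19, -1)], [], [], [(20, 1)]],
  [[(16, 1)], [], [(19, 1)], [], [(20, 1)], [(20, 1)]],
  [[(16, 1)], [], [(19, 2)], [], [], [(20, 3)]],
  [[(18, 1)], [(19, -1)], [], [(20, 1)]],
  [[(19, 1)], [], [(20, 1)]],
  [[(19, 1)], [], [(20, -2)]],
  [],
  [[(20, 1)]],
  []]

/-- the degrees -/
def A7 : List ℕ := [1, 0, 2, 1, 3, 3, 2, 4, 4, 3, 3, 5, 5, 4, 4, 6, 5, 5, 7, 6, 7]

/-- the degrees -/
def B7 : List ℕ := [0, 1, 0, 1, 0, 0, 1, 0, 0, 1, 1, 0, 0, 1, 1, 0, 1, 1, 0, 1, 1]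

lemma chk7 : chkAll T7 A7 B7 7 21 = true := by decide +kernel

lemma chkEx7 : chkEx T7 A7 B7 7 6 [(19, 1)] 0 20 (2) = true := by decide +kernel

theorem not_separated_seven {K k : Type*} [CommRing K] [CommRing k] [Algebra K k] (h7 : (7 : k) = 0)
    (hc : ∀ m : ℕ, (2 : k) * 6 ^ m * (Nat.factorial 6 * Nat.factorial (7 - 6) : ℕ) * (2 : ℤ) ≠ 0) :
    ¬ Separated K (FreeAlt K ℕ) :=
  not_separated_of_chk (by rw [← h7]; norm_num) chk7 chkEx7 hc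

end Pool.Agent.Zk64.Alt
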