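import Mathlib

/-!
# Alternative rings: basic identities

Associators, the Kleinfeld function, the Malcev identity (Sagle form) for commutators and the
identity `[a,b] ∘ (a,b,c) = 0`, in an alternative ring.
-/

set_option autoImplicit false

namespace Pool.Agent.Zk64.Alt

variable {A : Type*} [NonUnitalNonAssocRing A]

/-- A (nonassociative) ring is alternative if `(a,a,b) = 0 = (b,a,a)`. -/
def IsAlt (A : Type*) [NonUnitalNonAssocRing A] : Prop :=
  ∀ a b : A, associator a a b = 0 ∧ associator b a a = 0

/-- commutator -/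
def cm (a b : A) : A := a * b - b * a

/-- Jordan product (without the factor `1/2`) -/
def jd (a b : A) : A := a * b + b * a

/-- associator -/
def as (a b c : A) : A := a * b * c - a * (b * c)

lemma as_eq (a b c : A) : associator a b c = as a b c := rfl

lemma as_add₁ (a a' b c : A) : as (a + a') b c = as a b c + as a' b c := by
  simp only [as, add_mul]; abel

lemma as_add₂ (a b b' c : A) : as a (b + b') c = as a b c + as a b' c := by
  simp only [as, add_mul, mul_add]; abel

lemma as_add₃ (a b c c' : A) : as a b (c + c') = as a b c + as a b c' := by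
  simp only [as, mul_add]; abel

lemma as_sub₁ (a a' b c : A) : as (a - a') b c = as a b c - as a' b c := by
  simp only [as, sub_mul]; abel

lemma as_sub₂ (a b b' c : A) : as a (b - b') c = as a b c - as a b' c := by
  simp only [as, sub_mul, mul_sub]; abel

lemma as_sub₃ (a b c c' : A) : as a b (c - c') = as a b c - as a b c' := by
  simp only [as, mul_sub]; abel

lemma as_neg₁ (a b c : A) : as (-a) b c = - as a b c := by
  simp only [as, neg_mul]; abel

lemma as_neg₂ (a b c : A) : as a (-b) c = - as a b c := by
  simp only [as, neg_mul, mul_neg]; abel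

lemma as_neg₃ (a b c : A) : as a b (-c) = - as a b c := by
  simp only [as, mul_neg]; abel

section

variable (hA : IsAlt A)
include hA

lemma as_aab (a b : A) : as a a b = 0 := (hA a b).1

lemma as_baa (a b : A) : as b a a = 0 := (hA a b).2

lemma as_12 (a b c : A) : as b a c = - as a b c := by
  have h := as_aab hA (a + b) c
  rw [as_add₁, as_add₂, as_add₂, as_aab hA, as_aab hA] at h
  rw [eq_neg_iff_add_eq_zero]
  rw [zero_add, add_zero, add_comm] at h
  exact h

lemma as_23 (a b c : A) : as a c b = - as a b c := by
  have h := as_baa hA (b + c) a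
  rw [as_add₂, as_add₃, as_add₃, as_baa hA, as_baa hA] at h
  rw [eq_neg_iff_add_eq_zero]
  rw [zero_add, add_zero, add_comm] at h
  exact h

lemma as_cyc (a b c : A) : as b c a = as a b c := by
  rw [as_23 hA b a c, as_12 hA, neg_neg]

lemma as_13 (a b c : A) : as c b a = - as a b c := by
  rw [as_12 hA b c a, as_cyc hA]

lemma as_aba (a b : A) : as a b a = 0 := by
  rw [as_23 hA a a b, as_aab hA, neg_zero]

omit hA in
/-- Teichmueller identity -/
lemma teich (a b c d : A) :
    as (a * b) c d - as a (b * c) d + as a b (c * d) = a * as b c d + as a b c * d := by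
  simp only [as, mul_sub, sub_mul]; abel

/-- the Kleinfeld function -/
def kf (a b c d : A) : A := as (a * b) c d - b * as a c d - as b c d * a

lemma kf_cyc (a b c d : A) : kf b c d a = - kf a b c d := by
  have h1 := teich b c d a
  have h2 := teich c d a b
  rw [← as_cyc hA b (c * d) a, as_cyc hA (d * a) b c, as_cyc hA a c d] at h1
  rw [← as_cyc hA c (d * a) b, as_cyc hA (a * b) c d, as_cyc hA b d a, as_cyc hA a c d] at h2
  simp only [kf]
  rw [as_cyc hA a c d]
  linear_combination (norm := abel) h1 + h2

lemma kf_34 (a b c d : A) : kf a b d c = - kf a b c d := by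
  simp only [kf]
  rw [as_23 hA (a * b) c d, as_23 hA a c d, as_23 hA b c d]
  simp only [mul_neg, neg_mul]
  abel

lemma kf_12 (a b c d : A) : kf b a c d = - kf a b c d := by
  have h1 : kf c d b a = kf b a c d := by
    rw [kf_cyc hA a c d b, kf_cyc hA b a c d, neg_neg]
  have h2 : kf c d a b = kf a b c d := by
    rw [kf_cyc hA b c d a, kf_cyc hA a b c d, neg_neg]
  rw [← h1, ← h2, kf_34 hA]

lemma kf_23 (a b c d : A) : kf a c b d = - kf a b c d := by
  have h1 := kf_cyc hA a c b d
  have h2 := kf_cyc hA a b c d
  have h3 := kf_12 hA b c d a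
  rw [h1, h2] at h3
  rw [← neg_inj, h3]

/-- derivation property with respect to the Jordan product -/
lemma as_jd (a b c d : A) : as (jd a b) c d = jd a (as b c d) + jd b (as a c d) := by
  have h := kf_12 hA a b c d
  simp only [kf] at h
  simp only [jd]
  rw [as_add₁]
  linear_combination (norm := abel) h

/-- the Jacobian -/
lemma jac (a b c : A) :
    (6 : ℤ) • as a b c = cm (cm a b) c - cm (cm a c) b - cm a (cm b c) := by
  have h1 := as_12 hA a b c
  have h2 := as_23 hA a b c
  have h3 := as_cyc hA a b c
  have h4 := as_13 hA a b c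
  have h5 := as_cyc hA c a b
  simp only [as, cm, mul_sub, sub_mul] at *
  linear_combination (norm := abel) h1 + h2 - h3 + h4 + h5

lemma cm_mul (a b c : A) : cm (a * b) c = a * cm b c + cm a c * b + (3 : ℤ) • as a b c := by
  have h2 := as_23 hA a b c
  have h5 := as_cyc hA c a b
  simp only [as, cm, mul_sub, sub_mul] at *
  linear_combination (norm := abel) -h2 - h5

lemma cm_jd (a b c : A) : cm (jd a b) c = jd a (cm b c) + jd (cm a c) b := by
  have h1 := cm_mul hA a b c
  have h2 := cm_mul hA b a c
  have h3 := as_12 hA a b c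
  have h4 : cm (jd a b) c = cm (a * b) c + cm (b * a) c := by
    simp only [cm, jd, add_mul, mul_add]; abel
  rw [h4, h1, h2, h3]
  simp only [jd]
  abel

/-- `([a,b],c,d) = 2 f(a,b,c,d) + [(b,c,d),a] - [(a,c,d),b]` -/
lemma as_cm (a b c d : A) :
    as (cm a b) c d = (2 : ℤ) • kf a b c d + cm (as b c d) a - cm (as a c d) b := by
  have h := kf_12 hA a b c d
  simp only [cm]
  rw [as_sub₁]
  simp only [kf] at *
  linear_combination (norm := abel) -h

lemma twelve_kf (a b c d : A) :
    (12 : ℤ) • kf a b c d = cm (cm (cm a b) c) d - cm (cm (cm a b) d) c - cm (cm a b) (cm c d)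
      - cm (cm (cm b c) d - cm (cm b d) c - cm b (cm c d)) a
      + cm (cm (cm a c) d - cm (cm a d) c - cm a (cm c d)) b := by
  have h := as_cm hA a b c d
  rw [← jac hA b c d, ← jac hA a c d, ← jac hA (cm a b) c d, h]
  simp only [cm, smul_mul_assoc, mul_smul_comm, smul_add, smul_sub]
  module

/-- Sagle's form of the Malcev identity for commutators, up to a factor `2` -/
lemma sagle_two (a b c d : A) :
    (2 : ℤ) • cm (cm a c) (cm b d) = (2 : ℤ) • (cm (cm (cm a b) c) d + cm (cm (cm b c) d) a +
      cm (cm (cm c d) a) b + cm (cm (cm d a) b) c) := by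
  have h1 := twelve_kf hA a b c d
  have h2 := twelve_kf hA b c d a
  have h3 := twelve_kf hA c d a b
  have h4 := twelve_kf hA d a b c
  have h5 := twelve_kf hA b d a c
  have h6 := twelve_kf hA a c b d
  rw [kf_cyc hA c d a b, kf_cyc hA b c d a, kf_cyc hA a b c d] at h4
  rw [kf_cyc hA b c d a, kf_cyc hA a b c d] at h3
  rw [kf_cyc hA a b c d] at h2
  rw [kf_cyc hA c b d a, kf_cyc hA a c b d] at h5
  simp only [cm, mul_sub, sub_mul] at *
  linear_combination (norm := abel) h1 + h2 + h3 + h4 - h5 + h6

lemma skew_E (z b d : A) : as (cm z b) b d + cm (as z b d) b = 0 := by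
  have h := as_cm hA z b b d
  have h1 := kf_23 hA z b b d
  have h2 : (2 : ℤ) • kf z b b d = 0 := by
    rw [two_smul]
    nth_rewrite 1 [h1]
    exact neg_add_cancel _
  rw [h, h2, as_aab hA]
  simp only [cm, zero_mul, mul_zero]
  abel

omit hA in
lemma jd_add_left (a b c : A) : jd (a + b) c = jd a c + jd b c := by
  simp only [jd, add_mul, mul_add]; abel

omit hA in
lemma jd_add_right (a b c : A) : jd a (b + c) = jd a b + jd a c := by
  simp only [jd, add_mul, mul_add]; abel

omit hA in
lemma cm_add_left (a b c : A) : cm (a + b) c = cm a c + cm b c := by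
  simp only [cm, add_mul, mul_add]; abel

omit hA in
lemma cm_add_right (a b c : A) : cm a (b + c) = cm a b + cm a c := by
  simp only [cm, add_mul, mul_add]; abel

omit hA in
lemma jd_zero (a : A) : jd a 0 = 0 := by simp [jd]

lemma k1_two (z w b d : A) :
    (2 : ℤ) • (jd (cm z b) (as w b d) + jd (cm w b) (as z b d)) = 0 := by
  have h := skew_E hA (jd z w) b d
  have hz := skew_E hA z b d
  have hw := skew_E hA w b d
  rw [cm_jd hA, as_add₁, as_jd hA, as_jd hA, as_jd hA, cm_add_left, cm_jd hA, cm_jd hA] at h
  have h1 : jd z (as (cm w b) b d) + jd z (cm (as w b d) b) = 0 := by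
    rw [← jd_add_right, hw, jd_zero]
  have h2 : jd w (as (cm z b) b d) + jd w (cm (as z b d) b) = 0 := by
    rw [← jd_add_right, hz, jd_zero]
  linear_combination (norm := abel) h - h1 - h2

lemma k5_two (a e b d c : A) :
    (2 : ℤ) • (jd (cm a b) (as e d c) + jd (cm e b) (as a d c) + jd (cm a d) (as e b c) +
      jd (cm e d) (as a b c)) = 0 := by
  have h := k1_two hA a e (b + d) c
  have h1 := k1_two hA a e b c
  have h2 := k1_two hA a e d c
  simp only [cm_add_right, as_add₂, jd_add_left, jd_add_right] at h
  linear_combination (norm := abel) h - h1 - h2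

/-- the Malcev identity in operator form -/
lemma sagle_op_two (y a b c : A) :
    (2 : ℤ) • (cm (cm y b) (cm a c) + cm (cm y (cm b c)) a + cm y (cm (cm a b) c)
      - cm (cm (cm y a) b) c + cm (cm (cm y c) a) b) = 0 := by
  have h := sagle_two hA a b c y
  simp only [cm, mul_sub, sub_mul] at *
  linear_combination (norm := abel) h

end

end Pool.Agent.Zk64.Alt
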