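import Pool.Agent.Zk64.Alt.Ident

/-!
# A formal certificate

`R` is an odd, `S` an even derivation of a super Jordan product `jo`; `v R S R = v S S`,
`v S S R = v R S S` (operators written on the right).
-/

set_option autoImplicit false
set_option linter.unusedSimpArgs false

namespace Pool.Agent.Zk64.Alt

/-- the formal data of the certificate -/
structure CertData {V : Type*} [AddCommGroup V] (R S : V →+ V) (J : V →+ V →+ V)
    (ev od : V → Prop) : Prop where
  Re : ∀ v, ev v → od (R v)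
  Ro : ∀ v, od v → ev (R v)
  Se : ∀ v, ev v → ev (S v)
  So : ∀ v, od v → od (S v)
  lRe : ∀ p r, ev r → R (J p r) = J p (R r) + J (R p) r
  lRo : ∀ p r, od r → R (J p r) = J p (R r) - J (R p) r
  lS : ∀ p r, S (J p r) = J p (S r) + J (S p) r
  M1 : ∀ v, R (S (R v)) = S (S v)
  M2 : ∀ v, S (S (R v)) = R (S (S v))
  k4 : ∀ y w, ev y → ev w → J (S y) (S (R (S w)) - R (S (S w))) = 0

section

variable {V : Type*} [AddCommGroup V] {R S : V →+ V} {J : V →+ V →+ V} {ev od : V → Prop}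
  (h : CertData R S J ev od)
include h

lemma CertData.M3 (v : V) : S (R (S (S v))) = R (S (S (S v))) := by
  have h1 := h.M1 (S (R v))
  rw [h.M1 v, h.M2 v] at h1
  exact h1.symm

theorem CertData.omega {y w : V} (hy : ev y) (hw : ev w) :
    (4 : ℤ) • (J ((S (R y)) - (R (S y))) ((R (R (S w))) - (S (R (R w)))) + J ((3 : ℤ) • (S (S (S y))) - (2 : ℤ) • (S (S (R (R y)))) - (S (R (R (S y))))) (R w) + J (R y) ((2 : ℤ) • (S (S (R (R w)))) - (S (R (R (S w)))) - (S (S (S w))))
      - J ((R (R (R (S y)))) + (S (R (R (R y)))) - (3 : ℤ) • (R (S (S y))) + (S (R (S y)))) (S w)) = 0 := by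
  have e0 : R (S (R (S (R (J y w))))) = R (S (S (S (J y w)))) := congrArg R (congrArg S (h.M1 _))
  have e1 : S (R (S (R (J (R y) w)))) = S (S (S (J (R y) w))) := congrArg S (h.M1 _)
  have e2 : R (R (S (R (J y (S w))))) = R (S (S (J y (S w)))) := congrArg R (h.M1 _)
  have e3 : R (R (S (R (J (S y) w)))) = R (S (S (J (S y) w))) := congrArg R (h.M1 _)
  have e4 : R (S (R (J y (R (S w))))) = S (S (J y (R (S w)))) := h.M1 _
  have e5 : R (S (R (J (S (R y)) w))) = S (S (J (S (R y)) w)) := h.M1 _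
  have e6 : R (S (R (J (R (S y)) w))) = S (S (J (R (S y)) w)) := h.M1 _
  have e7 : R (R (R (S (S (J y w))))) = R (R (S (S (R (J y w))))) := congrArg R (congrArg R ((h.M2 _).symm))
  have e8 : S (R (S (S (J y w)))) = S (S (S (R (J y w)))) := congrArg S ((h.M2 _).symm)
  have e9 : R (R (S (S (J y (R w))))) = R (S (S (R (J y (R w))))) := congrArg R ((h.M2 _).symm)
  have e10 : R (R (S (S (J (R y) w)))) = R (S (S (R (J (R y) w)))) := congrArg R ((h.M2 _).symm)
  have e11 : R (S (S (J y (S w)))) = S (S (R (J y (S w)))) := (h.M2 _).symm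
  have e12 : R (S (S (J (S y) w))) = S (S (R (J (S y) w))) := (h.M2 _).symm
  have k := h.k4 y w hy hw
  simp (maxDischargeDepth := 12) only [hy, hw, h.lRe, h.lRo, h.lS, h.Re, h.Ro, h.Se, h.So, map_add, map_sub, AddMonoidHom.add_apply, AddMonoidHom.sub_apply] at e0
  simp only [h.M1, h.M2, h.M3, map_add, map_sub] at e0
  simp (maxDischargeDepth := 12) only [hy, hw, h.lRe, h.lRo, h.lS, h.Re, h.Ro, h.Se, h.So, map_add, map_sub, AddMonoidHom.add_apply, AddMonoidHom.sub_apply] at e1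
  simp only [h.M1, h.M2, h.M3, map_add, map_sub] at e1
  simp (maxDischargeDepth := 12) only [hy, hw, h.lRe, h.lRo, h.lS, h.Re, h.Ro, h.Se, h.So, map_add, map_sub, AddMonoidHom.add_apply, AddMonoidHom.sub_apply] at e2
  simp only [h.M1, h.M2, h.M3, map_add, map_sub] at e2
  simp (maxDischargeDepth := 12) only [hy, hw, h.lRe, h.lRo, h.lS, h.Re, h.Ro, h.Se, h.So, map_add, map_sub, AddMonoidHom.add_apply, AddMonoidHom.sub_apply] at e3
  simp only [h.M1, h.M2, h.M3, map_add, map_sub] at e3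
  simp (maxDischargeDepth := 12) only [hy, hw, h.lRe, h.lRo, h.lS, h.Re, h.Ro, h.Se, h.So, map_add, map_sub, AddMonoidHom.add_apply, AddMonoidHom.sub_apply] at e4
  simp only [h.M1, h.M2, h.M3, map_add, map_sub] at e4
  simp (maxDischargeDepth := 12) only [hy, hw, h.lRe, h.lRo, h.lS, h.Re, h.Ro, h.Se, h.So, map_add, map_sub, AddMonoidHom.add_apply, AddMonoidHom.sub_apply] at e5
  simp only [h.M1, h.M2, h.M3, map_add, map_sub] at e5
  simp (maxDischargeDepth := 12) only [hy, hw, h.lRe, h.lRo, h.lS, h.Re, h.Ro, h.Se, h.So, map_add, map_sub, AddMonoidHom.add_apply, AddMonoidHom.sub_apply] at e6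
  simp only [h.M1, h.M2, h.M3, map_add, map_sub] at e6
  simp (maxDischargeDepth := 12) only [hy, hw, h.lRe, h.lRo, h.lS, h.Re, h.Ro, h.Se, h.So, map_add, map_sub, AddMonoidHom.add_apply, AddMonoidHom.sub_apply] at e7
  simp only [h.M1, h.M2, h.M3, map_add, map_sub] at e7
  simp (maxDischargeDepth := 12) only [hy, hw, h.lRe, h.lRo, h.lS, h.Re, h.Ro, h.Se, h.So, map_add, map_sub, AddMonoidHom.add_apply, AddMonoidHom.sub_apply] at e8
  simp only [h.M1, h.M2, h.M3, map_add, map_sub] at e8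
  simp (maxDischargeDepth := 12) only [hy, hw, h.lRe, h.lRo, h.lS, h.Re, h.Ro, h.Se, h.So, map_add, map_sub, AddMonoidHom.add_apply, AddMonoidHom.sub_apply] at e9
  simp only [h.M1, h.M2, h.M3, map_add, map_sub] at e9
  simp (maxDischargeDepth := 12) only [hy, hw, h.lRe, h.lRo, h.lS, h.Re, h.Ro, h.Se, h.So, map_add, map_sub, AddMonoidHom.add_apply, AddMonoidHom.sub_apply] at e10
  simp only [h.M1, h.M2, h.M3, map_add, map_sub] at e10
  simp (maxDischargeDepth := 12) only [hy, hw, h.lRe, h.lRo, h.lS, h.Re, h.Ro, h.Se, h.So, map_add, map_sub, AddMonoidHom.add_apply, AddMonoidHom.sub_apply] at e11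
  simp only [h.M1, h.M2, h.M3, map_add, map_sub] at e11
  simp (maxDischargeDepth := 12) only [hy, hw, h.lRe, h.lRo, h.lS, h.Re, h.Ro, h.Se, h.So, map_add, map_sub, AddMonoidHom.add_apply, AddMonoidHom.sub_apply] at e12
  simp only [h.M1, h.M2, h.M3, map_add, map_sub] at e12
  simp only [h.M1, h.M2, h.M3, map_add, map_sub, map_zsmul, AddMonoidHom.add_apply, AddMonoidHom.sub_apply, AddMonoidHom.coe_smul, Pi.smul_apply] at *
  linear_combination (norm := abel) (-2 : ℤ) • e0 + (-4 : ℤ) • e1 + (6 : ℤ) • e2 + (2 : ℤ) • e3 + (-4 : ℤ) • e4 + (8 : ℤ) • e5 + (-4 : ℤ) • e6 + (-1 : ℤ) • e7 + (-4 : ℤ) • e8 + (-3 : ℤ) • e9 + (-3 : ℤ) • e10 + (8 : ℤ) • e11 + (2 : ℤ) • e12 + (16 : ℤ) • k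

end

end Pool.Agent.Zk64.Alt
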