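import Pool.Agent.Zk64.Alt.Main

/-!
# Finite checks for table algebras
-/

set_option autoImplicit false
set_option linter.unusedSectionVars false

open TensorProduct

namespace Pool.Agent.Zk64.Alt

/-- the multiplication given by a table of lists -/
def tget (T : List (List (List (ℕ × ℤ)))) (i j : ℕ) : List (ℕ × ℤ) := (T.getD i []).getD j []

/-- the degree function given by a list -/
def dget (A : List ℕ) (i : ℕ) : ℕ := A.getD i 0

lemma tget_left {T : List (List (List (ℕ × ℤ)))} {i : ℕ} (h : T.length ≤ i) (j : ℕ) :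
    tget T i j = [] := by
  rw [tget, List.getD_eq_default _ _ h]
  rfl

lemma tget_right {T : List (List (List (ℕ × ℤ)))} {N : ℕ} (h : T.all (fun r => decide (r.length ≤ N)) = true)
    (i : ℕ) {j : ℕ} (hj : N ≤ j) : tget T i j = [] := by
  rcases lt_or_ge i T.length with hi | hi
  · rw [tget, List.getD_eq_getElem _ _ hi]
    have h1 := List.all_eq_true.mp h _ (List.getElem_mem hi)
    exact List.getD_eq_default _ _ ((of_decide_eq_true h1).trans hj)
  · exact tget_left hi j

/-- the parity function -/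
def pget (A B : List ℕ) (i : ℕ) : ZMod 2 := ((dget A i + dget B i : ℕ) : ZMod 2)

/-- the sign for a pair of degrees -/
def nsg (m n : ℕ) : ℤ := if m % 2 = 1 ∧ n % 2 = 1 then -1 else 1

lemma nsg_eq (m n : ℕ) : sgn (m : ZMod 2) (n : ZMod 2) = nsg m n := by
  have h : ∀ m : ℕ, (m : ZMod 2) = 1 ↔ m % 2 = 1 := by
    intro m
    rw [← Nat.cast_one, ZMod.natCast_eq_natCast_iff]
    exact Iff.rfl
  unfold sgn nsg
  simp only [h]

/-- the parity of a natural number is even -/
lemma even_of_cast {m : ℕ} (h : (m : ZMod 2) = 0) : m % 2 = 0 := by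
  rw [← Nat.cast_zero, ZMod.natCast_eq_natCast_iff] at h
  exact h

/-- the checks for a pair of indices -/
def chkPair (T : List (List (List (ℕ × ℤ)))) (A B : List ℕ) (i j : ℕ) : Bool :=
  (tget T i j).all fun t => (dget A t.1 == dget A i + dget A j) && (dget B t.1 == dget B i + dget B j)

/-- the checks for a triple of indices -/
def chkTriple (T : List (List (List (ℕ × ℤ)))) (A B : List ℕ) (q : ℤ) (i j l : ℕ) : Bool :=
  lzero q (las (tget T) i j l ++
    lscale (nsg (dget A i + dget B i) (dget A j + dget B j)) (las (tget T) j i l)) &&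
  lzero q (las (tget T) i j l ++
    lscale (nsg (dget A j + dget B j) (dget A l + dget B l)) (las (tget T) i l j))

/-- the checks for equal even indices -/
def chkEven (T : List (List (List (ℕ × ℤ)))) (A B : List ℕ) (q : ℤ) (i l : ℕ) : Bool :=
  ((dget A i + dget B i) % 2 == 1) ||
    (lzero q (las (tget T) i i l) && lzero q (las (tget T) l i i))

/-- all checks of super alternativity -/
def chkAll (T : List (List (List (ℕ × ℤ)))) (A B : List ℕ) (q : ℤ) (N : ℕ) : Bool :=
  decide (T.length ≤ N) && T.all (fun r => decide (r.length ≤ N)) &&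
  (List.range N).all fun i => (List.range N).all fun j =>
    chkPair T A B i j && chkEven T A B q i j && (List.range N).all fun l => chkTriple T A B q i j l

section

variable {T : List (List (List (ℕ × ℤ)))} {A B : List ℕ} {q : ℤ} {N : ℕ}

lemma chk_left (h : chkAll T A B q N = true) : T.length ≤ N ∧
    T.all (fun r => decide (r.length ≤ N)) = true := by
  simp only [chkAll, Bool.and_eq_true] at h
  exact ⟨of_decide_eq_true h.1.1, h.1.2⟩

lemma chk_right (h : chkAll T A B q N = true) {i j : ℕ} (hi : i < N) (hj : j < N) :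
    chkPair T A B i j = true ∧ chkEven T A B q i j = true ∧
      ∀ l, l < N → chkTriple T A B q i j l = true := by
  simp only [chkAll, Bool.and_eq_true, List.all_eq_true, List.mem_range] at h
  obtain ⟨⟨h1, h2⟩, h3⟩ := h.2 i hi j hj
  exact ⟨h1, h2, h3⟩

lemma tget_nil (h : chkAll T A B q N = true) {i j : ℕ} (hij : N ≤ i ∨ N ≤ j) : tget T i j = [] := by
  rcases hij with hi | hj
  · exact tget_left ((chk_left h).1.trans hi) j
  · exact tget_right (chk_left h).2 i hj

lemma tab_hab (h : chkAll T A B q N = true) (i j : ℕ) : ∀ t ∈ tget T i j,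
    dget A t.1 = dget A i + dget A j ∧ dget B t.1 = dget B i + dget B j := by
  intro t ht
  rcases lt_or_ge i N with hi | hi
  · rcases lt_or_ge j N with hj | hj
    · have h1 := (chk_right h hi hj).1
      simp only [chkPair, List.all_eq_true, Bool.and_eq_true, beq_iff_eq] at h1
      exact h1 t ht
    · rw [tget_nil h (Or.inr hj)] at ht
      exact absurd ht List.not_mem_nil
  · rw [tget_nil h (Or.inl hi)] at ht
    exact absurd ht List.not_mem_nil

lemma lmull_nil' {P : ℕ → ℕ → List (ℕ × ℤ)} (L : List (ℕ × ℤ)) {j : ℕ} (h : ∀ i, P i j = []) :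
    lmull P L j = [] := by
  induction L with
  | nil => rfl
  | cons t L ih =>
    have : lmull P (t :: L) j = lscale t.2 (P t.1 j) ++ lmull P L j := rfl
    rw [this, ih, h]
    rfl

lemma lmulr_nil' {P : ℕ → ℕ → List (ℕ × ℤ)} (L : List (ℕ × ℤ)) {i : ℕ} (h : ∀ j, P i j = []) :
    lmulr P i L = [] := by
  induction L with
  | nil => rfl
  | cons t L ih =>
    have : lmulr P i (t :: L) = lscale t.2 (P i t.1) ++ lmulr P i L := rfl
    rw [this, ih, h]
    rfl

lemma las_nil (h : chkAll T A B q N = true) {i j l : ℕ} (hij : N ≤ i ∨ N ≤ j ∨ N ≤ l) :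
    las (tget T) i j l = [] := by
  rcases hij with hi | hj | hl
  · rw [las, tget_nil h (Or.inl hi), lmulr_nil' _ fun j => tget_nil h (Or.inl hi)]
    rfl
  · rw [las, tget_nil h (Or.inr hj), tget_nil h (Or.inl hj)]
    rfl
  · rw [las, tget_nil h (Or.inr hl), lmull_nil' _ fun j => tget_nil h (Or.inr hl)]
    rfl

variable {k : Type*} [CommRing k]

lemma as_nil (h : chkAll T A B q N = true) {i j l : ℕ} (hij : N ≤ i ∨ N ≤ j ∨ N ≤ l) :
    as (sg (tget T) i (1 : k)) (sg (tget T) j 1) (sg (tget T) l 1) = 0 := by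
  rw [← vec_las, las_nil h hij, vec_nil]

theorem goodTab_of_chk (hq : (q : k) = 0) (h : chkAll T A B q N = true) :
    GoodTab (tget T) (pget A B) k where
  gr i j t ht := by
    obtain ⟨h1, h2⟩ := tab_hab h i j t ht
    simp only [pget, h1, h2]
    push_cast
    ring
  a12 i j l := by
    by_cases hn : i < N ∧ j < N ∧ l < N
    · have h1 := (chk_right h hn.1 hn.2.1).2.2 l hn.2.2
      rw [chkTriple, Bool.and_eq_true] at h1
      have h2 := vec_lzero (P := tget T) hq h1.1
      rw [vec_append, vec_lscale, vec_las, vec_las, ← nsg_eq, Int.cast_smul_eq_zsmul] at h2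
      exact h2
    · rw [as_nil h (by omega), as_nil h (by omega), smul_zero, add_zero]
  a23 i j l := by
    by_cases hn : i < N ∧ j < N ∧ l < N
    · have h1 := (chk_right h hn.1 hn.2.1).2.2 l hn.2.2
      rw [chkTriple, Bool.and_eq_true] at h1
      have h2 := vec_lzero (P := tget T) hq h1.2
      rw [vec_append, vec_lscale, vec_las, vec_las, ← nsg_eq, Int.cast_smul_eq_zsmul] at h2
      exact h2
    · rw [as_nil h (by omega), as_nil h (by omega), smul_zero, add_zero]
  e12 i l hi := by
    by_cases hn : i < N ∧ l < N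
    · have h1 := (chk_right h hn.1 hn.2).2.1
      rw [chkEven, Bool.or_eq_true, Bool.and_eq_true] at h1
      rcases h1 with h1 | h1
      · have h3 := even_of_cast hi
        rw [beq_iff_eq] at h1
        omega
      · have h2 := vec_lzero (P := tget T) hq h1.1
        rwa [vec_las] at h2
    · rw [as_nil h (by omega)]
  e23 i l hi := by
    by_cases hn : i < N ∧ l < N
    · have h1 := (chk_right h hn.1 hn.2).2.1
      rw [chkEven, Bool.or_eq_true, Bool.and_eq_true] at h1
      rcases h1 with h1 | h1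
      · have h3 := even_of_cast hi
        rw [beq_iff_eq] at h1
        omega
      · have h2 := vec_lzero (P := tget T) hq h1.2
        rwa [vec_las] at h2
    · rw [as_nil h (by omega)]

end

/-- difference of lists -/
def lsub (L M : List (ℕ × ℤ)) : List (ℕ × ℤ) := L ++ lscale (-1) M

lemma vec_lsub {P : ℕ → ℕ → List (ℕ × ℤ)} {k : Type*} [CommRing k] (L M : List (ℕ × ℤ)) :
    vec P k (lsub L M) = vec P k L - vec P k M := by
  rw [lsub, vec_append, vec_lscale, Int.cast_neg, Int.cast_one, neg_smul, one_smul,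
    ← sub_eq_add_neg]

/-- the associator `(x,x,x)` as a list -/
def ls3 (P : ℕ → ℕ → List (ℕ × ℤ)) (X : List (ℕ × ℤ)) : List (ℕ × ℤ) :=
  lnorm (lsub (lmul P (lmul P X X) X) (lmul P X (lmul P X X)))

/-- `s x + x s` as a list -/
def lj (P : ℕ → ℕ → List (ℕ × ℤ)) (S X : List (ℕ × ℤ)) : List (ℕ × ℤ) :=
  lnorm (lmul P S X ++ lmul P X S)

lemma ring_u_vec {P : ℕ → ℕ → List (ℕ × ℤ)} {k : Type*} [CommRing k] (X : List (ℕ × ℤ)) :
    ring_u (vec P k X) = vec P k (lj P (lj P (ls3 P X) X) (ls3 P X)) := by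
  simp only [lj, ls3, vec_lnorm, vec_append, vec_lmul, vec_lsub, ring_u]

/-- the list of the elements of degree `(n, 7 - n)` -/
def lfil (A B : List ℕ) (n : ℕ) (U : List (ℕ × ℤ)) : List (ℕ × ℤ) :=
  U.filter fun t => dget A t.1 = n ∧ dget B t.1 = 7 - n

/-- the checks for the example -/
def chkEx (T : List (List (List (ℕ × ℤ)))) (A B : List ℕ) (q : ℤ) (n : ℕ) (U : List (ℕ × ℤ))
    (g7 top : ℕ) (γ : ℤ) : Bool :=
  decide (n ≤ 7) && (dget A 0 == 1) && (dget B 0 == 0) &&
  (n == 7 || ((dget A 1 == 0) && (dget B 1 == 1))) && ((dget A g7 + dget B g7) % 2 == 1) &&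
  lzero q (lsub (lj (tget T) (lj (tget T) (ls3 (tget T) (gl n)) (gl n)) (ls3 (tget T) (gl n))) U) &&
  (U.all fun t => decide ((dget A t.1 = n ∧ dget B t.1 = 7 - n) ∨ (n < dget A t.1 ∨ 7 - n < dget B t.1))) &&
  lzero q (lsub (lmul (tget T) (lfil A B n U) [(g7, 1)] ++ lmul (tget T) [(g7, 1)] (lfil A B n U))
    [(top, γ)])

lemma cast_one_of_mod {m : ℕ} (h : m % 2 = 1) : (m : ZMod 2) = 1 := by
  rw [← Nat.cast_one, ZMod.natCast_eq_natCast_iff]
  exact h

theorem exData_of_chk {k : Type*} [CommRing k] {T : List (List (List (ℕ × ℤ)))} {A B : List ℕ}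
    {q : ℤ} {N : ℕ} (hq : (q : k) = 0) (h : chkAll T A B q N = true)
    {n : ℕ} {U : List (ℕ × ℤ)} {g7 top : ℕ} {γ : ℤ} (h' : chkEx T A B q n U g7 top γ = true) :
    ExData (tget T) k (pget A B) n (dget A) (dget B) U g7 top γ := by
  simp only [chkEx, Bool.and_eq_true, Bool.or_eq_true, beq_iff_eq] at h'
  obtain ⟨⟨⟨⟨⟨⟨⟨h1, h2⟩, h3⟩, h4⟩, h5⟩, h6⟩, h7⟩, h8⟩ := h'
  have hn : n ≤ 7 := of_decide_eq_true h1
  have e6 := vec_lzero (P := tget T) hq h6
  have e8 := vec_lzero (P := tget T) hq h8
  rw [vec_lsub, sub_eq_zero] at e6 e8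
  refine ⟨hn, tab_hab h, h2, h3, fun hn => ?_, fun hn => ?_, ?_, fun hn => ?_, ?_, ?_, ?_, ?_⟩
  · rcases h4 with h4 | h4
    · omega
    · exact h4.1
  · rcases h4 with h4 | h4
    · omega
    · exact h4.2
  · rw [pget, h2, h3]; rfl
  · rcases h4 with h4 | h4
    · omega
    · rw [pget, h4.1, h4.2]; rfl
  · exact cast_one_of_mod h5
  · rw [ring_u_vec, e6]
  · intro t ht
    rw [List.all_eq_true] at h7
    exact of_decide_eq_true (h7 t ht)
  · rw [vec_append, vec_lmul, vec_lmul] at e8
    have h9 : vec (tget T) k [(g7, (1 : ℤ))] = sg (tget T) g7 (1 : k) := by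
      rw [vec_cons, vec_nil, add_zero, Int.cast_one]
    have h10 : vec (tget T) k [(top, γ)] = sg (tget T) top (γ : k) := by
      rw [vec_cons, vec_nil, add_zero]
    rw [h9, h10] at e8
    exact e8

/-- the criterion with finite checks -/
theorem not_separated_of_chk {K k : Type*} [CommRing K] [CommRing k] [Algebra K k]
    {T : List (List (List (ℕ × ℤ)))} {A B : List ℕ}
    {q : ℤ} {N : ℕ} (hq : (q : k) = 0) (h : chkAll T A B q N = true)
    {n : ℕ} {U : List (ℕ × ℤ)} {g7 top : ℕ} {γ : ℤ} (h' : chkEx T A B q n U g7 top γ = true)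
    (hc : ∀ m : ℕ, (2 : k) * 6 ^ m * (n.factorial * (7 - n).factorial : ℕ) * γ ≠ 0) :
    ¬ Separated K (FreeAlt K ℕ) :=
  not_separated_of_table (goodTab_of_chk hq h) (exData_of_chk hq h h') hc

end Pool.Agent.Zk64.Alt
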