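import Mathlib

/-!
# Free alternative algebras, nucleus, associator ideal: definitions
-/

set_option autoImplicit false

namespace Pool.Agent.Zk64.Alt

section

variable {K A : Type*} [CommRing K] [NonUnitalNonAssocRing A] [Module K A]

/-- `I` is a two-sided ideal of the `K`-algebra `A`. -/
def IsIdeal (I : Submodule K A) : Prop := ∀ a : A, ∀ u ∈ I, a * u ∈ I ∧ u * a ∈ I

variable (K) in
/-- The two-sided ideal generated by a set. -/
def idealSpan (s : Set A) : Submodule K A := sInf {I | IsIdeal I ∧ s ⊆ (I : Set A)}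

/-- `n` lies in the nucleus of `A`. -/
def InNucleus (n : A) : Prop :=
  ∀ a b : A, associator n a b = 0 ∧ associator a n b = 0 ∧ associator a b n = 0

variable (K A) in
/-- The associator ideal `D(A)`. -/
def associatorIdeal : Submodule K A := idealSpan K {v | ∃ a b c : A, v = associator a b c}

variable (K A) in
/-- `U(A)`: the sum of all two-sided ideals of `A` contained in the nucleus. -/
def nuclearIdeal : Submodule K A := sSup {I | IsIdeal I ∧ ∀ n ∈ I, InNucleus n}

variable (K A) in
/-- `A` is separated: `D(A) ∩ U(A) = 0`. -/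
def Separated : Prop := associatorIdeal K A ⊓ nuclearIdeal K A = ⊥

lemma isIdeal_idealSpan (s : Set A) : IsIdeal (idealSpan K s) := by
  intro a u hu
  simp only [idealSpan, Submodule.mem_sInf] at hu ⊢
  exact ⟨fun I hI => (hI.1 a u (hu I hI)).1, fun I hI => (hI.1 a u (hu I hI)).2⟩

lemma subset_idealSpan (s : Set A) : s ⊆ (idealSpan K s : Set A) := by
  intro x hx
  simp only [idealSpan, SetLike.mem_coe, Submodule.mem_sInf]
  exact fun I hI => hI.2 hx

lemma idealSpan_le {s : Set A} {I : Submodule K A} (hI : IsIdeal I) (hs : s ⊆ (I : Set A)) :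
    idealSpan K s ≤ I :=
  sInf_le ⟨hI, hs⟩

end

section

variable (K X : Type*) [CommRing K]

/-- The ideal of the free nonassociative algebra on `X` generated by all `(a,a,b)`, `(b,a,a)`. -/
noncomputable def altIdeal : Submodule K (FreeNonUnitalNonAssocAlgebra K X) :=
  idealSpan K {v | ∃ a b : FreeNonUnitalNonAssocAlgebra K X,
    v = associator a a b ∨ v = associator b a a}

/-- The free alternative `K`-algebra on `X`. -/
def FreeAlt : Type _ := FreeNonUnitalNonAssocAlgebra K X ⧸ altIdeal K X

noncomputable instance : AddCommGroup (FreeAlt K X) :=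
  inferInstanceAs (AddCommGroup (FreeNonUnitalNonAssocAlgebra K X ⧸ altIdeal K X))

noncomputable instance : Module K (FreeAlt K X) :=
  inferInstanceAs (Module K (FreeNonUnitalNonAssocAlgebra K X ⧸ altIdeal K X))

/-- the projection from the free nonassociative algebra -/
noncomputable def FreeAlt.proj : FreeNonUnitalNonAssocAlgebra K X →ₗ[K] FreeAlt K X :=
  (altIdeal K X).mkQ

/-- multiplication of the free alternative algebra -/
noncomputable instance : Mul (FreeAlt K X) where
  mul x y := Quotient.liftOn₂' x y (fun a b => FreeAlt.proj K X (a * b)) (by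
    intro a₁ b₁ a₂ b₂ ha hb
    rw [Submodule.quotientRel_def] at ha hb
    refine (Submodule.Quotient.eq _).mpr ?_
    have h : a₁ * b₁ - a₂ * b₂ = a₁ * (b₁ - b₂) + (a₁ - a₂) * b₂ := by
      rw [mul_sub, sub_mul]; abel
    rw [h]
    exact add_mem ((isIdeal_idealSpan _ a₁ _ hb).1) ((isIdeal_idealSpan _ b₂ _ ha).2))

lemma FreeAlt.proj_mul (a b : FreeNonUnitalNonAssocAlgebra K X) :
    FreeAlt.proj K X (a * b) = FreeAlt.proj K X a * FreeAlt.proj K X b := rfl

lemma FreeAlt.proj_surj : Function.Surjective (FreeAlt.proj K X) :=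
  Submodule.mkQ_surjective _

noncomputable instance : NonUnitalNonAssocRing (FreeAlt K X) where
  left_distrib x y z := by
    obtain ⟨a, rfl⟩ := FreeAlt.proj_surj K X x
    obtain ⟨b, rfl⟩ := FreeAlt.proj_surj K X y
    obtain ⟨c, rfl⟩ := FreeAlt.proj_surj K X z
    rw [← map_add, ← FreeAlt.proj_mul, mul_add, map_add]
    rfl
  right_distrib x y z := by
    obtain ⟨a, rfl⟩ := FreeAlt.proj_surj K X x
    obtain ⟨b, rfl⟩ := FreeAlt.proj_surj K X y
    obtain ⟨c, rfl⟩ := FreeAlt.proj_surj K X z
    rw [← map_add, ← FreeAlt.proj_mul, add_mul, map_add]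
    rfl
  zero_mul x := by
    obtain ⟨a, rfl⟩ := FreeAlt.proj_surj K X x
    rw [← map_zero (FreeAlt.proj K X), ← FreeAlt.proj_mul, zero_mul]
  mul_zero x := by
    obtain ⟨a, rfl⟩ := FreeAlt.proj_surj K X x
    rw [← map_zero (FreeAlt.proj K X), ← FreeAlt.proj_mul, mul_zero]

instance : IsScalarTower K (FreeAlt K X) (FreeAlt K X) where
  smul_assoc r x y := by
    obtain ⟨a, rfl⟩ := FreeAlt.proj_surj K X x
    obtain ⟨b, rfl⟩ := FreeAlt.proj_surj K X y
    rw [smul_eq_mul, smul_eq_mul, ← map_smul, ← FreeAlt.proj_mul, ← FreeAlt.proj_mul, ← map_smul,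
      smul_mul_assoc]

instance : SMulCommClass K (FreeAlt K X) (FreeAlt K X) where
  smul_comm r x y := by
    obtain ⟨a, rfl⟩ := FreeAlt.proj_surj K X x
    obtain ⟨b, rfl⟩ := FreeAlt.proj_surj K X y
    rw [smul_eq_mul, smul_eq_mul, ← map_smul, ← FreeAlt.proj_mul, ← FreeAlt.proj_mul, ← map_smul,
      mul_smul_comm]

/-- the generators -/
noncomputable def FreeAlt.of (x : X) : FreeAlt K X :=
  FreeAlt.proj K X (FreeNonUnitalNonAssocAlgebra.of K x)

end

end Pool.Agent.Zk64.Alt
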