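import Pool.Agent.Zk64.Alt.Basic

/-!
# Nuclear elements of alternative rings

For `n` in the nucleus, `2 [n,a] (b,c,d)` lies in an ideal contained in the nucleus (Dorofeev).
-/

set_option autoImplicit false
set_option linter.unusedSectionVars false

namespace Pool.Agent.Zk64.Alt

variable {A : Type*} [NonUnitalNonAssocRing A]

/-- `n` lies in the (left) nucleus -/
def Nuc (n : A) : Prop := ∀ y w : A, as n y w = 0

section

variable (hA : IsAlt A)
include hA

lemma Nuc.mid {n : A} (h : Nuc n) (y w : A) : as y n w = 0 := by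
  rw [as_12 hA, h, neg_zero]

lemma Nuc.right {n : A} (h : Nuc n) (y w : A) : as y w n = 0 := by
  rw [as_cyc hA n y w, h]

omit hA in
lemma Nuc.assoc1 {n : A} (h : Nuc n) (y w : A) : n * y * w = n * (y * w) := by
  have := h y w
  rwa [as, sub_eq_zero] at this

lemma Nuc.assoc2 {n : A} (h : Nuc n) (y w : A) : y * n * w = y * (n * w) := by
  have := h.mid hA y w
  rwa [as, sub_eq_zero] at this

lemma Nuc.assoc3 {n : A} (h : Nuc n) (y w : A) : y * w * n = y * (w * n) := by
  have := h.right hA y w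
  rwa [as, sub_eq_zero] at this

omit hA in
lemma Nuc.as_mul_left {n : A} (h : Nuc n) (a b c : A) : as (n * a) b c = n * as a b c := by
  have := teich n a b c
  rw [h, h, h, zero_mul, add_zero, sub_zero, add_zero] at this
  exact this

lemma Nuc.kf_two {n : A} (h : Nuc n) (a b c : A) : kf a n b c = 0 := by
  rw [kf_23 hA, neg_eq_zero, kf, h.mid hA, h.mid hA, h.mid hA]
  simp

lemma Nuc.as_mul_right {n : A} (h : Nuc n) (a b c : A) : as (a * n) b c = n * as a b c := by
  have := h.kf_two hA a b c
  rw [kf, h, zero_mul, sub_zero, sub_eq_zero] at this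
  exact this

lemma Nuc.comm_as {n : A} (h : Nuc n) (a b c : A) : n * as a b c = as a b c * n := by
  have h1 := h.kf_two hA a b c
  rw [← neg_eq_zero, ← kf_12 hA, kf, h, mul_zero, sub_zero, h.as_mul_left, sub_eq_zero] at h1
  exact h1

lemma Nuc.cm {n : A} (h : Nuc n) (a : A) : Nuc (cm n a) := by
  intro y w
  rw [Alt.cm, as_sub₁, h.as_mul_left, h.as_mul_right hA, sub_self]

/-- `g(a,b,c,d) = [n,a](b,c,d)` -/
def gg (n a b c d : A) : A := cm n a * as b c d

lemma gg_34 (n a b c d : A) : gg n a b d c = - gg n a b c d := by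
  rw [gg, gg, as_23 hA b c d, mul_neg]

lemma gg_23 (n a b c d : A) : gg n a c b d = - gg n a b c d := by
  rw [gg, gg, as_12 hA b c d, mul_neg]

lemma Nuc.kf_diff {n : A} (h : Nuc n) (a b c d : A) :
    kf (n * a) b c d - n * kf a b c d = gg n b a c d := by
  have e1 : as (n * a * b) c d = n * as (a * b) c d := by
    rw [h.assoc1, h.as_mul_left]
  have e2 : as b c d * (n * a) = n * (as b c d * a) := by
    rw [← h.assoc2 hA, ← h.comm_as hA, h.assoc1]
  rw [kf, kf, gg, Alt.cm, e1, e2, h.as_mul_left, mul_sub, mul_sub, sub_mul, h.assoc1, h.assoc2 hA]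
  abel

lemma Nuc.gg_13 {n : A} (h : Nuc n) (a b c d : A) : gg n c b a d = - gg n a b c d := by
  rw [← h.kf_diff hA b c a d, ← h.kf_diff hA b a c d, kf_23 hA (n * b) a c d, kf_23 hA b a c d,
    mul_neg]
  abel

lemma Nuc.gg_12 {n : A} (h : Nuc n) (a b c d : A) : gg n b a c d = - gg n a b c d := by
  rw [gg_23 hA n b c a d, h.gg_13 hA a c b d, neg_neg, gg_23 hA n a b c d]

lemma Nuc.gg_nuc {n : A} (h : Nuc n) (a b c d : A) : Nuc (gg n a b c d) := by
  intro y w
  rw [gg, (h.cm hA a).as_mul_left]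
  change gg n a (as b c d) y w = 0
  have h1 : Alt.cm n (as b c d) = 0 := by
    rw [Alt.cm, h.comm_as hA, sub_self]
  rw [h.gg_12 hA (as b c d) a y w, gg, h1, zero_mul, neg_zero]

/-- `G(a; b,c,d | e,k,l) = [n,a](b,c,d) (e,k,l)` -/
def gG (n a b c d e k l : A) : A := gg n a b c d * as e k l

lemma Nuc.gG_symm {n : A} (h : Nuc n) (a b c d e k l : A) :
    gG n a b c d e k l = gG n a e k l b c d := by
  have h1 := h.gg_nuc hA a b c d
  have h2 := h.cm hA a
  rw [gG, h1.comm_as hA, gg, ← h2.assoc2 hA, ← h2.comm_as hA]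
  rfl

lemma Nuc.gG_swap {n : A} (h : Nuc n) (a b c d e k l : A) :
    gG n a b c d e k l = - gG n a e c d b k l := by
  have e1 : ∀ a b c d e k l, gG n b a c d e k l = - gG n a b c d e k l := by
    intro a b c d e k l
    rw [gG, gG, h.gg_12 hA, neg_mul]
  have e2 : ∀ a b c d e k l, gG n e b c d a k l = - gG n a b c d e k l := by
    intro a b c d e k l
    rw [h.gG_symm hA e b c d a k l, e1, ← h.gG_symm hA]
  rw [← neg_neg (gG n a b c d e k l), ← e1, ← neg_neg (gG n b a c d e k l), ← e2,
    ← neg_neg (gG n e a c d b k l), ← e1]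
  abel

lemma Nuc.gG_swap_groups {n : A} (h : Nuc n) (a b c d e k l : A) :
    gG n a b c d e k l = - gG n a e k l b c d := by
  have r1 : ∀ b c d e k l, gG n a c b d e k l = - gG n a b c d e k l := by
    intro b c d e k l
    rw [gG, gG, gg_23 hA n a b c d, neg_mul]
  have r2 : ∀ b c d e k l, gG n a b d c e k l = - gG n a b c d e k l := by
    intro b c d e k l
    rw [gG, gG, gg_34 hA n a b c d, neg_mul]
  have r3 : ∀ b c d e k l, gG n a b c d k e l = - gG n a b c d e k l := by
    intro b c d e k l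
    rw [gG, gG, as_12 hA e k l, mul_neg]
  have r4 : ∀ b c d e k l, gG n a b c d e l k = - gG n a b c d e k l := by
    intro b c d e k l
    rw [gG, gG, as_23 hA e k l, mul_neg]
  have s1 := h.gG_swap hA a
  -- second entries
  have s2 : ∀ b c d e k l, gG n a b c d e k l = - gG n a b k d e c l := by
    intro b c d e k l
    have t1 := r1 b c d e k l
    have t2 := r3 c b d e k l
    have t2' := r3 b c d e k l
    have t3 := s1 c b d k e l
    have t4 := r1 k b d c e l
    have t5 := r3 b k d e c l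
    have t6 := r1 b c d k e l
    rw [← neg_neg (gG n a b c d e k l), ← t2', ← neg_neg (gG n a b c d k e l), ← t6, t3,
      neg_neg, ← neg_neg (gG n a k b d c e l), ← t4, t5]
    abel
  have s3 : ∀ b c d e k l, gG n a b c d e k l = - gG n a b c l e k d := by
    intro b c d e k l
    rw [← neg_neg (gG n a b c d e k l), ← r2, ← neg_neg (gG n a b d c e k l), ← r4, s2,
      ← neg_neg (gG n a b l c e d k), ← r2, ← neg_neg (gG n a b c l e d k), ← r4]
    abel
  rw [s1 b c d e k l, s2 e c d b k l, s3 e k d b c l]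
  abel

theorem Nuc.two_gG {n : A} (h : Nuc n) (a b c d e k l : A) :
    (2 : ℤ) • gG n a b c d e k l = 0 := by
  have h1 := h.gG_swap_groups hA a b c d e k l
  rw [h.gG_symm hA a e k l b c d] at h1
  rw [two_smul]
  nth_rewrite 1 [h1]
  exact neg_add_cancel _

/-- elements of the nucleus annihilating the associators -/
def UU (u : A) : Prop := Nuc u ∧ ∀ a b c : A, u * as a b c = 0

lemma UU.mul_right {u : A} (h : UU u) (a : A) : UU (u * a) := by
  refine ⟨fun y w => by rw [h.1.as_mul_left, h.2], fun b c d => ?_⟩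
  have := teich a b c d
  rw [h.1.assoc1]
  have h2 : a * as b c d = as (a * b) c d - as a (b * c) d + as a b (c * d) - as a b c * d := by
    rw [this]; abel
  rw [h2, mul_sub, mul_add, mul_sub, h.2, h.2, h.2, ← h.1.assoc1, h.2, zero_mul]
  abel

lemma UU.mul_left {u : A} (h : UU u) (a : A) : UU (a * u) := by
  refine ⟨fun y w => by rw [h.1.as_mul_right hA, h.2], fun b c d => ?_⟩
  rw [h.1.assoc2 hA, h.2, mul_zero]

lemma Nuc.two_gg_UU {n : A} (h : Nuc n) (a b c d : A) : UU ((2 : ℤ) • gg n a b c d) := by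
  refine ⟨fun y w => ?_, fun e k l => ?_⟩
  · rw [two_smul, as_add₁, h.gg_nuc hA a b c d, add_zero]
  · rw [smul_mul_assoc]
    exact h.two_gG hA a b c d e k l

end

end Pool.Agent.Zk64.Alt
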