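import Pool.Agent.Zk64.Alt.Super

/-!
# The exterior algebra is supercommutative
-/

set_option autoImplicit false
set_option linter.unusedSectionVars false

open TensorProduct

namespace Pool.Agent.Zk64.Alt

variable {K : Type*} [CommRing K] {M : Type*} [AddCommGroup M] [Module K M]

variable (K M) in
/-- the even and the odd part of the exterior algebra -/
noncomputable def par (i : ZMod 2) : Submodule K (ExteriorAlgebra K M) :=
  CliffordAlgebra.evenOdd (0 : QuadraticForm K M) i

lemma ext_anti (v w : M) : (ExteriorAlgebra.ι K v) * (ExteriorAlgebra.ι K w) =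
    -(ExteriorAlgebra.ι K w * ExteriorAlgebra.ι K v) :=
  eq_neg_of_add_eq_zero_left (ExteriorAlgebra.ι_add_mul_swap v w)

lemma pair_comm_vec (m₁ m₂ v : M) : (ExteriorAlgebra.ι K v) *
    (ExteriorAlgebra.ι K m₁ * ExteriorAlgebra.ι K m₂) =
    ExteriorAlgebra.ι K m₁ * ExteriorAlgebra.ι K m₂ * ExteriorAlgebra.ι K v := by
  rw [← mul_assoc, ext_anti v m₁, neg_mul, mul_assoc, ext_anti v m₂, mul_neg, neg_neg, mul_assoc]

lemma pair_central (m₁ m₂ : M) (b : ExteriorAlgebra K M) :
    b * (ExteriorAlgebra.ι K m₁ * ExteriorAlgebra.ι K m₂) =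
    ExteriorAlgebra.ι K m₁ * ExteriorAlgebra.ι K m₂ * b := by
  induction b using ExteriorAlgebra.induction with
  | algebraMap r => rw [Algebra.commutes]
  | ι v => exact pair_comm_vec m₁ m₂ v
  | mul a b ha hb => rw [mul_assoc, hb, ← mul_assoc, ha, mul_assoc]
  | add a b ha hb => rw [add_mul, ha, hb, mul_add]

lemma even_central {a : ExteriorAlgebra K M} (ha : a ∈ par K M 0) (b : ExteriorAlgebra K M) :
    b * a = a * b := by
  induction a, ha using CliffordAlgebra.even_induction with
  | algebraMap r => rw [Algebra.commutes]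
  | add x y hx hy h1 h2 => rw [mul_add, h1, h2, add_mul]
  | ι_mul_ι_mul m₁ m₂ x hx h =>
    have := pair_central (K := K) m₁ m₂ b
    change b * (ExteriorAlgebra.ι K m₁ * ExteriorAlgebra.ι K m₂ * x) =
      ExteriorAlgebra.ι K m₁ * ExteriorAlgebra.ι K m₂ * x * b
    rw [← mul_assoc, this, mul_assoc _ b x, h, ← mul_assoc _ x b]

lemma odd_vec {b : ExteriorAlgebra K M} (hb : b ∈ par K M 1) (v : M) :
    b * ExteriorAlgebra.ι K v = - (ExteriorAlgebra.ι K v * b) := by
  induction b, hb using CliffordAlgebra.odd_induction with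
  | ι w => exact ext_anti w v
  | add x y hx hy h1 h2 => rw [add_mul, h1, h2, mul_add, neg_add]
  | ι_mul_ι_mul m₁ m₂ x hx h =>
    have := pair_central (K := K) m₁ m₂ (ExteriorAlgebra.ι K v)
    change ExteriorAlgebra.ι K m₁ * ExteriorAlgebra.ι K m₂ * x * ExteriorAlgebra.ι K v =
      - (ExteriorAlgebra.ι K v * (ExteriorAlgebra.ι K m₁ * ExteriorAlgebra.ι K m₂ * x))
    rw [mul_assoc _ x, h, mul_neg, ← mul_assoc, ← this, mul_assoc]

lemma odd_odd {a b : ExteriorAlgebra K M} (ha : a ∈ par K M 1) (hb : b ∈ par K M 1) :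
    b * a = - (a * b) := by
  induction a, ha using CliffordAlgebra.odd_induction with
  | ι w => exact odd_vec hb w
  | add x y hx hy h1 h2 => rw [mul_add, h1, h2, add_mul, neg_add]
  | ι_mul_ι_mul m₁ m₂ x hx h =>
    have := pair_central (K := K) m₁ m₂ b
    change b * (ExteriorAlgebra.ι K m₁ * ExteriorAlgebra.ι K m₂ * x) =
      - (ExteriorAlgebra.ι K m₁ * ExteriorAlgebra.ι K m₂ * x * b)
    rw [← mul_assoc, this, mul_assoc _ b x, h, mul_neg, ← mul_assoc _ x b]

lemma odd_sq {a : ExteriorAlgebra K M} (ha : a ∈ par K M 1) : a * a = 0 := by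
  induction a, ha using CliffordAlgebra.odd_induction with
  | ι w => exact ExteriorAlgebra.ι_sq_zero w
  | add x y hx hy h1 h2 =>
    rw [add_mul, mul_add, mul_add, h1, h2, odd_odd (K := K) (M := M) hx hy]
    abel
  | ι_mul_ι_mul m₁ m₂ x hx h =>
    have := pair_central (K := K) m₁ m₂ x
    change (ExteriorAlgebra.ι K m₁ * ExteriorAlgebra.ι K m₂ * x) *
      (ExteriorAlgebra.ι K m₁ * ExteriorAlgebra.ι K m₂ * x) = 0
    rw [mul_assoc _ x, ← mul_assoc x, this, mul_assoc _ x, h, mul_zero, mul_zero]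

lemma par_mul {i j : ZMod 2} {a b : ExteriorAlgebra K M} (ha : a ∈ par K M i) (hb : b ∈ par K M j) :
    a * b ∈ par K M (i + j) :=
  CliffordAlgebra.evenOdd_mul_le _ i j (Submodule.mul_mem_mul ha hb)

lemma one_mem_par : (1 : ExteriorAlgebra K M) ∈ par K M 0 :=
  CliffordAlgebra.one_le_evenOdd_zero _ (Submodule.one_le.mp le_rfl)

lemma vec_mem_par (v : M) : ExteriorAlgebra.ι K v ∈ par K M 1 :=
  CliffordAlgebra.ι_mem_evenOdd_one _ v

variable (K M) in
theorem sc_ext : SC (par K M 0) (par K M 1) where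
  one := one_mem_par
  m00 a ha b hb := by simpa using par_mul ha hb
  m01 a ha b hb := by simpa using par_mul ha hb
  m10 a ha b hb := by simpa using par_mul ha hb
  m11 a ha b hb := by
    have := par_mul ha hb
    rwa [show (1 : ZMod 2) + 1 = 0 from rfl] at this
  c0 a ha b := even_central ha b
  c1 a ha b hb := odd_odd ha hb

variable (K) in
/-- the coefficient of `e_0 ⋯ e_{n-1}` -/
noncomputable def topc (n : ℕ) : ExteriorAlgebra K (Fin n → K) →ₗ[K] K :=
  ExteriorAlgebra.liftAlternating (Function.update 0 n Matrix.detRowAlternating)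

variable (K) in
/-- the generators of the exterior algebra -/
noncomputable def eg (n : ℕ) (i : Fin n) : ExteriorAlgebra K (Fin n → K) :=
  ExteriorAlgebra.ι K (Pi.single i 1)

lemma topc_top (n : ℕ) : topc K n (List.ofFn (eg K n)).prod = 1 := by
  have h := ExteriorAlgebra.ιMulti_apply (R := K) (n := n) (fun i : Fin n => (Pi.single i 1 : Fin n → K))
  change topc K n ((List.ofFn fun i => ExteriorAlgebra.ι K (Pi.single i (1 : K))).prod) = 1
  rw [← h, topc, ExteriorAlgebra.liftAlternating_apply_ιMulti, Function.update_self]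
  change Matrix.det (fun i : Fin n => (Pi.single i 1 : Fin n → K)) = 1
  rw [show (fun i : Fin n => (Pi.single i 1 : Fin n → K)) = (1 : Matrix (Fin n) (Fin n) K) from ?_,
    Matrix.det_one]
  ext i j
  rw [Matrix.one_apply, Pi.single_apply]
  simp only [eq_comm]

end Pool.Agent.Zk64.Alt
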