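import Pool.Agent.Zk64.Alt.Defs
import Pool.Agent.Zk64.Alt.Dorofeev

/-!
# Free alternative algebras: universal property; a criterion for not being separated
-/

set_option autoImplicit false
set_option linter.unusedSectionVars false

namespace Pool.Agent.Zk64.Alt

section

variable {K X : Type*} [CommRing K]

lemma FreeAlt.proj_eq_zero {a : FreeNonUnitalNonAssocAlgebra K X} :
    FreeAlt.proj K X a = 0 ↔ a ∈ altIdeal K X :=
  Submodule.Quotient.mk_eq_zero _

theorem FreeAlt.isAlt : IsAlt (FreeAlt K X) := by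
  intro x y
  obtain ⟨a, rfl⟩ := FreeAlt.proj_surj K X x
  obtain ⟨b, rfl⟩ := FreeAlt.proj_surj K X y
  constructor
  · have h : FreeAlt.proj K X (associator a a b) = 0 :=
      FreeAlt.proj_eq_zero.mpr (subset_idealSpan _ ⟨a, b, Or.inl rfl⟩)
    rw [← h]
    simp only [associator, map_sub, FreeAlt.proj_mul]
  · have h : FreeAlt.proj K X (associator b a a) = 0 :=
      FreeAlt.proj_eq_zero.mpr (subset_idealSpan _ ⟨a, b, Or.inr rfl⟩)
    rw [← h]
    simp only [associator, map_sub, FreeAlt.proj_mul]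

variable {B : Type*} [NonUnitalNonAssocRing B] [Module K B]

lemma altIdeal_le_ker (g : FreeNonUnitalNonAssocAlgebra K X →ₗ[K] B)
    (hg : ∀ a b, g (a * b) = g a * g b)
    (h1 : ∀ a b, associator (g a) (g a) (g b) = 0 ∧ associator (g b) (g a) (g a) = 0) :
    altIdeal K X ≤ LinearMap.ker g := by
  refine idealSpan_le (fun a u hu => ?_) ?_
  · rw [LinearMap.mem_ker] at hu
    constructor
    · rw [LinearMap.mem_ker, hg, hu, mul_zero]
    · rw [LinearMap.mem_ker, hg, hu, zero_mul]
  · rintro v ⟨a, b, rfl | rfl⟩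
    · have := (h1 a b).1
      simp only [SetLike.mem_coe, LinearMap.mem_ker, associator, map_sub, hg] at this ⊢
      exact this
    · have := (h1 a b).2
      simp only [SetLike.mem_coe, LinearMap.mem_ker, associator, map_sub, hg] at this ⊢
      exact this

/-- a multiplicative linear map with alternative image factors through the free alternative
algebra -/
noncomputable def FreeAlt.desc (g : FreeNonUnitalNonAssocAlgebra K X →ₗ[K] B)
    (hg : ∀ a b, g (a * b) = g a * g b)
    (h1 : ∀ a b, associator (g a) (g a) (g b) = 0 ∧ associator (g b) (g a) (g a) = 0) :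
    FreeAlt K X →ₗ[K] B :=
  (altIdeal K X).liftQ g (altIdeal_le_ker g hg h1)

lemma FreeAlt.desc_proj (g : FreeNonUnitalNonAssocAlgebra K X →ₗ[K] B)
    (hg : ∀ a b, g (a * b) = g a * g b)
    (h1 : ∀ a b, associator (g a) (g a) (g b) = 0 ∧ associator (g b) (g a) (g a) = 0)
    (a : FreeNonUnitalNonAssocAlgebra K X) :
    FreeAlt.desc g hg h1 (FreeAlt.proj K X a) = g a := rfl

lemma FreeAlt.desc_mul (g : FreeNonUnitalNonAssocAlgebra K X →ₗ[K] B)
    (hg : ∀ a b, g (a * b) = g a * g b)
    (h1 : ∀ a b, associator (g a) (g a) (g b) = 0 ∧ associator (g b) (g a) (g a) = 0)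
    (x y : FreeAlt K X) :
    FreeAlt.desc g hg h1 (x * y) = FreeAlt.desc g hg h1 x * FreeAlt.desc g hg h1 y := by
  obtain ⟨a, rfl⟩ := FreeAlt.proj_surj K X x
  obtain ⟨b, rfl⟩ := FreeAlt.proj_surj K X y
  rw [← FreeAlt.proj_mul, FreeAlt.desc_proj, FreeAlt.desc_proj, FreeAlt.desc_proj, hg]

variable [IsScalarTower K B B] [SMulCommClass K B B]

/-- the homomorphism of nonassociative algebras given by images of the generators -/
noncomputable def freeMap (f : X → B) : FreeNonUnitalNonAssocAlgebra K X →ₗ[K] B where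
  toFun := FreeNonUnitalNonAssocAlgebra.lift K f
  map_add' := map_add _
  map_smul' r x := by
    rw [map_smul]; rfl

lemma freeMap_mul (f : X → B) (a b : FreeNonUnitalNonAssocAlgebra K X) :
    freeMap f (a * b) = freeMap f a * freeMap f b :=
  map_mul (FreeNonUnitalNonAssocAlgebra.lift K f) a b

lemma freeMap_of (f : X → B) (x : X) :
    freeMap f (FreeNonUnitalNonAssocAlgebra.of K x) = f x :=
  FreeNonUnitalNonAssocAlgebra.lift_of_apply K f x

/-- universal property of the free alternative algebra -/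
theorem FreeAlt.exists_hom (hB : IsAlt B) (f : X → B) :
    ∃ F : FreeAlt K X →ₗ[K] B, (∀ x y, F (x * y) = F x * F y) ∧ ∀ x, F (FreeAlt.of K X x) = f x := by
  refine ⟨FreeAlt.desc (freeMap f) (freeMap_mul f) (fun a b => hB _ _), fun x y => FreeAlt.desc_mul _ _ _ x y,
    fun x => ?_⟩
  rw [FreeAlt.of, FreeAlt.desc_proj, freeMap_of]

end

section

variable {K A : Type*} [CommRing K] [NonUnitalNonAssocRing A] [Module K A]
  [IsScalarTower K A A] [SMulCommClass K A A]

variable (K) in
/-- the ideal `{u ∈ N : u (A,A,A) = 0}` -/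
def uuIdeal (hA : IsAlt A) : Submodule K A where
  carrier := {u | UU u}
  zero_mem' := ⟨fun y w => by simp [as], fun a b c => zero_mul _⟩
  add_mem' := by
    rintro u v ⟨h1, h2⟩ ⟨h3, h4⟩
    exact ⟨fun y w => by rw [as_add₁, h1, h3, add_zero], fun a b c => by rw [add_mul, h2, h4, add_zero]⟩
  smul_mem' := by
    rintro c u ⟨h1, h2⟩
    refine ⟨fun y w => ?_, fun a b d => ?_⟩
    · have := h1 y w
      simp only [as, smul_mul_assoc, ← smul_sub] at *
      rw [this, smul_zero]
    · rw [smul_mul_assoc, h2, smul_zero]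

lemma uu_mem_nuclearIdeal (hA : IsAlt A) {u : A} (hu : UU u) : u ∈ nuclearIdeal K A := by
  have h : uuIdeal K hA ≤ nuclearIdeal K A := by
    refine le_sSup ⟨fun a v hv => ⟨UU.mul_left hA hv a, UU.mul_right hA hv a⟩, fun n hn a b => ?_⟩
    exact ⟨hn.1 a b, hn.1.mid hA a b, hn.1.right hA a b⟩
  exact h hu

lemma assoc_mem (a b c : A) : as a b c ∈ associatorIdeal K A :=
  subset_idealSpan _ ⟨a, b, c, rfl⟩

lemma isIdeal_assoc : IsIdeal (associatorIdeal K A) := isIdeal_idealSpan _

/-- a nuclear element of the associator ideal with `2 [n, a] ≠ 0` -/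
theorem not_separated_of (hA : IsAlt A) {n a : A} (hn : Nuc n) (hD : n ∈ associatorIdeal K A)
    (h : (2 : ℤ) • cm n a ≠ 0) : ¬ Separated K A := by
  intro hs
  have key : ∀ g : A, g ∈ associatorIdeal K A → UU g → g = 0 := by
    intro g h1 h2
    have : g ∈ associatorIdeal K A ⊓ nuclearIdeal K A := ⟨h1, uu_mem_nuclearIdeal hA h2⟩
    rw [Separated] at hs
    rwa [hs, Submodule.mem_bot] at this
  have hc : cm n a ∈ associatorIdeal K A :=
    sub_mem (isIdeal_assoc a n hD).2 (isIdeal_assoc a n hD).1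
  have h1 : ∀ b c d, (2 : ℤ) • gg n a b c d = 0 := by
    intro b c d
    refine key _ ?_ (hn.two_gg_UU hA a b c d)
    rw [two_smul]
    exact add_mem (isIdeal_assoc _ _ hc).2 (isIdeal_assoc _ _ hc).2
  refine h (key _ ?_ ⟨fun y w => ?_, fun b c d => ?_⟩)
  · rw [two_smul]
    exact add_mem hc hc
  · rw [two_smul, as_add₁, hn.cm hA a, add_zero]
  · rw [smul_mul_assoc]
    exact h1 b c d

end

end Pool.Agent.Zk64.Alt
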