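import Pool.Agent.Zk64.Alt.Nuc
import Pool.Agent.Zk64.Alt.Ext
import Pool.Agent.Zk64.Alt.Free

/-!
# The nuclear element of degree 7
-/

set_option autoImplicit false
set_option linter.unusedSectionVars false

open TensorProduct

namespace Pool.Agent.Zk64.Alt

section

variable {K : Type*} [CommRing K] {A : Type*} [NonUnitalNonAssocRing A] [Module K A]
  [IsScalarTower K A A] [SMulCommClass K A A] {G : Type*} [Ring G] [Algebra K G]

/-- `u = r ∘ q`, `q = [x², x]`, `r = [q, x]` -/
noncomputable def uel (x : A ⊗[K] G) : A ⊗[K] G := jo (br (br (x * x) x) x) (br (x * x) x)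

/-- the coefficient with respect to a functional on `G` -/
noncomputable def coef (φ : G →ₗ[K] K) : A ⊗[K] G →ₗ[K] A :=
  (TensorProduct.rid K A).toLinearMap ∘ₗ TensorProduct.map LinearMap.id φ

lemma coef_tmul (φ : G →ₗ[K] K) (a : A) (l : G) : coef φ (a ⊗ₜ[K] l) = φ l • a := by
  simp [coef]

/-- the generic odd element -/
noncomputable def xh {n : ℕ} (a : Fin n → A) : A ⊗[K] ExteriorAlgebra K (Fin n → K) :=
  ∑ i, a i ⊗ₜ[K] eg K n i

variable (K) in
/-- The nuclear element of degree 7. -/
noncomputable def n0 (a : Fin 7 → A) : A := coef (topc K 7) (uel (xh (K := K) a))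

lemma as_coef (φ : G →ₗ[K] K) (u : A ⊗[K] G) (y w : A) :
    as (coef φ u) y w = coef φ (as u (y ⊗ₜ[K] 1) (w ⊗ₜ[K] 1)) := by
  induction u using TensorProduct.induction_on with
  | zero => simp [as]
  | tmul a l =>
    rw [coef_tmul, as_tmul, coef_tmul, mul_one, mul_one]
    simp only [as, smul_mul_assoc, ← smul_sub]
  | add u v hu hv => rw [map_add, as_add₁, hu, hv, as_add₁, map_add]

lemma xh_mem {n : ℕ} (a : Fin n → A) : xh (K := K) a ∈ Hom A (par K (Fin n → K) 1) :=
  sum_mem fun i _ => tmul_mem _ (vec_mem_par _)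

theorem n0_nuc (hA : IsAlt A)
    (h2 : ∀ v : A ⊗[K] ExteriorAlgebra K (Fin 7 → K), (2 : ℤ) • v = 0 → v = 0)
    (h3 : ∀ v : A ⊗[K] ExteriorAlgebra K (Fin 7 → K), (3 : ℤ) • v = 0 → v = 0)
    (a : Fin 7 → A) : Nuc (n0 K a) := by
  intro y w
  rw [n0, as_coef, uel, nuc_super (sc_ext K _) hA h2 (xh_mem a) h3 (tmul_mem _ one_mem_par)
    (tmul_mem _ one_mem_par), map_zero]

/-- the elements with coefficients in an ideal -/
def homI (G : Type*) [Ring G] [Algebra K G] (I : Submodule K A) : AddSubmonoid (A ⊗[K] G) :=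
  AddSubmonoid.closure {v | ∃ a ∈ I, ∃ l : G, v = a ⊗ₜ[K] l}

lemma coef_mem {I : Submodule K A} (φ : G →ₗ[K] K) {v : A ⊗[K] G} (hv : v ∈ homI G I) :
    coef φ v ∈ I := by
  refine AddSubmonoid.closure_induction (motive := fun v _ => coef φ v ∈ I) ?_ ?_ ?_ hv
  · rintro x ⟨a, ha, l, rfl⟩
    rw [coef_tmul]
    exact I.smul_mem _ ha
  · rw [map_zero]
    exact zero_mem _
  · intro x y _ _ hx hy
    rw [map_add]
    exact add_mem hx hy

lemma as_mem_homI (u v w : A ⊗[K] G) : as u v w ∈ homI G (associatorIdeal K A) := by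
  refine ind3 (P := fun u v w => as u v w ∈ homI G (associatorIdeal K A)) ?_ ?_ ?_ ?_
    (mem_top u) (mem_top v) (mem_top w)
  · intro u u' v w h h'
    rw [as_add₁]; exact add_mem h h'
  · intro u u' v w h h'
    rw [as_add₂]; exact add_mem h h'
  · intro u u' v w h h'
    rw [as_add₃]; exact add_mem h h'
  · intro a l b m c n _ _ _
    rw [as_tmul]
    exact AddSubmonoid.subset_closure ⟨_, assoc_mem a b c, _, rfl⟩

lemma jo_mem_homI {I : Submodule K A} (hI : IsIdeal I) (u : A ⊗[K] G) {v : A ⊗[K] G}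
    (hv : v ∈ homI G I) : jo u v ∈ homI G I := by
  refine AddSubmonoid.closure_induction (motive := fun v _ => jo u v ∈ homI G I) ?_ ?_ ?_ hv
  · rintro x ⟨a, ha, l, rfl⟩
    refine ind1 (L := ⊤) (P := fun u => jo u (a ⊗ₜ[K] l) ∈ homI G I) ?_ ?_ (mem_top u)
    · intro u v hu hv
      rw [jo_add_left]; exact add_mem hu hv
    · intro b m _
      rw [jo_tmul]
      exact AddSubmonoid.subset_closure
        ⟨_, add_mem (hI b a ha).1 (hI b a ha).2, _, rfl⟩
  · rw [jo_zero_right]
    exact zero_mem _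
  · intro x y _ _ hx hy
    rw [jo_add_right]
    exact add_mem hx hy

/-- `[s, x] = s x - x s` for `s` even -/
lemma br_even {L0 L1 : Submodule K G} (hS : SC L0 L1) {u v : A ⊗[K] G} (hu : u ∈ Hom A L0) :
    br u v = u * v - v * u := by
  refine ind2 (P := fun u v => br u v = u * v - v * u) ?_ ?_ ?_ hu (mem_top v)
  iterate 2
    intros
    rename_i h h'
    simp only [br_add_left, br_add_right, add_mul, mul_add] at *
    linear_combination (norm := abel) h + h'
  intro a l b m hl _
  simp only [br_tmul, mul_tmul, hS.c0 l hl m, cm, TensorProduct.sub_tmul]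

theorem n0_mem (a : Fin 7 → A) : n0 K a ∈ associatorIdeal K A := by
  refine coef_mem _ (jo_mem_homI isIdeal_assoc _ ?_)
  have hx := xh_mem (K := K) a
  rw [br_even (sc_ext K _) (mul_oo (sc_ext K _) hx hx)]
  exact as_mem_homI _ _ _

end

section naturality

variable {K : Type*} [CommRing K] {A : Type*} [NonUnitalNonAssocRing A] [Module K A]
  [IsScalarTower K A A] [SMulCommClass K A A] {G : Type*} [Ring G] [Algebra K G]
  {B : Type*} [NonUnitalNonAssocRing B] [Module K B]
  [IsScalarTower K B B] [SMulCommClass K B B]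
  (f : A →ₗ[K] B) (hf : ∀ a b, f (a * b) = f a * f b)

variable (G) in
/-- the induced map `A ⊗ G → B ⊗ G` -/
noncomputable def mp : A ⊗[K] G →ₗ[K] B ⊗[K] G := TensorProduct.map f LinearMap.id

lemma mp_tmul (a : A) (l : G) : mp G f (a ⊗ₜ[K] l) = f a ⊗ₜ[K] l := rfl

include hf

lemma mp_mul (u v : A ⊗[K] G) : mp G f (u * v) = mp G f u * mp G f v := by
  refine ind2 (P := fun u v => mp G f (u * v) = mp G f u * mp G f v) ?_ ?_ ?_ (mem_top u) (mem_top v)
  · intro u u' v h h'
    rw [add_mul, map_add, h, h', map_add, add_mul]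
  · intro u u' v h h'
    rw [mul_add, map_add, h, h', map_add, mul_add]
  · intro a l b m _ _
    rw [mul_tmul, mp_tmul, mp_tmul, mp_tmul, mul_tmul, hf]

lemma mp_br (u v : A ⊗[K] G) : mp G f (br u v) = br (mp G f u) (mp G f v) := by
  refine ind2 (P := fun u v => mp G f (br u v) = br (mp G f u) (mp G f v)) ?_ ?_ ?_
    (mem_top u) (mem_top v)
  · intro u u' v h h'
    rw [br_add_left, map_add, h, h', map_add, br_add_left]
  · intro u u' v h h'
    rw [br_add_right, map_add, h, h', map_add, br_add_right]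
  · intro a l b m _ _
    rw [br_tmul, mp_tmul, mp_tmul, mp_tmul, br_tmul, cm, cm, map_sub, hf, hf]

lemma mp_jo (u v : A ⊗[K] G) : mp G f (jo u v) = jo (mp G f u) (mp G f v) := by
  refine ind2 (P := fun u v => mp G f (jo u v) = jo (mp G f u) (mp G f v)) ?_ ?_ ?_
    (mem_top u) (mem_top v)
  · intro u u' v h h'
    rw [jo_add_left, map_add, h, h', map_add, jo_add_left]
  · intro u u' v h h'
    rw [jo_add_right, map_add, h, h', map_add, jo_add_right]
  · intro a l b m _ _
    rw [jo_tmul, mp_tmul, mp_tmul, mp_tmul, jo_tmul, jd, jd, map_add, hf, hf]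

omit hf in
lemma coef_mp (φ : G →ₗ[K] K) (u : A ⊗[K] G) : coef φ (mp G f u) = f (coef φ u) := by
  induction u using TensorProduct.induction_on with
  | zero => simp
  | tmul a l => rw [mp_tmul, coef_tmul, coef_tmul, map_smul]
  | add u v hu hv => rw [map_add, map_add, hu, hv, map_add, map_add]

theorem n0_map (a : Fin 7 → A) : n0 K (fun i => f (a i)) = f (n0 K a) := by
  rw [n0, n0, ← coef_mp, uel, uel, mp_jo f hf, mp_br f hf, mp_br f hf, mp_mul f hf]
  have : mp (ExteriorAlgebra K (Fin 7 → K)) f (xh a) = xh (fun i => f (a i)) := by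
    rw [xh, xh, map_sum]
    rfl
  rw [this]

omit hf in
/-- torsion-freeness of tensor products -/
lemma tensor_tf (s : B →ₗ[K] B) (n : ℤ) (hs : ∀ b, n • s b = b) (v : B ⊗[K] G)
    (hv : n • v = 0) : v = 0 := by
  have h : ∀ v : B ⊗[K] G, mp G s (n • v) = v := by
    intro v
    induction v using TensorProduct.induction_on with
    | zero => simp
    | tmul a l =>
      rw [map_zsmul, mp_tmul]
      have := congrArg (fun z => z ⊗ₜ[K] l) (hs a)
      rw [← TensorProduct.smul_tmul'] at this
      exact this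
    | add u v hu hv => rw [smul_add, map_add, hu, hv]
  rw [← h v, hv, map_zero]

end naturality

section

variable {K : Type*} [CommRing K] {A : Type*} [NonUnitalNonAssocRing A] [Module K A]
  [IsScalarTower K A A] [SMulCommClass K A A] {C : Type*} [CommRing C] [Algebra K C]

theorem isAlt_tensor (hA : IsAlt A) : IsAlt (A ⊗[K] C) := by
  have h12 : ∀ u v w : A ⊗[K] C, as u v w + as v u w = 0 := by
    intro u v w
    refine ind3 (P := fun u v w => as u v w + as v u w = 0) ?_ ?_ ?_ ?_
      (mem_top u) (mem_top v) (mem_top w)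
    iterate 3
      intros
      rename_i h h'
      simp only [as_add₁, as_add₂, as_add₃] at *
      linear_combination (norm := abel) h + h'
    intro a l b m c n _ _ _
    rw [as_tmul, as_tmul, mul_comm m l, as_12 hA a b c, TensorProduct.neg_tmul, add_neg_cancel]
  have h23 : ∀ u v w : A ⊗[K] C, as u v w + as u w v = 0 := by
    intro u v w
    refine ind3 (P := fun u v w => as u v w + as u w v = 0) ?_ ?_ ?_ ?_
      (mem_top u) (mem_top v) (mem_top w)
    iterate 3
      intros
      rename_i h h'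
      simp only [as_add₁, as_add₂, as_add₃] at *
      linear_combination (norm := abel) h + h'
    intro a l b m c n _ _ _
    rw [as_tmul, as_tmul, mul_assoc l n m, mul_comm n m, ← mul_assoc, as_23 hA a b c,
      TensorProduct.neg_tmul, add_neg_cancel]
  intro u w
  constructor
  · change as u u w = 0
    refine ind1 (L := ⊤) (P := fun u => as u u w = 0) ?_ ?_ (mem_top u)
    · intro u v hu hv
      rw [as_add₁, as_add₂, as_add₂, hu, hv, zero_add, add_zero, h12]
    · intro a l _
      refine ind1 (L := ⊤) (P := fun w => as (a ⊗ₜ[K] l) (a ⊗ₜ[K] l) w = 0) ?_ ?_ (mem_top w)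
      · intro u v hu hv
        rw [as_add₃, hu, hv, add_zero]
      · intro b m _
        rw [as_tmul, as_aab hA, TensorProduct.zero_tmul]
  · change as w u u = 0
    refine ind1 (L := ⊤) (P := fun u => as w u u = 0) ?_ ?_ (mem_top u)
    · intro u v hu hv
      rw [as_add₂, as_add₃, as_add₃, hu, hv, zero_add, add_zero, h23]
    · intro a l _
      refine ind1 (L := ⊤) (P := fun w => as w (a ⊗ₜ[K] l) (a ⊗ₜ[K] l) = 0) ?_ ?_ (mem_top w)
      · intro u v hu hv
        rw [as_add₁, hu, hv, add_zero]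
      · intro b m _
        rw [as_tmul, as_baa hA, TensorProduct.zero_tmul]

end

end Pool.Agent.Zk64.Alt
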