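import Pool.Agent.Zk64.Alt.Tab

/-!
# Grassmann envelopes of table superalgebras are alternative
-/

set_option autoImplicit false
set_option linter.unusedSectionVars false

open TensorProduct

namespace Pool.Agent.Zk64.Alt

/-- the sign of a pair of parities -/
def sgn (a b : ZMod 2) : ℤ := if a = 1 ∧ b = 1 then -1 else 1

lemma zmod2_cases (a : ZMod 2) : a = 0 ∨ a = 1 := by
  revert a; decide

section

variable {K : Type*} [CommRing K] {M : Type*} [AddCommGroup M] [Module K M]

lemma par_comm {i j : ZMod 2} {l m : ExteriorAlgebra K M} (hl : l ∈ par K M i)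
    (hm : m ∈ par K M j) : m * l = sgn i j • (l * m) := by
  rcases zmod2_cases i with rfl | rfl
  · rw [even_central hl]; simp [sgn]
  · rcases zmod2_cases j with rfl | rfl
    · rw [← even_central hm]; simp [sgn]
    · rw [odd_odd hl hm]; simp [sgn]

end

/-- super alternativity of a table algebra -/
structure GoodTab (P : ℕ → ℕ → List (ℕ × ℤ)) (p : ℕ → ZMod 2) (k : Type*) [CommRing k] : Prop where
  gr : ∀ i j, ∀ t ∈ P i j, p t.1 = p i + p j
  a12 : ∀ i j l, as (sg P i (1 : k)) (sg P j 1) (sg P l 1)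
    + sgn (p i) (p j) • as (sg P j (1 : k)) (sg P i 1) (sg P l 1) = 0
  a23 : ∀ i j l, as (sg P i (1 : k)) (sg P j 1) (sg P l 1)
    + sgn (p j) (p l) • as (sg P i (1 : k)) (sg P l 1) (sg P j 1) = 0
  e12 : ∀ i l, p i = 0 → as (sg P i (1 : k)) (sg P i 1) (sg P l 1) = 0
  e23 : ∀ i l, p i = 0 → as (sg P l (1 : k)) (sg P i 1) (sg P i 1) = 0

section

variable {K : Type*} [CommRing K] {M : Type*} [AddCommGroup M] [Module K M]
  {P : ℕ → ℕ → List (ℕ × ℤ)} {k : Type*} [CommRing k] [Algebra K k] {p : ℕ → ZMod 2}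

lemma as_sg (i j l : ℕ) (c d e : k) : as (sg P i c) (sg P j d) (sg P l e) =
    (c * d * e) • as (sg P i (1 : k)) (sg P j 1) (sg P l 1) := by
  have h : ∀ (i : ℕ) (c : k), sg P i c = c • sg P i (1 : k) := by
    intro i c; rw [smul_sg, mul_one]
  rw [h i c, h j d, h l e]
  simp only [as, smul_mul_assoc, mul_smul_comm, smul_smul]
  rw [smul_sub, show e * (d * c) = c * d * e by ring, show e * d * c = c * d * e by ring]

variable (K M P k p) in
/-- the Grassmann envelope -/
noncomputable def env : AddSubmonoid (TS P k ⊗[K] ExteriorAlgebra K M) :=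
  AddSubmonoid.closure {v | ∃ i c, ∃ l ∈ par K M (p i), v = sg P i c ⊗ₜ[K] l}

lemma sg_mem_env (i : ℕ) (c : k) {l : ExteriorAlgebra K M} (hl : l ∈ par K M (p i)) :
    sg P i c ⊗ₜ[K] l ∈ env K M P k p :=
  AddSubmonoid.subset_closure ⟨i, c, l, hl, rfl⟩

theorem env_ind {Q : TS P k ⊗[K] ExteriorAlgebra K M → Prop}
    (hadd : ∀ u v, Q u → Q v → Q (u + v))
    (hp : ∀ i (c : k) (l : ExteriorAlgebra K M), l ∈ par K M (p i) → Q (sg P i c ⊗ₜ[K] l))
    {v : TS P k ⊗[K] ExteriorAlgebra K M} (hv : v ∈ env K M P k p) : Q v := by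
  refine AddSubmonoid.closure_induction (motive := fun v _ => Q v) ?_ ?_ ?_ hv
  · rintro x ⟨i, c, l, hl, rfl⟩
    exact hp i c l hl
  · have := hp 0 0 0 (zero_mem _)
    rwa [TensorProduct.tmul_zero] at this
  · intro x y _ _ hx hy
    exact hadd x y hx hy

theorem env_ind3 {Q : TS P k ⊗[K] ExteriorAlgebra K M → TS P k ⊗[K] ExteriorAlgebra K M →
      TS P k ⊗[K] ExteriorAlgebra K M → Prop}
    (h1 : ∀ u u' v w, Q u v w → Q u' v w → Q (u + u') v w)
    (h2 : ∀ u v v' w, Q u v w → Q u v' w → Q u (v + v') w)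
    (h3 : ∀ u v w w', Q u v w → Q u v w' → Q u v (w + w'))
    (hp : ∀ i (c : k) (l : ExteriorAlgebra K M), l ∈ par K M (p i) →
      ∀ i' (c' : k) (l' : ExteriorAlgebra K M), l' ∈ par K M (p i') →
      ∀ i'' (c'' : k) (l'' : ExteriorAlgebra K M), l'' ∈ par K M (p i'') →
        Q (sg P i c ⊗ₜ[K] l) (sg P i' c' ⊗ₜ[K] l') (sg P i'' c'' ⊗ₜ[K] l''))
    {u v w : TS P k ⊗[K] ExteriorAlgebra K M} (hu : u ∈ env K M P k p) (hv : v ∈ env K M P k p)
    (hw : w ∈ env K M P k p) : Q u v w := by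
  refine env_ind (p := p) (Q := fun u => Q u v w) (fun a b ha hb => h1 a b v w ha hb)
    (fun i c l hl => ?_) hu
  refine env_ind (p := p) (Q := fun v => Q _ v w) (fun a b ha hb => h2 _ a b w ha hb)
    (fun i' c' l' hl' => ?_) hv
  exact env_ind (p := p) (Q := fun w => Q _ _ w) (fun a b ha hb => h3 _ _ a b ha hb)
    (fun i'' c'' l'' hl'' => hp i c l hl i' c' l' hl' i'' c'' l'' hl'') hw

variable (hT : GoodTab P p k)
include hT

lemma vec_mem_env (L : List (ℕ × ℤ)) (q : ZMod 2) (hL : ∀ t ∈ L, p t.1 = q) (c : k)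
    {l : ExteriorAlgebra K M} (hl : l ∈ par K M q) :
    (c • vec P k L) ⊗ₜ[K] l ∈ env K M P k p := by
  induction L with
  | nil => rw [vec_nil, smul_zero, TensorProduct.zero_tmul]; exact zero_mem _
  | cons t L ih =>
    rw [vec_cons, smul_add, smul_sg, TensorProduct.add_tmul]
    refine add_mem (sg_mem_env _ _ ?_) (ih fun s hs => hL s (List.mem_cons_of_mem _ hs))
    rw [hL t List.mem_cons_self]
    exact hl

lemma env_mul {u v : TS P k ⊗[K] ExteriorAlgebra K M} (hu : u ∈ env K M P k p)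
    (hv : v ∈ env K M P k p) : u * v ∈ env K M P k p := by
  refine env_ind (p := p) (Q := fun u => u * v ∈ env K M P k p) (fun a b ha hb => ?_)
    (fun i c l hl => ?_) hu
  · rw [add_mul]; exact add_mem ha hb
  refine env_ind (p := p) (Q := fun v => _ * v ∈ env K M P k p) (fun a b ha hb => ?_)
    (fun i' c' l' hl' => ?_) hv
  · rw [mul_add]; exact add_mem ha hb
  rw [mul_tmul, sg_mul]
  exact vec_mem_env hT _ _ (hT.gr i i') _ (par_mul hl hl')

omit hT in
lemma env_smul (a : K) {u : TS P k ⊗[K] ExteriorAlgebra K M} (hu : u ∈ env K M P k p) :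
    a • u ∈ env K M P k p := by
  refine env_ind (p := p) (Q := fun u => a • u ∈ env K M P k p) (fun u v ha hb => ?_)
    (fun i c l hl => ?_) hu
  · rw [smul_add]; exact add_mem ha hb
  · rw [← TensorProduct.tmul_smul]
    exact sg_mem_env _ _ (Submodule.smul_mem _ a hl)

omit hT in
lemma env_neg {u : TS P k ⊗[K] ExteriorAlgebra K M} (hu : u ∈ env K M P k p) :
    -u ∈ env K M P k p := by
  have := env_smul (-1 : K) hu
  rwa [neg_one_smul] at this

lemma env_a12 {u v w : TS P k ⊗[K] ExteriorAlgebra K M} (hu : u ∈ env K M P k p)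
    (hv : v ∈ env K M P k p) (hw : w ∈ env K M P k p) : as u v w + as v u w = 0 := by
  refine env_ind3 (p := p) (Q := fun (u v w : TS P k ⊗[K] ExteriorAlgebra K M) => as u v w + as v u w = 0) ?_ ?_ ?_ ?_ hu hv hw
  iterate 3
    intros
    rename_i h h'
    simp only [as_add₁, as_add₂, as_add₃] at *
    linear_combination (norm := abel) h + h'
  intro i c l hl i' c' l' hl' i'' c'' l'' _
  rw [as_tmul, as_tmul, par_comm hl hl', smul_mul_assoc, TensorProduct.tmul_smul,
    TensorProduct.smul_tmul', ← TensorProduct.add_tmul, as_sg, as_sg i', mul_comm c' c,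
    smul_comm (sgn (p i) (p i')), ← smul_add, hT.a12, smul_zero, TensorProduct.zero_tmul]

lemma env_a23 {u v w : TS P k ⊗[K] ExteriorAlgebra K M} (hu : u ∈ env K M P k p)
    (hv : v ∈ env K M P k p) (hw : w ∈ env K M P k p) : as u v w + as u w v = 0 := by
  refine env_ind3 (p := p) (Q := fun (u v w : TS P k ⊗[K] ExteriorAlgebra K M) => as u v w + as u w v = 0) ?_ ?_ ?_ ?_ hu hv hw
  iterate 3
    intros
    rename_i h h'
    simp only [as_add₁, as_add₂, as_add₃] at *
    linear_combination (norm := abel) h + h'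
  intro i c l hl i' c' l' hl' i'' c'' l'' hl''
  rw [as_tmul, as_tmul, mul_assoc l l'' l', par_comm hl' hl'', mul_smul_comm, ← mul_assoc,
    TensorProduct.tmul_smul,
    TensorProduct.smul_tmul', ← TensorProduct.add_tmul, as_sg, as_sg i i'' i',
    show c * c'' * c' = c * c' * c'' by ring,
    smul_comm (sgn (p i') (p i'')), ← smul_add, hT.a23, smul_zero, TensorProduct.zero_tmul]

lemma env_aab {u w : TS P k ⊗[K] ExteriorAlgebra K M} (hu : u ∈ env K M P k p)
    (hw : w ∈ env K M P k p) : as u u w = 0 := by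
  have h : u ∈ env K M P k p ∧ as u u w = 0 := by
    refine env_ind (p := p) (Q := fun u : TS P k ⊗[K] ExteriorAlgebra K M =>
      u ∈ env K M P k p ∧ as u u w = 0) (fun a b ha hb => ?_)
      (fun i c l hl => ⟨sg_mem_env _ _ hl, ?_⟩) hu
    · refine ⟨add_mem ha.1 hb.1, ?_⟩
      have h := env_a12 (K := K) (M := M) hT ha.1 hb.1 hw
      rw [as_add₁, as_add₂, as_add₂, ha.2, hb.2, zero_add, add_zero, h]
    · refine env_ind (p := p) (Q := fun w => as (sg P i c ⊗ₜ[K] l) (sg P i c ⊗ₜ[K] l) w = 0)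
        (fun a b ha hb => ?_) (fun j d m _ => ?_) hw
      · rw [as_add₃, ha, hb, add_zero]
      · rw [as_tmul]
        rcases zmod2_cases (p i) with h0 | h1
        · rw [as_sg, hT.e12 i j h0, smul_zero, TensorProduct.zero_tmul]
        · rw [h1] at hl
          rw [odd_sq hl, zero_mul, TensorProduct.tmul_zero]
  exact h.2

lemma env_baa {u w : TS P k ⊗[K] ExteriorAlgebra K M} (hu : u ∈ env K M P k p)
    (hw : w ∈ env K M P k p) : as w u u = 0 := by
  have h : u ∈ env K M P k p ∧ as w u u = 0 := by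
    refine env_ind (p := p) (Q := fun u : TS P k ⊗[K] ExteriorAlgebra K M =>
      u ∈ env K M P k p ∧ as w u u = 0) (fun a b ha hb => ?_)
      (fun i c l hl => ⟨sg_mem_env _ _ hl, ?_⟩) hu
    · refine ⟨add_mem ha.1 hb.1, ?_⟩
      have h := env_a23 (K := K) (M := M) hT hw ha.1 hb.1
      rw [as_add₂, as_add₃, as_add₃, ha.2, hb.2, zero_add, add_zero, h]
    · refine env_ind (p := p) (Q := fun w => as w (sg P i c ⊗ₜ[K] l) (sg P i c ⊗ₜ[K] l) = 0)
        (fun a b ha hb => ?_) (fun j d m _ => ?_) hw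
      · rw [as_add₁, ha, hb, add_zero]
      · rw [as_tmul]
        rcases zmod2_cases (p i) with h0 | h1
        · rw [as_sg, hT.e23 i j h0, smul_zero, TensorProduct.zero_tmul]
        · rw [h1] at hl
          rw [mul_assoc, odd_sq hl, mul_zero, TensorProduct.tmul_zero]
  exact h.2

/-- the Grassmann envelope as a subalgebra -/
noncomputable def envAlg : NonUnitalSubalgebra K (TS P k ⊗[K] ExteriorAlgebra K M) where
  carrier := env K M P k p
  add_mem' := add_mem
  zero_mem' := zero_mem _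
  mul_mem' := env_mul hT
  smul_mem' a _ hu := env_smul a hu

theorem envAlg_alt : IsAlt (envAlg (K := K) (M := M) hT) := by
  intro a b
  constructor
  · have h := env_aab hT a.2 b.2
    apply Subtype.ext
    exact h
  · have h := env_baa hT a.2 b.2
    apply Subtype.ext
    exact h

end

end Pool.Agent.Zk64.Alt
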