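import Pool.Agent.Zk64.Alt.Elem

/-!
# A multiple of the element of degree 7 is nuclear in the free alternative algebra
-/

set_option autoImplicit false
set_option linter.unusedSectionVars false

open TensorProduct

namespace Pool.Agent.Zk64.Alt

section

variable {K : Type*} [CommRing K] {A : Type*} [NonUnitalNonAssocRing A] [Module K A]
  [IsScalarTower K A A] [SMulCommClass K A A]

variable (K) in
/-- `K[1/6]` -/
abbrev L6 : Type _ := Localization.Away (6 : K)

variable (K) in
/-- the inverse of `6` -/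
noncomputable def inv6 : L6 K := IsLocalization.Away.invSelf (6 : K)

lemma six_inv6 : (6 : L6 K) * inv6 K = 1 := by
  have := IsLocalization.Away.mul_invSelf (S := L6 K) (6 : K)
  rwa [map_ofNat] at this

/-- division by 6 on `A ⊗ K[1/6]` -/
noncomputable def div6 : A ⊗[K] L6 K →ₗ[K] A ⊗[K] L6 K :=
  TensorProduct.map LinearMap.id (LinearMap.mulLeft K (inv6 K))

lemma div6_spec (b : A ⊗[K] L6 K) : (6 : ℤ) • div6 b = b := by
  induction b using TensorProduct.induction_on with
  | zero => simp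
  | tmul a l =>
    have h : (6 : K) • (inv6 K * l) = l := by
      rw [Algebra.smul_def, map_ofNat, ← mul_assoc, six_inv6, one_mul]
    change (6 : ℤ) • (a ⊗ₜ[K] (inv6 K * l)) = a ⊗ₜ[K] l
    have h6 : ∀ v : A ⊗[K] L6 K, (6 : ℤ) • v = (6 : K) • v := by
      intro v
      rw [← Int.cast_smul_eq_zsmul K, Int.cast_ofNat]
    rw [h6, ← TensorProduct.tmul_smul, h]
  | add u v hu hv => rw [map_add, smul_add, hu, hv]

/-- `(u, y, w)` is a 6-power torsion element for `u` of degree 7 -/
theorem n0_torsion (hA : IsAlt A) (a : Fin 7 → A) (y w : A) :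
    ∃ k : ℕ, (6 : K) ^ k • as (n0 K a) y w = 0 := by
  let ι : A →ₗ[K] A ⊗[K] L6 K := (TensorProduct.mk K A (L6 K)).flip 1
  have hι : ∀ a b, ι (a * b) = ι a * ι b := by
    intro a b
    change (a * b) ⊗ₜ[K] (1 : L6 K) = (a ⊗ₜ[K] 1) * (b ⊗ₜ[K] 1)
    rw [mul_tmul, mul_one]
  have hA' : IsAlt (A ⊗[K] L6 K) := isAlt_tensor hA
  have h2 : ∀ v : (A ⊗[K] L6 K) ⊗[K] ExteriorAlgebra K (Fin 7 → K), (2 : ℤ) • v = 0 → v = 0 := by
    refine tensor_tf ((3 : ℤ) • div6) 2 (fun b => ?_)
    rw [LinearMap.smul_apply, smul_smul]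
    exact div6_spec b
  have h3 : ∀ v : (A ⊗[K] L6 K) ⊗[K] ExteriorAlgebra K (Fin 7 → K), (3 : ℤ) • v = 0 → v = 0 := by
    refine tensor_tf ((2 : ℤ) • div6) 3 (fun b => ?_)
    rw [LinearMap.smul_apply, smul_smul]
    exact div6_spec b
  have h := n0_nuc hA' h2 h3 (fun i => ι (a i)) (ι y) (ι w)
  rw [n0_map ι hι] at h
  have h' : ι (as (n0 K a) y w) = 0 := by
    rw [← h]
    simp only [as, map_sub, hι]
  have h'' : TensorProduct.mk K (L6 K) A 1 (as (n0 K a) y w) = 0 := by
    have := congrArg (TensorProduct.comm K A (L6 K)) h'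
    rw [map_zero] at this
    exact this
  obtain ⟨⟨s, hs0⟩, hs⟩ := (IsLocalizedModule.eq_zero_iff (Submonoid.powers (6 : K))
    (TensorProduct.mk K (L6 K) A 1)).mp h''
  obtain ⟨k, rfl⟩ := hs0
  exact ⟨k, hs⟩

end

section

variable (K : Type*) [CommRing K]

/-- the generators of the free alternative algebra of countable rank -/
noncomputable def gx (i : ℕ) : FreeAlt K ℕ := FreeAlt.of K ℕ i

/-- the element of degree 7 in the free alternative algebra -/
noncomputable def u7 : FreeAlt K ℕ := n0 K (fun i : Fin 7 => gx K i)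

lemma u7_eq : u7 K = n0 K (fun i : Fin 7 => gx K i) := rfl

lemma as_smul_left {K A : Type*} [CommRing K] [NonUnitalNonAssocRing A] [Module K A]
    [IsScalarTower K A A] (c : K) (u y w : A) : as (c • u) y w = c • as u y w := by
  simp only [as, smul_mul_assoc, smul_sub]

lemma cm_smul_left {K A : Type*} [CommRing K] [NonUnitalNonAssocRing A] [Module K A]
    [IsScalarTower K A A] [SMulCommClass K A A] (c : K) (u y : A) : cm (c • u) y = c • cm u y := by
  simp only [cm, smul_mul_assoc, mul_smul_comm, smul_sub]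

lemma map_as {K A B : Type*} [CommRing K] [NonUnitalNonAssocRing A] [Module K A]
    [NonUnitalNonAssocRing B] [Module K B] (F : A →ₗ[K] B) (hF : ∀ x y, F (x * y) = F x * F y)
    (a b c : A) : F (as a b c) = as (F a) (F b) (F c) := by
  simp only [as, map_sub, hF]

/-- substitution in the free algebra -/
lemma exists_subst (y w : FreeAlt K ℕ) : ∃ F : FreeAlt K ℕ →ₗ[K] FreeAlt K ℕ,
    (∀ a b, F (a * b) = F a * F b) ∧ F (u7 K) = u7 K ∧ F (gx K 7) = y ∧ F (gx K 8) = w := by
  obtain ⟨F, hF, hx⟩ := FreeAlt.exists_hom (K := K) (X := ℕ) (B := FreeAlt K ℕ) FreeAlt.isAlt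
    (fun i => if i = 7 then y else if i = 8 then w else gx K i)
  refine ⟨F, hF, ?_, ?_, ?_⟩
  · rw [u7_eq, ← n0_map F hF]
    congr 1
    funext i
    have h0 : F (gx K i) = _ := hx i
    have : (i : ℕ) < 7 := i.2
    rw [h0, if_neg (by omega), if_neg (by omega)]
  · have h0 : F (gx K 7) = _ := hx 7
    rw [h0, if_pos rfl]
  · have h0 : F (gx K 8) = _ := hx 8
    rw [h0, if_neg (by omega), if_pos rfl]

lemma exists_k : ∃ k : ℕ, (6 : K) ^ k • as (u7 K) (gx K 7) (gx K 8) = 0 := by
  obtain ⟨k, hk⟩ := n0_torsion (K := K) FreeAlt.isAlt (fun i : Fin 7 => gx K i) (gx K 7) (gx K 8)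
  rw [← u7_eq] at hk
  exact ⟨k, hk⟩

theorem exists_nuc : ∃ k : ℕ, Nuc ((6 : K) ^ k • u7 K) := by
  obtain ⟨k, hk⟩ := exists_k K
  refine ⟨k, fun y w => ?_⟩
  obtain ⟨F, hF, h1, h7, h8⟩ := exists_subst K y w
  have h2 := congrArg F hk
  rw [map_smul, map_zero, map_as F hF, h1, h7, h8] at h2
  rw [as_smul_left, h2]

lemma u7_mem : u7 K ∈ associatorIdeal K (FreeAlt K ℕ) := by
  rw [u7_eq]
  exact n0_mem _

/-- criterion: it suffices that all `c [u, x]` with `c` a product of powers of `2` and `3` are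
nonzero -/
theorem not_separated_of_ne (h : ∀ k : ℕ, ((2 : K) * 6 ^ k) • cm (u7 K) (gx K 7) ≠ 0) :
    ¬ Separated K (FreeAlt K ℕ) := by
  obtain ⟨k, hk⟩ := exists_nuc K
  refine not_separated_of (a := gx K 7) FreeAlt.isAlt hk
    ((associatorIdeal K _).smul_mem _ (u7_mem K)) ?_
  intro h0
  rw [cm_smul_left, two_smul, ← two_smul K, smul_smul] at h0
  exact h k h0

end

end Pool.Agent.Zk64.Alt
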