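import Pool.Agent.Zk64.Alt.Env
import Pool.Agent.Zk64.Alt.Generic

/-!
# Evaluation of the element of degree 7 in Grassmann envelopes
-/

set_option autoImplicit false
set_option linter.unusedSectionVars false

open TensorProduct

namespace Pool.Agent.Zk64.Alt

section powers

variable {R : Type*} [Ring R]

lemma add_pow_sq {a b : R} (h : Commute a b) (hb : b * b = 0) (n : ℕ) :
    (a + b) ^ (n + 1) = a ^ (n + 1) + (n + 1) • (a ^ n * b) := by
  induction n with
  | zero => simp
  | succ n ih =>
    rw [pow_succ, ih, mul_add, add_mul, add_mul, ← pow_succ, smul_mul_assoc, smul_mul_assoc,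
      mul_assoc (a ^ n) b b, hb, mul_zero, smul_zero, add_zero, mul_assoc (a ^ n) b a, ← h.eq,
      ← mul_assoc (a ^ n) a b, ← pow_succ, add_smul (n + 1) 1, one_smul]
    abel

/-- powers of sums of commuting elements of square zero -/
lemma sum_pow (l : List R) (hc : ∀ a ∈ l, ∀ b ∈ l, Commute a b) (hs : ∀ a ∈ l, a * a = 0) :
    l.sum ^ l.length = (l.length.factorial : ℕ) • l.prod ∧ l.sum ^ (l.length + 1) = 0 := by
  induction l with
  | nil => simp
  | cons b t ih =>
    obtain ⟨h1, h2⟩ := ih (fun a ha c hc' => hc a (List.mem_cons_of_mem _ ha) c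
      (List.mem_cons_of_mem _ hc')) (fun a ha => hs a (List.mem_cons_of_mem _ ha))
    have hb : b * b = 0 := hs b List.mem_cons_self
    have hct : Commute t.sum b := by
      have : ∀ a ∈ t, Commute a b := fun a ha => hc a (List.mem_cons_of_mem _ ha) b List.mem_cons_self
      clear h1 h2 hc hs ih
      induction t with
      | nil => simp
      | cons c t ih =>
        rw [List.sum_cons]
        exact (this c List.mem_cons_self).add_left
          (ih fun a ha => this a (List.mem_cons_of_mem _ ha))
    have hpt : Commute t.prod b := by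
      have : ∀ a ∈ t, Commute a b := fun a ha => hc a (List.mem_cons_of_mem _ ha) b List.mem_cons_self
      clear h1 h2 hc hs ih hct
      induction t with
      | nil => simp
      | cons c t ih =>
        rw [List.prod_cons]
        exact (this c List.mem_cons_self).mul_left
          (ih fun a ha => this a (List.mem_cons_of_mem _ ha))
    rw [List.sum_cons, List.length_cons, List.prod_cons, add_comm b]
    constructor
    · rw [add_pow_sq hct hb, h2, zero_add, h1, smul_mul_assoc, smul_smul, Nat.factorial_succ,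
        hpt.eq]
    · rw [add_pow_sq hct hb, pow_succ, h2, zero_mul, zero_add, zero_mul, smul_zero]

lemma pow_large {x : R} {n m : ℕ} (h : x ^ (n + 1) = 0) (hm : n < m) : x ^ m = 0 := by
  obtain ⟨d, rfl⟩ := Nat.exists_eq_add_of_lt hm
  rw [show n + d + 1 = (n + 1) + d by omega, pow_add, h, zero_mul]

end powers

section

variable {K : Type*} [CommRing K] {A : Type*} [NonUnitalNonAssocRing A] [Module K A]
  [IsScalarTower K A A] [SMulCommClass K A A] {G : Type*} [Ring G] [Algebra K G]

lemma jo_even {L0 L1 : Submodule K G} (hS : SC L0 L1) {u v : A ⊗[K] G} (hu : u ∈ Hom A L0) :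
    jo u v = u * v + v * u := by
  refine ind2 (P := fun u v => jo u v = u * v + v * u) ?_ ?_ ?_ hu (mem_top v)
  iterate 2
    intros
    rename_i h h'
    simp only [jo_add_left, jo_add_right, add_mul, mul_add] at *
    linear_combination (norm := abel) h + h'
  intro a l b m hl _
  simp only [jo_tmul, mul_tmul, hS.c0 l hl m, jd, TensorProduct.add_tmul]

/-- `u` in terms of the multiplication -/
def ring_u {R : Type*} [NonUnitalNonAssocRing R] (x : R) : R :=
  ((x * x * x - x * (x * x)) * x + x * (x * x * x - x * (x * x))) * (x * x * x - x * (x * x)) +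
  (x * x * x - x * (x * x)) * ((x * x * x - x * (x * x)) * x + x * (x * x * x - x * (x * x)))

lemma uel_odd {L0 L1 : Submodule K G} (hS : SC L0 L1) {x : A ⊗[K] G} (hx : x ∈ Hom A L1) :
    uel x = ring_u x := by
  have hs := mul_oo hS hx hx
  have hq := br_eo hS hs hx
  have hr := br_oo hS hq hx
  rw [uel, jo_even hS hr, br_self hS hq hx, br_even hS hs, ring_u]

end

section

variable {K : Type*} [CommRing K] {S : Type*} [NonUnitalNonAssocRing S] [Module K S]
  {A : Type*} [NonUnitalNonAssocRing A] [Module K A] [IsScalarTower K A A] [SMulCommClass K A A]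
  {L' L : Type*} [Ring L'] [Algebra K L'] [Ring L] [Algebra K L]
  (b : S →ₗ[K] L' →ₗ[K] A)

/-- `s ↦ s ⊗ h` -/
noncomputable def Em (h : L' ⊗[K] L) : S →ₗ[K] A ⊗[K] L where
  toFun s := TensorProduct.map (b s) LinearMap.id h
  map_add' s t := by rw [map_add, TensorProduct.map_add_left]; rfl
  map_smul' c s := by rw [map_smul, TensorProduct.map_smul_left]; rfl

lemma Em_tmul (s : S) (l : L') (m : L) : Em b (l ⊗ₜ[K] m) s = b s l ⊗ₜ[K] m := rfl

lemma Em_add (h h' : L' ⊗[K] L) (s : S) : Em b (h + h') s = Em b h s + Em b h' s :=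
  map_add (TensorProduct.map (b s) LinearMap.id) h h'

lemma Em_zero (s : S) : Em b (0 : L' ⊗[K] L) s = 0 :=
  map_zero (TensorProduct.map (b s) LinearMap.id)

lemma Em_mul (hb : ∀ s t l l', b s l * b t l' = b (s * t) (l * l')) (h h' : L' ⊗[K] L) (s t : S) :
    Em b h s * Em b h' t = Em b (h * h') (s * t) := by
  induction h using TensorProduct.induction_on with
  | zero => rw [Em_zero, zero_mul, zero_mul, Em_zero]
  | tmul l m =>
    induction h' using TensorProduct.induction_on with
    | zero => rw [Em_zero, mul_zero, mul_zero, Em_zero]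
    | tmul l' m' =>
      rw [Em_tmul, Em_tmul, Algebra.TensorProduct.tmul_mul_tmul, mul_tmul, Em_tmul, hb]
    | add u v hu hv => rw [Em_add, mul_add, hu, hv, mul_add, Em_add]
  | add u v hu hv => rw [Em_add, add_mul, hu, hv, add_mul, Em_add]

/-- contraction of the second factor -/
noncomputable def tc (φ : L →ₗ[K] K) : L' ⊗[K] L →ₗ[K] L' :=
  (TensorProduct.rid K L').toLinearMap ∘ₗ TensorProduct.map LinearMap.id φ

lemma tc_tmul (φ : L →ₗ[K] K) (l : L') (m : L) : tc φ (l ⊗ₜ[K] m) = φ m • l := by
  simp [tc]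

lemma coef_Em (φ : L →ₗ[K] K) (h : L' ⊗[K] L) (s : S) : coef φ (Em b h s) = b s (tc φ h) := by
  induction h using TensorProduct.induction_on with
  | zero => rw [Em_zero, map_zero, map_zero, map_zero]
  | tmul l m => rw [Em_tmul, coef_tmul, tc_tmul, map_smul]
  | add u v hu hv => rw [Em_add, map_add, hu, hv, map_add, map_add]

end

section

variable {K : Type*} [CommRing K] {P : ℕ → ℕ → List (ℕ × ℤ)} {k : Type*} [CommRing k] [Algebra K k]
  {A : Type*} [NonUnitalNonAssocRing A] [Module K A] [IsScalarTower K A A] [SMulCommClass K A A]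
  {L' L : Type*} [Ring L'] [Algebra K L'] [Ring L] [Algebra K L]
  (b : TS P k →ₗ[K] L' →ₗ[K] A)

/-- the graded embedding -/
noncomputable def Th (W : ℕ → L' ⊗[K] L) : TS P k →ₗ[K] A ⊗[K] L :=
  Finsupp.lsum K (fun m => (Em b (W m)) ∘ₗ (Finsupp.lsingle m : k →ₗ[K] (ℕ →₀ k)))

lemma Th_sg (W : ℕ → L' ⊗[K] L) (m : ℕ) (c : k) :
    Th b W (sg P m c) = Em b (W m) (sg P m c) := by
  change (Finsupp.lsum K (fun m => (Em b (W m)) ∘ₗ (Finsupp.lsingle m : k →ₗ[K] (ℕ →₀ k))))
    (Finsupp.single m c) = _
  rw [Finsupp.lsum_single]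
  rfl

lemma Th_vec (W : ℕ → L' ⊗[K] L) (L₀ : List (ℕ × ℤ)) (w : L' ⊗[K] L) (c : k)
    (h : ∀ t ∈ L₀, W t.1 = w) : Th b W (c • vec P k L₀) = Em b w (c • vec P k L₀) := by
  induction L₀ with
  | nil => rw [vec_nil, smul_zero, map_zero, map_zero]
  | cons t T ih =>
    rw [vec_cons, smul_add, map_add, map_add, ih fun s hs => h s (List.mem_cons_of_mem _ hs),
      smul_sg, Th_sg, h t List.mem_cons_self]

lemma Th_mul (hb : ∀ s t l l', b s l * b t l' = b (s * t) (l * l'))
    (W : ℕ → L' ⊗[K] L) (hW : ∀ i j, ∀ t ∈ P i j, W t.1 = W i * W j) (x y : TS P k) :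
    Th b W (x * y) = Th b W x * Th b W y := by
  induction x using ts_ind with
  | h0 => rw [zero_mul, map_zero, zero_mul]
  | ha a a' h h' => rw [add_mul, map_add, h, h', map_add, add_mul]
  | hs i c =>
    induction y using ts_ind with
    | h0 => rw [mul_zero, map_zero, mul_zero]
    | ha a a' h h' => rw [mul_add, map_add, h, h', map_add, mul_add]
    | hs j d =>
      rw [sg_mul, Th_vec b W _ (W i * W j) _ (hW i j), Th_sg, Th_sg, Em_mul b hb, sg_mul]

lemma Th_ring_u (hb : ∀ s t l l', b s l * b t l' = b (s * t) (l * l'))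
    (W : ℕ → L' ⊗[K] L) (hW : ∀ i j, ∀ t ∈ P i j, W t.1 = W i * W j) (a : TS P k) :
    ring_u (Th b W a) = Th b W (ring_u a) := by
  simp only [ring_u, map_add, map_sub, Th_mul b hb W hW]

end

end Pool.Agent.Zk64.Alt
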