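import Pool.Agent.Zk64.Alt.Check

/-!
# Fast finite checks for table algebras
-/

set_option autoImplicit false
set_option linter.unusedSectionVars false

open TensorProduct

namespace Pool.Agent.Zk64.Alt

/-- search trees -/
inductive Tr (α : Type) : Type
  | lf (a : α) : Tr α
  | nd (m : ℕ) (l r : Tr α) : Tr α

/-- lookup -/
noncomputable def Tr.get {α : Type} (t : Tr α) : ℕ → α :=
  Tr.rec (motive := fun _ => ℕ → α) (fun a _ => a)
    (fun m _ _ ihl ihr n => cond (Nat.ble m n) (ihr n) (ihl n)) t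

/-- the table -/
noncomputable def ntab (T : Tr (Tr (List (ℕ × ℕ)))) (N i j : ℕ) : List (ℕ × ℕ) :=
  cond (Nat.ble N i) [] (cond (Nat.ble N j) [] ((T.get i).get j))

/-- cast of a list -/
def nz (L : List (ℕ × ℕ)) : List (ℕ × ℤ) := L.map fun t => (t.1, (t.2 : ℤ))

/-- the integral table -/
noncomputable def ztab (T : Tr (Tr (List (ℕ × ℕ)))) (N i j : ℕ) : List (ℕ × ℤ) := nz (ntab T N i j)

/-- code of a list -/
noncomputable def cd (L : List (ℕ × ℕ)) : ℕ :=
  List.rec (motive := fun _ => ℕ) 0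
    (fun t _ ih => Nat.add (Nat.mul t.2 (Nat.pow 4294967296 t.1)) ih) L

/-- weight of a list -/
noncomputable def ws (L : List (ℕ × ℕ)) : ℕ :=
  List.rec (motive := fun _ => ℕ) 0 (fun t _ ih => Nat.add t.2 ih) L

/-- total coefficient of `m` -/
def cnt (m : ℕ) : List (ℕ × ℕ) → ℕ
  | [] => 0
  | t :: L => (if t.1 = m then t.2 else 0) + cnt m L

@[simp] lemma cd_nil : cd [] = 0 := rfl
@[simp] lemma ws_nil : ws [] = 0 := rfl
lemma cd_cons (t : ℕ × ℕ) (L : List (ℕ × ℕ)) : cd (t :: L) = t.2 * 4294967296 ^ t.1 + cd L := rfl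
lemma ws_cons (t : ℕ × ℕ) (L : List (ℕ × ℕ)) : ws (t :: L) = t.2 + ws L := rfl

lemma cd_append (L M : List (ℕ × ℕ)) : cd (L ++ M) = cd L + cd M := by
  induction L with
  | nil => simp
  | cons t L ih => rw [List.cons_append, cd_cons, cd_cons, ih, add_assoc]

lemma ws_append (L M : List (ℕ × ℕ)) : ws (L ++ M) = ws L + ws M := by
  induction L with
  | nil => simp
  | cons t L ih => rw [List.cons_append, ws_cons, ws_cons, ih, add_assoc]

lemma cnt_append (m : ℕ) (L M : List (ℕ × ℕ)) : cnt m (L ++ M) = cnt m L + cnt m M := by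
  induction L with
  | nil => simp [cnt]
  | cons t L ih => rw [List.cons_append, cnt, cnt, ih, add_assoc]

/-- scaling -/
def nscale (c : ℕ) (L : List (ℕ × ℕ)) : List (ℕ × ℕ) := L.map fun t => (t.1, c * t.2)

lemma cd_nscale (c : ℕ) (L : List (ℕ × ℕ)) : cd (nscale c L) = c * cd L := by
  induction L with
  | nil => simp [nscale]
  | cons t L ih =>
    have : nscale c (t :: L) = (t.1, c * t.2) :: nscale c L := rfl
    rw [this, cd_cons, cd_cons, ih]; ring

lemma ws_nscale (c : ℕ) (L : List (ℕ × ℕ)) : ws (nscale c L) = c * ws L := by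
  induction L with
  | nil => simp [nscale]
  | cons t L ih =>
    have : nscale c (t :: L) = (t.1, c * t.2) :: nscale c L := rfl
    rw [this, ws_cons, ws_cons, ih]; ring

/-- `L e_j` -/
def nmull (P : ℕ → ℕ → List (ℕ × ℕ)) (L : List (ℕ × ℕ)) (j : ℕ) : List (ℕ × ℕ) :=
  L.flatMap fun t => nscale t.2 (P t.1 j)

/-- `e_i L` -/
def nmulr (P : ℕ → ℕ → List (ℕ × ℕ)) (i : ℕ) (L : List (ℕ × ℕ)) : List (ℕ × ℕ) :=
  L.flatMap fun t => nscale t.2 (P i t.1)

/-- code of `L e_j` -/
noncomputable def cl (P : ℕ → ℕ → List (ℕ × ℕ)) (L : List (ℕ × ℕ)) (j : ℕ) : ℕ :=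
  List.rec (motive := fun _ => ℕ) 0 (fun t _ ih => Nat.add (Nat.mul t.2 (cd (P t.1 j))) ih) L

/-- code of `e_i L` -/
noncomputable def cr (P : ℕ → ℕ → List (ℕ × ℕ)) (i : ℕ) (L : List (ℕ × ℕ)) : ℕ :=
  List.rec (motive := fun _ => ℕ) 0 (fun t _ ih => Nat.add (Nat.mul t.2 (cd (P i t.1))) ih) L

section

variable {P : ℕ → ℕ → List (ℕ × ℕ)}

lemma nmull_cons (t : ℕ × ℕ) (L : List (ℕ × ℕ)) (j : ℕ) :
    nmull P (t :: L) j = nscale t.2 (P t.1 j) ++ nmull P L j := rfl

lemma nmulr_cons (t : ℕ × ℕ) (L : List (ℕ × ℕ)) (i : ℕ) :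
    nmulr P i (t :: L) = nscale t.2 (P i t.1) ++ nmulr P i L := rfl

lemma cl_eq (L : List (ℕ × ℕ)) (j : ℕ) : cd (nmull P L j) = cl P L j := by
  induction L with
  | nil => rfl
  | cons t L ih =>
    rw [nmull_cons, cd_append, cd_nscale, ih]
    rfl

lemma cr_eq (i : ℕ) (L : List (ℕ × ℕ)) : cd (nmulr P i L) = cr P i L := by
  induction L with
  | nil => rfl
  | cons t L ih =>
    rw [nmulr_cons, cd_append, cd_nscale, ih]
    rfl

lemma ws_nmull {S : ℕ} (hS : ∀ i j, ws (P i j) ≤ S) (L : List (ℕ × ℕ)) (j : ℕ) :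
    ws (nmull P L j) ≤ ws L * S := by
  induction L with
  | nil => exact Nat.zero_le _
  | cons t L ih =>
    rw [nmull_cons, ws_append, ws_nscale, ws_cons, add_mul]
    exact add_le_add (Nat.mul_le_mul_left _ (hS _ _)) ih

lemma ws_nmulr {S : ℕ} (hS : ∀ i j, ws (P i j) ≤ S) (i : ℕ) (L : List (ℕ × ℕ)) :
    ws (nmulr P i L) ≤ ws L * S := by
  induction L with
  | nil => exact Nat.zero_le _
  | cons t L ih =>
    rw [nmulr_cons, ws_append, ws_nscale, ws_cons, add_mul]
    exact add_le_add (Nat.mul_le_mul_left _ (hS _ _)) ih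

end

/-- code of an associator of basis elements (modulo `q`) -/
noncomputable def asn (P : ℕ → ℕ → List (ℕ × ℕ)) (q i j l : ℕ) : ℕ :=
  Nat.add (cl P (P i j) l) (Nat.mul (Nat.sub q 1) (cr P i (P j l)))

/-- an associator of basis elements (modulo `q`) -/
def asl (P : ℕ → ℕ → List (ℕ × ℕ)) (q i j l : ℕ) : List (ℕ × ℕ) :=
  nmull P (P i j) l ++ nscale (q - 1) (nmulr P i (P j l))

lemma asn_eq (P : ℕ → ℕ → List (ℕ × ℕ)) (q i j l : ℕ) : cd (asl P q i j l) = asn P q i j l := by
  rw [asl, cd_append, cd_nscale, cl_eq, cr_eq]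
  rfl

lemma ws_asl {P : ℕ → ℕ → List (ℕ × ℕ)} {S : ℕ} (hS : ∀ i j, ws (P i j) ≤ S) (q i j l : ℕ)
    (hq : 1 ≤ q) : ws (asl P q i j l) ≤ q * (S * S) := by
  rw [asl, ws_append, ws_nscale]
  have h1 : ws (nmull P (P i j) l) ≤ S * S :=
    (ws_nmull hS _ _).trans (Nat.mul_le_mul_right _ (hS _ _))
  have h2 : ws (nmulr P i (P j l)) ≤ S * S :=
    (ws_nmulr hS _ _).trans (Nat.mul_le_mul_right _ (hS _ _))
  obtain ⟨r, rfl⟩ := Nat.exists_eq_add_of_le hq
  rw [add_tsub_cancel_left, add_mul, one_mul]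
  exact add_le_add h1 (Nat.mul_le_mul_left _ h2)

/-- all digits are divisible by `q` -/
noncomputable def dchk (q d : ℕ) : ℕ → Bool :=
  Nat.rec (motive := fun _ => ℕ → Bool) (fun X => Nat.beq (Nat.mod (Nat.mod X 4294967296) q) 0)
    (fun d ih X => cond (Nat.beq X 0) true
      (cond (ih (Nat.mod X (Nat.pow 4294967296 (Nat.pow 2 d))))
        (ih (Nat.div X (Nat.pow 4294967296 (Nat.pow 2 d)))) false)) d

lemma dchk_zero (q X : ℕ) : dchk q 0 X = Nat.beq ((X % 4294967296) % q) 0 := rfl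

lemma dchk_succ (q d X : ℕ) : dchk q (d + 1) X = cond (Nat.beq X 0) true
      (cond (dchk q d (X % (4294967296 ^ 2 ^ d))) (dchk q d (X / (4294967296 ^ 2 ^ d))) false) := rfl

lemma dchk_spec (q : ℕ) (d : ℕ) : ∀ X, dchk q d X = true → ∀ m, m < 2 ^ d →
    q ∣ (X / 4294967296 ^ m) % 4294967296 := by
  induction d with
  | zero =>
    intro X h m hm
    have hm0 : m = 0 := by simpa using hm
    rw [hm0, pow_zero, Nat.div_one]
    rw [dchk_zero] at h
    exact Nat.dvd_of_mod_eq_zero (Nat.eq_of_beq_eq_true h)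
  | succ d ih =>
    intro X h m hm
    rw [dchk_succ] at h
    cases h0 : Nat.beq X 0 with
    | true =>
      rw [Nat.eq_of_beq_eq_true h0, Nat.zero_div, Nat.zero_mod]
      exact dvd_zero q
    | false =>
      rw [h0, cond_false] at h
      cases h1 : dchk q d (X % (4294967296 ^ 2 ^ d)) with
      | false => rw [h1] at h; exact absurd h (by simp)
      | true =>
        rw [h1, cond_true] at h
        rcases lt_or_ge m (2 ^ d) with hm' | hm'
        · have h2 := ih _ h1 m hm'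
          obtain ⟨r, hr⟩ := Nat.exists_eq_add_of_lt hm'
          rw [hr, show m + r + 1 = m + (r + 1) by omega, pow_add, Nat.mod_mul_right_div_self,
            Nat.mod_mod_of_dvd _ (dvd_pow_self _ (Nat.succ_ne_zero r))] at h2
          exact h2
        · obtain ⟨r, rfl⟩ := Nat.exists_eq_add_of_le hm'
          have h2 := ih _ h r (by rw [pow_succ] at hm; omega)
          rwa [Nat.div_div_eq_div_mul, ← pow_add] at h2

/-- decomposition of the code -/
lemma cd_split (m : ℕ) (L : List (ℕ × ℕ)) : ∃ lo hi : ℕ,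
    cd L = lo + 4294967296 ^ m * (cnt m L + 4294967296 * hi) ∧
      lo * 4294967296 ≤ ws L * 4294967296 ^ m := by
  induction L with
  | nil => exact ⟨0, 0, by simp [cnt], by simp⟩
  | cons t L ih =>
    obtain ⟨lo, hi, h1, h2⟩ := ih
    rw [cd_cons, ws_cons, cnt, h1]
    rcases lt_trichotomy t.1 m with h | h | h
    · refine ⟨t.2 * 4294967296 ^ t.1 + lo, hi, ?_, ?_⟩
      · rw [if_neg (by omega), zero_add, add_assoc]
      · have h3 : 4294967296 ^ t.1 * 4294967296 ≤ 4294967296 ^ m := by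
          rw [← pow_succ]
          exact Nat.pow_le_pow_right (by norm_num) h
        have h4 := Nat.mul_le_mul_left t.2 h3
        calc (t.2 * 4294967296 ^ t.1 + lo) * 4294967296
            = t.2 * (4294967296 ^ t.1 * 4294967296) + lo * 4294967296 := by ring
          _ ≤ t.2 * 4294967296 ^ m + ws L * 4294967296 ^ m := add_le_add h4 h2
          _ = _ := by ring
    · refine ⟨lo, hi, ?_, ?_⟩
      · rw [if_pos h, h]; ring
      · exact h2.trans (Nat.mul_le_mul_right _ (Nat.le_add_left _ _))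
    · obtain ⟨r, hr⟩ := Nat.exists_eq_add_of_lt h
      refine ⟨lo, hi + t.2 * 4294967296 ^ r, ?_, ?_⟩
      · rw [if_neg (by omega), hr, show m + r + 1 = m + (r + 1) by omega, pow_add, pow_succ]
        ring
      · exact h2.trans (Nat.mul_le_mul_right _ (Nat.le_add_left _ _))

lemma cnt_le (m : ℕ) (L : List (ℕ × ℕ)) : cnt m L ≤ ws L := by
  induction L with
  | nil => exact le_refl _
  | cons t L ih =>
    rw [cnt, ws_cons]
    split_ifs
    · exact Nat.add_le_add_left ih _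
    · omega

lemma cnt_eq {L : List (ℕ × ℕ)} (h : ws L < 4294967296) (m : ℕ) :
    (cd L / 4294967296 ^ m) % 4294967296 = cnt m L := by
  obtain ⟨lo, hi, h1, h2⟩ := cd_split m L
  have hp : 0 < 4294967296 ^ m := by positivity
  have h3 : lo < 4294967296 ^ m := by
    by_contra hc
    rw [not_lt] at hc
    have h4 : 4294967296 ^ m * 4294967296 ≤ ws L * 4294967296 ^ m :=
      (Nat.mul_le_mul_right _ hc).trans h2
    have h5 : ws L * 4294967296 ^ m < 4294967296 * 4294967296 ^ m :=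
      Nat.mul_lt_mul_of_pos_right h hp
    rw [mul_comm] at h4
    exact absurd (h4.trans_lt h5) (lt_irrefl _)
  rw [h1, Nat.add_mul_div_left _ _ hp, Nat.div_eq_of_lt h3, zero_add, Nat.add_mul_mod_self_left]
  exact Nat.mod_eq_of_lt ((cnt_le m L).trans_lt h)

section

variable {P : ℕ → ℕ → List (ℕ × ℤ)} {k : Type*} [CommRing k]

lemma nz_append (L M : List (ℕ × ℕ)) : nz (L ++ M) = nz L ++ nz M := List.map_append

lemma nz_cons (t : ℕ × ℕ) (L : List (ℕ × ℕ)) : nz (t :: L) = (t.1, (t.2 : ℤ)) :: nz L := rfl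

lemma vec_nscale (c : ℕ) (L : List (ℕ × ℕ)) :
    vec P k (nz (nscale c L)) = (c : k) • vec P k (nz L) := by
  induction L with
  | nil => simp [nscale, nz]
  | cons t L ih =>
    have : nscale c (t :: L) = (t.1, c * t.2) :: nscale c L := rfl
    rw [this, nz_cons, nz_cons, vec_cons, vec_cons, ih, smul_add, smul_sg]
    push_cast
    rfl

lemma vec_zero_of_cnt {q : ℕ} (hq : (q : k) = 0) {L : List (ℕ × ℕ)} (h : ∀ m, q ∣ cnt m L) :
    vec P k (nz L) = 0 := by
  have h1 : ∀ L : List (ℕ × ℕ), ∀ m, (show ℕ →₀ k from vec P k (nz L)) m = ((cnt m L : ℕ) : k) := by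
    intro L m
    induction L with
    | nil => simp [cnt, nz]; rfl
    | cons t L ih =>
      rw [nz_cons, vec_cons]
      change (Finsupp.single t.1 (((t.2 : ℕ) : ℤ) : k) + (show ℕ →₀ k from vec P k (nz L))) m = _
      rw [Finsupp.add_apply, ih, Finsupp.single_apply, cnt]
      split_ifs <;> push_cast <;> rfl
  refine Finsupp.ext fun m => ?_
  refine (h1 L m).trans ?_
  obtain ⟨r, hr⟩ := h m
  rw [hr, Nat.cast_mul, hq, zero_mul]
  rfl

/-- the code of `L` is small and has digits divisible by `q` -/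
noncomputable def zchk (q X : ℕ) : Bool :=
  cond (dchk q 7 X) (Nat.beq (Nat.div X (Nat.pow 4294967296 128)) 0) false

lemma vec_zchk {q : ℕ} (hq : (q : k) = 0) {L : List (ℕ × ℕ)} (hL : ws L < 4294967296)
    (h : zchk q (cd L) = true) : vec P k (nz L) = 0 := by
  refine vec_zero_of_cnt hq fun m => ?_
  rw [zchk] at h
  cases h1 : dchk q 7 (cd L) with
  | false => rw [h1] at h; exact absurd h (by simp)
  | true =>
    rw [h1, cond_true] at h
    have h2 : cd L / 4294967296 ^ 128 = 0 := Nat.eq_of_beq_eq_true h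
    rw [← cnt_eq hL m]
    rcases lt_or_ge m 128 with hm | hm
    · exact dchk_spec q 7 _ h1 m hm
    · obtain ⟨r, rfl⟩ := Nat.exists_eq_add_of_le hm
      rw [pow_add, ← Nat.div_div_eq_div_mul, h2, Nat.zero_div, Nat.zero_mod]
      exact dvd_zero q

end

section

variable {Q : ℕ → ℕ → List (ℕ × ℕ)} {k : Type*} [CommRing k]

lemma vec_nmull (L : List (ℕ × ℕ)) (j : ℕ) :
    vec (fun i j => nz (Q i j)) k (nz (nmull Q L j)) =
      vec (fun i j => nz (Q i j)) k (nz L) * sg (fun i j => nz (Q i j)) j 1 := by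
  induction L with
  | nil => exact (zero_mul _).symm
  | cons t L ih =>
    rw [nmull_cons, nz_append, vec_append, ih, nz_cons, vec_cons, add_mul, sg_mul, vec_nscale,
      mul_one, Int.cast_natCast]

lemma vec_nmulr (i : ℕ) (L : List (ℕ × ℕ)) :
    vec (fun i j => nz (Q i j)) k (nz (nmulr Q i L)) =
      sg (fun i j => nz (Q i j)) i 1 * vec (fun i j => nz (Q i j)) k (nz L) := by
  induction L with
  | nil => exact (mul_zero _).symm
  | cons t L ih =>
    rw [nmulr_cons, nz_append, vec_append, ih, nz_cons, vec_cons, mul_add, sg_mul, vec_nscale,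
      one_mul, Int.cast_natCast]

lemma vec_asl {q : ℕ} (hq : (q : k) = 0) (hq1 : 1 ≤ q) (i j l : ℕ) :
    vec (fun i j => nz (Q i j)) k (nz (asl Q q i j l)) =
      as (sg (fun i j => nz (Q i j)) i (1 : k)) (sg (fun i j => nz (Q i j)) j 1)
        (sg (fun i j => nz (Q i j)) l 1) := by
  rw [asl, nz_append, vec_append, vec_nscale, vec_nmull, vec_nmulr, as, sg_mul, sg_mul, mul_one,
    one_smul, one_smul]
  rw [Nat.cast_sub hq1, hq, Nat.cast_one, zero_sub, neg_smul, one_smul, ← sub_eq_add_neg]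

end

/-- the sign modulo `q` -/
noncomputable def sq (q m n : ℕ) : ℕ :=
  cond (Nat.beq (Nat.mod m 2) 1) (cond (Nat.beq (Nat.mod n 2) 1) (Nat.sub q 1) 1) 1

lemma sq_eq {k : Type*} [CommRing k] {q : ℕ} (hq : (q : k) = 0) (hq1 : 1 ≤ q) (m n : ℕ) :
    ((sq q m n : ℕ) : k) = (nsg m n : k) := by
  have h1 : ((q - 1 : ℕ) : k) = ((-1 : ℤ) : k) := by
    rw [Nat.cast_sub hq1, hq]; norm_num
  have h2 : sq q m n = if m % 2 = 1 ∧ n % 2 = 1 then q - 1 else 1 := by
    change cond (Nat.beq (m % 2) 1) (cond (Nat.beq (n % 2) 1) (q - 1) 1) 1 = _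
    rcases Nat.mod_two_eq_zero_or_one m with h | h <;>
    rcases Nat.mod_two_eq_zero_or_one n with h' | h' <;> rw [h, h'] <;> rfl
  rw [h2, nsg]
  split_ifs
  · exact h1
  · push_cast; rfl

/-- folding a check over a range -/
noncomputable def allr (N : ℕ) (f : ℕ → Bool) : Bool :=
  Nat.rec (motive := fun _ => Bool) true (fun i ih => cond (f i) ih false) N

lemma allr_spec {N : ℕ} {f : ℕ → Bool} (h : allr N f = true) {i : ℕ} (hi : i < N) : f i = true := by
  induction N with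
  | zero => exact absurd hi (Nat.not_lt_zero i)
  | succ N ih =>
    have h1 : allr (N + 1) f = cond (f N) (allr N f) false := rfl
    rw [h1] at h
    cases h2 : f N with
    | false => rw [h2] at h; exact absurd h (by simp)
    | true =>
      rw [h2, cond_true] at h
      rcases Nat.lt_succ_iff_lt_or_eq.mp hi with h3 | h3
      · exact ih h h3
      · rw [h3]; exact h2

/-- checking all elements of a list -/
noncomputable def alll (L : List (ℕ × ℕ)) (f : ℕ × ℕ → Bool) : Bool :=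
  List.rec (motive := fun _ => Bool) true (fun t _ ih => cond (f t) ih false) L

lemma alll_spec {L : List (ℕ × ℕ)} {f : ℕ × ℕ → Bool} (h : alll L f = true) :
    ∀ t ∈ L, f t = true := by
  induction L with
  | nil => intro t ht; exact absurd ht List.not_mem_nil
  | cons s L ih =>
    have h1 : alll (s :: L) f = cond (f s) (alll L f) false := rfl
    rw [h1] at h
    cases h2 : f s with
    | false => rw [h2] at h; exact absurd h (by simp)
    | true =>
      rw [h2, cond_true] at h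
      intro t ht
      rcases List.mem_cons.mp ht with rfl | ht
      · exact h2
      · exact ih h t ht

/-- pair check -/
noncomputable def pchk (Q : ℕ → ℕ → List (ℕ × ℕ)) (a b : ℕ → ℕ) (S ax bx i j : ℕ) : Bool :=
  cond (Nat.ble (ws (Q i j)) S)
    (alll (Q i j) fun t =>
      cond (Nat.beq (a t.1) (Nat.add (a i) (a j)))
        (cond (Nat.beq (b t.1) (Nat.add (b i) (b j)))
          (cond (Nat.ble (a t.1) ax) (Nat.ble (b t.1) bx) false) false) false) false

/-- triple check -/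
noncomputable def tchk (Q : ℕ → ℕ → List (ℕ × ℕ)) (a b : ℕ → ℕ) (q i j l : ℕ) : Bool :=
  cond (zchk q (Nat.add (asn Q q i j l)
      (Nat.mul (sq q (Nat.add (a i) (b i)) (Nat.add (a j) (b j))) (asn Q q j i l))))
    (zchk q (Nat.add (asn Q q i j l)
      (Nat.mul (sq q (Nat.add (a j) (b j)) (Nat.add (a l) (b l))) (asn Q q i l j)))) false

/-- check for equal even indices -/
noncomputable def echk (Q : ℕ → ℕ → List (ℕ × ℕ)) (a b : ℕ → ℕ) (q i l : ℕ) : Bool :=
  cond (Nat.beq (Nat.mod (Nat.add (a i) (b i)) 2) 1) true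
    (cond (zchk q (asn Q q i i l)) (zchk q (asn Q q l i i)) false)

/-- row check -/
noncomputable def rchk (Q : ℕ → ℕ → List (ℕ × ℕ)) (a b : ℕ → ℕ) (q S N ax bx i : ℕ) : Bool :=
  allr N fun j => cond (pchk Q a b S ax bx i j)
    (cond (echk Q a b q i j)
      (cond (Nat.ble (Nat.add (a i) (a j)) ax)
        (cond (Nat.ble (Nat.add (b i) (b j)) bx)
          (allr N fun l =>
            cond (Nat.ble (Nat.add (Nat.add (a i) (a j)) (a l)) ax)
              (cond (Nat.ble (Nat.add (Nat.add (b i) (b j)) (b l)) bx)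
                (tchk Q a b q i j l) true) true) true) true) false) false

/-- the hypothesis resulting from the checks -/
structure FChk (Q : ℕ → ℕ → List (ℕ × ℕ)) (a b : ℕ → ℕ) (q S N ax bx : ℕ) : Prop where
  hq : 1 ≤ q
  hB : q * (S * S) + q * (q * (S * S)) < 4294967296
  nil : ∀ i j, N ≤ i ∨ N ≤ j → Q i j = []
  row : ∀ i, i < N → rchk Q a b q S N ax bx i = true

section

variable {Q : ℕ → ℕ → List (ℕ × ℕ)} {a b : ℕ → ℕ} {q S N ax bx : ℕ}

lemma cond_true_left {x y : Bool} (h : cond x y false = true) : x = true ∧ y = true := by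
  cases x <;> simp_all

lemma cond_true_right {x y : Bool} (h : cond x y true = true) (hx : x = true) : y = true := by
  cases x <;> simp_all

variable (h : FChk Q a b q S N ax bx)
include h

lemma FChk.pair (i j : ℕ) : pchk Q a b S ax bx i j = true := by
  by_cases hn : i < N ∧ j < N
  · have h1 := allr_spec (h.row i hn.1) hn.2
    exact (cond_true_left h1).1
  · rw [pchk, h.nil i j (by omega)]
    exact Nat.ble_eq.mpr (Nat.zero_le S) ▸ rfl

lemma FChk.ws_le (i j : ℕ) : ws (Q i j) ≤ S :=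
  Nat.le_of_ble_eq_true (cond_true_left (h.pair i j)).1

lemma FChk.deg (i j : ℕ) : ∀ t ∈ Q i j, a t.1 = a i + a j ∧ b t.1 = b i + b j ∧ a t.1 ≤ ax ∧
    b t.1 ≤ bx := by
  intro t ht
  have h1 := alll_spec (cond_true_left (h.pair i j)).2 t ht
  obtain ⟨h2, h1⟩ := cond_true_left h1
  obtain ⟨h3, h1⟩ := cond_true_left h1
  obtain ⟨h4, h1⟩ := cond_true_left h1
  exact ⟨Nat.eq_of_beq_eq_true h2, Nat.eq_of_beq_eq_true h3, Nat.le_of_ble_eq_true h4,
    Nat.le_of_ble_eq_true h1⟩

lemma FChk.large {i j : ℕ} (hij : ax < a i + a j ∨ bx < b i + b j) : Q i j = [] := by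
  cases hL : Q i j with
  | nil => rfl
  | cons t L =>
    have h1 := h.deg i j t (by rw [hL]; exact List.mem_cons_self)
    omega

lemma FChk.nmull_nil {L : List (ℕ × ℕ)} {l : ℕ} (hL : ∀ t ∈ L, Q t.1 l = []) :
    nmull Q L l = [] := by
  clear h
  induction L with
  | nil => rfl
  | cons t L ih =>
    rw [nmull_cons, hL t List.mem_cons_self, ih fun s hs => hL s (List.mem_cons_of_mem _ hs)]
    rfl

lemma FChk.nmulr_nil {L : List (ℕ × ℕ)} {i : ℕ} (hL : ∀ t ∈ L, Q i t.1 = []) :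
    nmulr Q i L = [] := by
  clear h
  induction L with
  | nil => rfl
  | cons t L ih =>
    rw [nmulr_cons, hL t List.mem_cons_self, ih fun s hs => hL s (List.mem_cons_of_mem _ hs)]
    rfl

lemma FChk.asl_nil {i j l : ℕ} (hd : ax < a i + a j + a l ∨ bx < b i + b j + b l) :
    asl Q q i j l = [] := by
  rw [asl, h.nmull_nil, h.nmulr_nil]
  · rfl
  · intro t ht
    have h1 := h.deg j l t ht
    exact h.large (by omega)
  · intro t ht
    have h1 := h.deg i j t ht
    exact h.large (by omega)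

lemma FChk.asl_nil' {i j l : ℕ} (hd : N ≤ i ∨ N ≤ j ∨ N ≤ l) : asl Q q i j l = [] := by
  rcases hd with hd | hd | hd
  · rw [asl, h.nil i j (Or.inl hd), h.nmulr_nil fun t _ => h.nil i _ (Or.inl hd)]
    rfl
  · rw [asl, h.nil i j (Or.inr hd), h.nil j l (Or.inl hd)]
    rfl
  · rw [asl, h.nil j l (Or.inr hd), h.nmull_nil fun t _ => h.nil _ l (Or.inr hd)]
    rfl

lemma FChk.triple {i j l : ℕ} (hi : i < N) (hj : j < N) (hl : l < N)
    (hd : a i + a j + a l ≤ ax ∧ b i + b j + b l ≤ bx) : tchk Q a b q i j l = true := by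
  have h1 := allr_spec (h.row i hi) hj
  have h2 := (cond_true_left (cond_true_left h1).2).2
  have h3 := cond_true_right h2 (Nat.ble_eq.mpr (show a i + a j ≤ ax by omega))
  have h4 := cond_true_right h3 (Nat.ble_eq.mpr (show b i + b j ≤ bx by omega))
  have h5 := allr_spec h4 hl
  have h6 := cond_true_right h5 (Nat.ble_eq.mpr (show a i + a j + a l ≤ ax by omega))
  exact cond_true_right h6 (Nat.ble_eq.mpr (show b i + b j + b l ≤ bx by omega))

lemma FChk.even {i l : ℕ} (hi : i < N) (hl : l < N) : echk Q a b q i l = true :=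
  (cond_true_left (cond_true_left (allr_spec (h.row i hi) hl)).2).1

variable {k : Type*} [CommRing k] (hq : (q : k) = 0)
include hq

lemma FChk.sq_le (m n : ℕ) : sq q m n ≤ q := by
  have hq1 := h.hq
  have h2 : sq q m n = if m % 2 = 1 ∧ n % 2 = 1 then q - 1 else 1 := by
    change cond (Nat.beq (m % 2) 1) (cond (Nat.beq (n % 2) 1) (q - 1) 1) 1 = _
    rcases Nat.mod_two_eq_zero_or_one m with h | h <;>
    rcases Nat.mod_two_eq_zero_or_one n with h' | h' <;> rw [h, h'] <;> rfl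
  rw [h2]
  split_ifs <;> omega

lemma FChk.bound (i j l i' j' l' m n : ℕ) :
    ws (asl Q q i j l ++ nscale (sq q m n) (asl Q q i' j' l')) < 4294967296 := by
  rw [ws_append, ws_nscale]
  refine lt_of_le_of_lt ?_ h.hB
  exact add_le_add (ws_asl h.ws_le _ _ _ _ h.hq)
    (Nat.mul_le_mul (h.sq_le hq m n) (ws_asl h.ws_le _ _ _ _ h.hq))

lemma FChk.rel {i j l i' j' l' m n : ℕ}
    (hz : zchk q (asn Q q i j l + sq q m n * asn Q q i' j' l') = true) :
    as (sg (fun i j => nz (Q i j)) i (1 : k)) (sg (fun i j => nz (Q i j)) j 1)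
        (sg (fun i j => nz (Q i j)) l 1) +
      nsg m n • as (sg (fun i j => nz (Q i j)) i' (1 : k)) (sg (fun i j => nz (Q i j)) j' 1)
        (sg (fun i j => nz (Q i j)) l' 1) = 0 := by
  rw [← vec_asl hq h.hq, ← vec_asl hq h.hq, ← Int.cast_smul_eq_zsmul k, ← sq_eq hq h.hq,
    ← vec_nscale, ← vec_append, ← nz_append]
  refine vec_zchk hq (h.bound hq _ _ _ _ _ _ _ _) ?_
  rwa [cd_append, cd_nscale, asn_eq, asn_eq]

lemma FChk.rel0 {i j l : ℕ} (hz : zchk q (asn Q q i j l) = true) :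
    as (sg (fun i j => nz (Q i j)) i (1 : k)) (sg (fun i j => nz (Q i j)) j 1)
        (sg (fun i j => nz (Q i j)) l 1) = 0 := by
  rw [← vec_asl hq h.hq]
  refine vec_zchk hq ?_ ?_
  · refine lt_of_le_of_lt (ws_asl h.ws_le _ _ _ _ h.hq) ?_
    have := h.hB
    omega
  · rwa [asn_eq]

lemma FChk.as_zero {i j l : ℕ} (hz : asl Q q i j l = []) :
    as (sg (fun i j => nz (Q i j)) i (1 : k)) (sg (fun i j => nz (Q i j)) j 1)
        (sg (fun i j => nz (Q i j)) l 1) = 0 := by
  rw [← vec_asl hq h.hq, hz]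
  rfl

lemma FChk.case (i j l : ℕ) :
    (i < N ∧ j < N ∧ l < N ∧ a i + a j + a l ≤ ax ∧ b i + b j + b l ≤ bx) ∨
      (asl Q q i j l = [] ∧ asl Q q j i l = [] ∧ asl Q q i l j = []) := by
  by_cases h1 : i < N ∧ j < N ∧ l < N
  · by_cases h2 : a i + a j + a l ≤ ax ∧ b i + b j + b l ≤ bx
    · exact Or.inl ⟨h1.1, h1.2.1, h1.2.2, h2.1, h2.2⟩
    · exact Or.inr ⟨h.asl_nil (by omega), h.asl_nil (by omega), h.asl_nil (by omega)⟩
  · exact Or.inr ⟨h.asl_nil' (by omega), h.asl_nil' (by omega), h.asl_nil' (by omega)⟩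

/-- the table algebra is super alternative -/
theorem FChk.goodTab :
    GoodTab (fun i j => nz (Q i j)) (fun i => ((a i + b i : ℕ) : ZMod 2)) k where
  gr i j t ht := by
    obtain ⟨s, hs, rfl⟩ := List.mem_map.mp ht
    obtain ⟨h1, h2, -, -⟩ := h.deg i j s hs
    change ((a s.1 + b s.1 : ℕ) : ZMod 2) = _
    rw [h1, h2]
    push_cast
    ring
  a12 i j l := by
    rcases h.case hq i j l with hc | hc
    · have h1 := h.triple hc.1 hc.2.1 hc.2.2.1 hc.2.2.2
      rw [nsg_eq]
      exact h.rel hq (cond_true_left h1).1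
    · rw [h.as_zero hq hc.1, h.as_zero hq hc.2.1, smul_zero, add_zero]
  a23 i j l := by
    rcases h.case hq i j l with hc | hc
    · have h1 := h.triple hc.1 hc.2.1 hc.2.2.1 hc.2.2.2
      rw [nsg_eq]
      exact h.rel hq (cond_true_left h1).2
    · rw [h.as_zero hq hc.1, h.as_zero hq hc.2.2, smul_zero, add_zero]
  e12 i l hi := by
    by_cases hn : i < N ∧ l < N
    · have h1 := h.even hn.1 hn.2
      have h2 := even_of_cast hi
      have h3 : Nat.beq (Nat.mod (Nat.add (a i) (b i)) 2) 1 = false := by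
        change Nat.beq ((a i + b i) % 2) 1 = false
        rw [h2]; rfl
      rw [echk, h3] at h1
      exact h.rel0 hq (cond_true_left h1).1
    · exact h.as_zero hq (h.asl_nil' (by omega))
  e23 i l hi := by
    by_cases hn : i < N ∧ l < N
    · have h1 := h.even hn.1 hn.2
      have h2 := even_of_cast hi
      have h3 : Nat.beq (Nat.mod (Nat.add (a i) (b i)) 2) 1 = false := by
        change Nat.beq ((a i + b i) % 2) 1 = false
        rw [h2]; rfl
      rw [echk, h3] at h1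
      exact h.rel0 hq (cond_true_left h1).2
    · exact h.as_zero hq (h.asl_nil' (by omega))

end

/-- the checks for the example -/
def chkG (P : ℕ → ℕ → List (ℕ × ℤ)) (a b : ℕ → ℕ) (q : ℤ) (n : ℕ) (U : List (ℕ × ℤ))
    (g7 top : ℕ) (γ : ℤ) : Bool :=
  decide (n ≤ 7) && (a 0 == 1) && (b 0 == 0) &&
  (n == 7 || ((a 1 == 0) && (b 1 == 1))) && ((a g7 + b g7) % 2 == 1) &&
  lzero q (lsub (lj P (lj P (ls3 P (gl n)) (gl n)) (ls3 P (gl n))) U) &&
  (U.all fun t => decide ((a t.1 = n ∧ b t.1 = 7 - n) ∨ (n < a t.1 ∨ 7 - n < b t.1))) &&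
  lzero q (lsub (lmul P (U.filter fun t => a t.1 = n ∧ b t.1 = 7 - n) [(g7, 1)] ++
    lmul P [(g7, 1)] (U.filter fun t => a t.1 = n ∧ b t.1 = 7 - n)) [(top, γ)])

theorem exData_of_chkG {k : Type*} [CommRing k] {P : ℕ → ℕ → List (ℕ × ℤ)} {a b : ℕ → ℕ}
    {q : ℤ} (hq : (q : k) = 0)
    (hab : ∀ i j, ∀ t ∈ P i j, a t.1 = a i + a j ∧ b t.1 = b i + b j)
    {n : ℕ} {U : List (ℕ × ℤ)} {g7 top : ℕ} {γ : ℤ} (h' : chkG P a b q n U g7 top γ = true) :
    ExData P k (fun i => ((a i + b i : ℕ) : ZMod 2)) n a b U g7 top γ := by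
  simp only [chkG, Bool.and_eq_true, Bool.or_eq_true, beq_iff_eq] at h'
  obtain ⟨⟨⟨⟨⟨⟨⟨h1, h2⟩, h3⟩, h4⟩, h5⟩, h6⟩, h7⟩, h8⟩ := h'
  have hn : n ≤ 7 := of_decide_eq_true h1
  have e6 := vec_lzero (P := P) hq h6
  have e8 := vec_lzero (P := P) hq h8
  rw [vec_lsub, sub_eq_zero] at e6 e8
  refine ⟨hn, hab, h2, h3, fun hn => ?_, fun hn => ?_, ?_, fun hn => ?_, ?_, ?_, ?_, ?_⟩
  · rcases h4 with h4 | h4
    · omega
    · exact h4.1
  · rcases h4 with h4 | h4
    · omega
    · exact h4.2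
  · rw [h2, h3]; rfl
  · rcases h4 with h4 | h4
    · omega
    · rw [h4.1, h4.2]; rfl
  · exact cast_one_of_mod h5
  · rw [ring_u_vec, e6]
  · intro t ht
    rw [List.all_eq_true] at h7
    exact of_decide_eq_true (h7 t ht)
  · rw [vec_append, vec_lmul, vec_lmul] at e8
    have h9 : vec P k [(g7, (1 : ℤ))] = sg P g7 (1 : k) := by
      rw [vec_cons, vec_nil, add_zero, Int.cast_one]
    have h10 : vec P k [(top, γ)] = sg P top (γ : k) := by
      rw [vec_cons, vec_nil, add_zero]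
    rw [h9, h10] at e8
    exact e8

/-- the criterion with fast finite checks -/
theorem not_separated_of_fchk {K k : Type*} [CommRing K] [CommRing k] [Algebra K k]
    {Q : ℕ → ℕ → List (ℕ × ℕ)} {a b : ℕ → ℕ} {q S N ax bx : ℕ}
    (hq : (q : k) = 0) (h : FChk Q a b q S N ax bx)
    {n : ℕ} {U : List (ℕ × ℤ)} {g7 top : ℕ} {γ : ℤ}
    (h' : chkG (fun i j => nz (Q i j)) a b q n U g7 top γ = true)
    (hc : ∀ m : ℕ, (2 : k) * 6 ^ m * (n.factorial * (7 - n).factorial : ℕ) * γ ≠ 0) :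
    ¬ Separated K (FreeAlt K ℕ) := by
  refine not_separated_of_table (h.goodTab hq) (exData_of_chkG (q := (q : ℤ)) ?_ ?_ h') hc
  · rw [Int.cast_natCast, hq]
  · intro i j t ht
    obtain ⟨s, hs, rfl⟩ := List.mem_map.mp ht
    obtain ⟨h1, h2, -, -⟩ := h.deg i j s hs
    exact ⟨h1, h2⟩

end Pool.Agent.Zk64.Alt
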