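import Pool.Agent.Zk64.Alt.Super

/-!
# The super identities of `A ⊗ G`
-/

set_option autoImplicit false
set_option linter.unusedSectionVars false
set_option linter.unusedSimpArgs false

open TensorProduct

namespace Pool.Agent.Zk64.Alt

variable {K : Type*} [CommRing K] {A : Type*} [NonUnitalNonAssocRing A] [Module K A]
  [IsScalarTower K A A] [SMulCommClass K A A] {G : Type*} [Ring G] [Algebra K G]

lemma lc_neg {m l : G} (h : m * l = -(l * m)) (z : G) : m * (l * z) = -(l * (m * z)) := by
  rw [← mul_assoc, h, neg_mul, mul_assoc]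

lemma lc_pos {m l : G} (h : m * l = l * m) (z : G) : m * (l * z) = l * (m * z) := by
  rw [← mul_assoc, h, mul_assoc]

lemma two_tmul {Z : A} (h : (2 : ℤ) • Z = 0) (w : G) : (2 : ℤ) • (Z ⊗ₜ[K] w) = 0 := by
  rw [two_smul, ← TensorProduct.add_tmul, ← two_smul ℤ, h, TensorProduct.zero_tmul]

variable {L0 L1 : Submodule K G} (hS : SC L0 L1) (hA : IsAlt A)
  (h2 : ∀ v : A ⊗[K] G, (2 : ℤ) • v = 0 → v = 0)

section
include hS

lemma br_comm_e {u v : A ⊗[K] G} (hu : u ∈ Hom A L0) : br v u = - br u v := by
  refine ind2 (P := fun u v => br v u = - br u v) ?_ ?_ ?_ hu (mem_top v)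
  iterate 2
    intros
    rename_i h h'
    simp only [br_add_left, br_add_right] at *
    linear_combination (norm := abel) h + h'
  intro a l b m hl _
  simp only [br_tmul, hS.c0 l hl m, cm, TensorProduct.sub_tmul]
  abel

lemma br_comm_oo {u v : A ⊗[K] G} (hu : u ∈ Hom A L1) (hv : v ∈ Hom A L1) : br v u = br u v := by
  refine ind2 (P := fun u v => br v u = br u v) ?_ ?_ ?_ hu hv
  iterate 2
    intros
    rename_i h h'
    simp only [br_add_left, br_add_right] at *
    linear_combination (norm := abel) h + h'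
  intro a l b m hl hm
  simp only [br_tmul, hS.c1 l hl m hm, cm, TensorProduct.sub_tmul, TensorProduct.tmul_neg]
  abel

lemma jo_comm_e {u v : A ⊗[K] G} (hu : u ∈ Hom A L0) : jo v u = jo u v := by
  refine ind2 (P := fun u v => jo v u = jo u v) ?_ ?_ ?_ hu (mem_top v)
  iterate 2
    intros
    rename_i h h'
    simp only [jo_add_left, jo_add_right] at *
    linear_combination (norm := abel) h + h'
  intro a l b m hl _
  simp only [jo_tmul, hS.c0 l hl m, jd, TensorProduct.add_tmul]
  abel

lemma br_self {u v : A ⊗[K] G} (hu : u ∈ Hom A L1) (hv : v ∈ Hom A L1) :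
    br u v = u * v + v * u := by
  refine ind2 (P := fun u v => br u v = u * v + v * u) ?_ ?_ ?_ hu hv
  iterate 2
    intros
    rename_i h h'
    simp only [br_add_left, br_add_right, add_mul, mul_add] at *
    linear_combination (norm := abel) h + h'
  intro a l b m hl hm
  simp only [br_tmul, mul_tmul, hS.c1 l hl m hm, cm, TensorProduct.sub_tmul, TensorProduct.tmul_neg]
  abel

lemma br_mem {L L' M : Submodule K G} (h : ∀ a ∈ L, ∀ b ∈ L', a * b ∈ M) {u v : A ⊗[K] G}
    (hu : u ∈ Hom A L) (hv : v ∈ Hom A L') : br u v ∈ Hom A M := by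
  refine ind2 (P := fun u v => br u v ∈ Hom A M) ?_ ?_ ?_ hu hv
  iterate 2
    intros
    rename_i h h'
    simp only [br_add_left, br_add_right] at *
    exact add_mem h h'
  intro a l b m hl hm
  rw [br_tmul]
  exact tmul_mem _ (h l hl m hm)

lemma br_ee {u v : A ⊗[K] G} (hu : u ∈ Hom A L0) (hv : v ∈ Hom A L0) : br u v ∈ Hom A L0 :=
  br_mem hS hS.m00 hu hv
lemma br_eo {u v : A ⊗[K] G} (hu : u ∈ Hom A L0) (hv : v ∈ Hom A L1) : br u v ∈ Hom A L1 :=
  br_mem hS hS.m01 hu hv
lemma br_oe {u v : A ⊗[K] G} (hu : u ∈ Hom A L1) (hv : v ∈ Hom A L0) : br u v ∈ Hom A L1 :=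
  br_mem hS hS.m10 hu hv
lemma br_oo {u v : A ⊗[K] G} (hu : u ∈ Hom A L1) (hv : v ∈ Hom A L1) : br u v ∈ Hom A L0 :=
  br_mem hS hS.m11 hu hv

lemma mul_oo {u v : A ⊗[K] G} (hu : u ∈ Hom A L1) (hv : v ∈ Hom A L1) : u * v ∈ Hom A L0 := by
  refine ind2 (P := fun u v => u * v ∈ Hom A L0) ?_ ?_ ?_ hu hv
  iterate 2
    intros
    rename_i h h'
    simp only [add_mul, mul_add] at *
    exact add_mem h h'
  intro a l b m hl hm
  rw [mul_tmul]
  exact tmul_mem _ (hS.m11 l hl m hm)

end

section
include hS hA

lemma z_tmul {Z : A} (h : Z = 0) (w : G) : Z ⊗ₜ[K] w = 0 := by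
  rw [h, TensorProduct.zero_tmul]

lemma jac_e {y p q : A ⊗[K] G} (hp : p ∈ Hom A L0) :
    (6 : ℤ) • as y p q - br (br y p) q + br (br y q) p + br y (br p q) = 0 := by
  refine ind3 (P := fun y p q => (6 : ℤ) • as y p q - br (br y p) q + br (br y q) p
    + br y (br p q) = 0) ?_ ?_ ?_ ?_ (mem_top y) hp (mem_top q)
  iterate 3
    intros
    rename_i h h'
    simp only [br_add_left, br_add_right, as_add₁, as_add₂, as_add₃] at *
    linear_combination (norm := abel) h + h'
  intro d k a l b m _ hl _
  have h1 := hS.c0 l hl m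
  have key := congrArg (fun z => z ⊗ₜ[K] (k * (l * m))) (jac hA d a b)
  simp only [TensorProduct.add_tmul, TensorProduct.sub_tmul, ← TensorProduct.smul_tmul'] at key
  simp only [br_tmul, as_tmul, mul_assoc, h1, lc_pos h1]
  linear_combination (norm := abel) key

lemma jac_e' {y p q : A ⊗[K] G} (hq : q ∈ Hom A L0) :
    (6 : ℤ) • as y p q - br (br y p) q + br (br y q) p + br y (br p q) = 0 := by
  refine ind3 (P := fun y p q => (6 : ℤ) • as y p q - br (br y p) q + br (br y q) p
    + br y (br p q) = 0) ?_ ?_ ?_ ?_ (mem_top y) (mem_top p) hq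
  iterate 3
    intros
    rename_i h h'
    simp only [br_add_left, br_add_right, as_add₁, as_add₂, as_add₃] at *
    linear_combination (norm := abel) h + h'
  intro d k a l b m _ _ hm
  have h1 := (hS.c0 m hm l).symm
  have key := congrArg (fun z => z ⊗ₜ[K] (k * (l * m))) (jac hA d a b)
  simp only [TensorProduct.add_tmul, TensorProduct.sub_tmul, ← TensorProduct.smul_tmul'] at key
  simp only [br_tmul, as_tmul, mul_assoc, h1, lc_pos h1]
  linear_combination (norm := abel) key

lemma jac_oo {y p q : A ⊗[K] G} (hp : p ∈ Hom A L1) (hq : q ∈ Hom A L1) :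
    (6 : ℤ) • as y p q - br (br y p) q - br (br y q) p + br y (br p q) = 0 := by
  refine ind3 (P := fun y p q => (6 : ℤ) • as y p q - br (br y p) q - br (br y q) p
    + br y (br p q) = 0) ?_ ?_ ?_ ?_ (mem_top y) hp hq
  iterate 3
    intros
    rename_i h h'
    simp only [br_add_left, br_add_right, as_add₁, as_add₂, as_add₃] at *
    linear_combination (norm := abel) h + h'
  intro d k a l b m _ hl hm
  have h1 := hS.c1 l hl m hm
  have key := congrArg (fun z => z ⊗ₜ[K] (k * (l * m))) (jac hA d a b)
  simp only [TensorProduct.add_tmul, TensorProduct.sub_tmul, ← TensorProduct.smul_tmul'] at key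
  simp only [br_tmul, as_tmul, mul_assoc, h1, lc_neg h1, mul_neg, TensorProduct.tmul_neg,
    br_neg_left, neg_neg]
  linear_combination (norm := abel) key

/-- an even element may be moved in an associator -/
lemma as_swap_e {u v w : A ⊗[K] G} (hw : w ∈ Hom A L0) : as u w v + as w u v = 0 := by
  refine ind3 (P := fun u v w => as u w v + as w u v = 0) ?_ ?_ ?_ ?_ (mem_top u) (mem_top v) hw
  iterate 3
    intros
    rename_i h h'
    simp only [as_add₁, as_add₂, as_add₃] at *
    linear_combination (norm := abel) h + h'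
  intro a l b m c n _ _ hn
  have h1 := hS.c0 n hn l
  simp only [as_tmul, h1, as_12 hA c a b, TensorProduct.neg_tmul]
  abel

lemma as_cyc_e {u v w : A ⊗[K] G} (hw : w ∈ Hom A L0) : as u v w - as w u v = 0 := by
  refine ind3 (P := fun u v w => as u v w - as w u v = 0) ?_ ?_ ?_ ?_ (mem_top u) (mem_top v) hw
  iterate 3
    intros
    rename_i h h'
    simp only [as_add₁, as_add₂, as_add₃] at *
    linear_combination (norm := abel) h + h'
  intro a l b m c n _ _ hn
  have h1 := hS.c0 n hn (l * m)
  have h2 : as a b c = as c a b := as_cyc hA c a b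
  simp only [as_tmul, h1, h2, mul_assoc, sub_self]

lemma leib_re {p r x : A ⊗[K] G} (hr : r ∈ Hom A L0) :
    br (jo p r) x - jo p (br r x) - jo (br p x) r = 0 := by
  refine ind3 (P := fun p r x => br (jo p r) x - jo p (br r x) - jo (br p x) r = 0)
    ?_ ?_ ?_ ?_ (mem_top p) hr (mem_top x)
  iterate 3
    intros
    rename_i h h'
    simp only [br_add_left, br_add_right, jo_add_left, jo_add_right] at *
    linear_combination (norm := abel) h + h'
  intro d k a l b m _ hl _
  have h1 := hS.c0 l hl m
  have key := congrArg (fun z => z ⊗ₜ[K] (k * (l * m))) (cm_jd hA d a b)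
  simp only [TensorProduct.add_tmul] at key
  simp only [br_tmul, jo_tmul, mul_assoc, h1, lc_pos h1]
  linear_combination (norm := abel) key

lemma leib_xe {p r x : A ⊗[K] G} (hx : x ∈ Hom A L0) :
    br (jo p r) x - jo p (br r x) - jo (br p x) r = 0 := by
  refine ind3 (P := fun p r x => br (jo p r) x - jo p (br r x) - jo (br p x) r = 0)
    ?_ ?_ ?_ ?_ (mem_top p) (mem_top r) hx
  iterate 3
    intros
    rename_i h h'
    simp only [br_add_left, br_add_right, jo_add_left, jo_add_right] at *
    linear_combination (norm := abel) h + h'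
  intro d k a l b m _ _ hm
  have h1 := (hS.c0 m hm l).symm
  have key := congrArg (fun z => z ⊗ₜ[K] (k * (l * m))) (cm_jd hA d a b)
  simp only [TensorProduct.add_tmul] at key
  simp only [br_tmul, jo_tmul, mul_assoc, h1, lc_pos h1]
  linear_combination (norm := abel) key

lemma leib_oo {p r x : A ⊗[K] G} (hr : r ∈ Hom A L1) (hx : x ∈ Hom A L1) :
    br (jo p r) x - jo p (br r x) + jo (br p x) r = 0 := by
  refine ind3 (P := fun p r x => br (jo p r) x - jo p (br r x) + jo (br p x) r = 0)
    ?_ ?_ ?_ ?_ (mem_top p) hr hx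
  iterate 3
    intros
    rename_i h h'
    simp only [br_add_left, br_add_right, jo_add_left, jo_add_right] at *
    linear_combination (norm := abel) h + h'
  intro d k a l b m _ hl hm
  have h1 := hS.c1 l hl m hm
  have key := congrArg (fun z => z ⊗ₜ[K] (k * (l * m))) (cm_jd hA d a b)
  simp only [TensorProduct.add_tmul] at key
  simp only [br_tmul, jo_tmul, mul_assoc, h1, lc_neg h1, mul_neg, TensorProduct.tmul_neg]
  linear_combination (norm := abel) key

lemma as_jo {r q y w : A ⊗[K] G} (hr : r ∈ Hom A L0) :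
    as (jo r q) y w - jo r (as q y w) - jo q (as r y w) = 0 := by
  refine ind4 (P := fun r q y w => as (jo r q) y w - jo r (as q y w) - jo q (as r y w) = 0)
    ?_ ?_ ?_ ?_ ?_ hr (mem_top q) (mem_top y) (mem_top w)
  iterate 4
    intros
    rename_i h h'
    simp only [as_add₁, as_add₂, as_add₃, jo_add_left, jo_add_right] at *
    linear_combination (norm := abel) h + h'
  intro d k a l b m c n hk _ _ _
  have h1 := hS.c0 k hk l
  have key := congrArg (fun z => z ⊗ₜ[K] (k * (l * (m * n)))) (as_jd hA d a b c)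
  simp only [TensorProduct.add_tmul] at key
  simp only [as_tmul, jo_tmul, mul_assoc, h1, lc_pos h1]
  linear_combination (norm := abel) key

end

section
include hS hA h2

theorem kid_e {a b c e d : A ⊗[K] G} (ha : a ∈ Hom A L0) (he : e ∈ Hom A L0) (hd : d ∈ Hom A L0) :
    jo (br a b) (as e d c) + jo (br e b) (as a d c) + jo (br a d) (as e b c)
      + jo (br e d) (as a b c) = 0 := by
  refine ind5 (P := fun a b c e d => jo (br a b) (as e d c) + jo (br e b) (as a d c)
    + jo (br a d) (as e b c) + jo (br e d) (as a b c) = 0)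
    ?_ ?_ ?_ ?_ ?_ ?_ ha (mem_top b) (mem_top c) he hd
  iterate 5
    intros
    rename_i h h'
    simp only [as_add₁, as_add₂, as_add₃, jo_add_left, jo_add_right, br_add_left, br_add_right] at *
    linear_combination (norm := abel) h + h'
  intro a l b m c n e j d k hl _ _ hj hk
  have l1 := (hS.c0 l hl m).symm
  have l2 := (hS.c0 l hl n).symm
  have j1 := hS.c0 j hj l
  have j2 := hS.c0 j hj m
  have j3 := hS.c0 j hj n
  have j4 := hS.c0 j hj k
  have k1 := hS.c0 k hk l
  have k2 := hS.c0 k hk m
  have k3 := hS.c0 k hk n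
  apply h2
  have key := two_tmul (K := K) (k5_two hA a e b d c) (j * (k * (l * (m * n))))
  simp only [TensorProduct.add_tmul, TensorProduct.sub_tmul] at key
  simp only [br_tmul, as_tmul, jo_tmul, mul_assoc, j1, j2, j3, j4, k1, k2, k3, ← l1,
    lc_pos j1, lc_pos j2, lc_pos j3, lc_pos j4, lc_pos k1, lc_pos k2, lc_pos k3, lc_pos l1.symm]
  linear_combination (norm := abel) key

theorem kid_oo {a b c e d : A ⊗[K] G} (ha : a ∈ Hom A L1) (hb : b ∈ Hom A L1)
    (he : e ∈ Hom A L0) (hd : d ∈ Hom A L0) :
    jo (br a b) (as e d c) - jo (br e b) (as a d c) + jo (br a d) (as e b c)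
      + jo (br e d) (as a b c) = 0 := by
  refine ind5 (P := fun a b c e d => jo (br a b) (as e d c) - jo (br e b) (as a d c)
    + jo (br a d) (as e b c) + jo (br e d) (as a b c) = 0)
    ?_ ?_ ?_ ?_ ?_ ?_ ha hb (mem_top c) he hd
  iterate 5
    intros
    rename_i h h'
    simp only [as_add₁, as_add₂, as_add₃, jo_add_left, jo_add_right, br_add_left, br_add_right] at *
    linear_combination (norm := abel) h + h'
  intro a l b m c n e j d k hl hm _ hj hk
  have l1 := hS.c1 l hl m hm
  have j1 := hS.c0 j hj l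
  have j2 := hS.c0 j hj m
  have j3 := hS.c0 j hj n
  have j4 := hS.c0 j hj k
  have k1 := hS.c0 k hk l
  have k2 := hS.c0 k hk m
  have k3 := hS.c0 k hk n
  apply h2
  have key := two_tmul (K := K) (k5_two hA a e b d c) (j * (k * (l * (m * n))))
  simp only [TensorProduct.add_tmul, TensorProduct.sub_tmul] at key
  simp only [br_tmul, as_tmul, jo_tmul, mul_assoc, j1, j2, j3, j4, k1, k2, k3, l1,
    lc_pos j1, lc_pos j2, lc_pos j3, lc_pos j4, lc_pos k1, lc_pos k2, lc_pos k3, lc_neg l1,
    mul_neg, TensorProduct.tmul_neg]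
  linear_combination (norm := abel) key

theorem sagle_ooo {y a b c : A ⊗[K] G} (ha : a ∈ Hom A L1) (hb : b ∈ Hom A L1)
    (hc : c ∈ Hom A L1) :
    - br (br y b) (br a c) + br (br y (br b c)) a
      + br y (br (br a b) c) - br (br (br y a) b) c + br (br (br y c) a) b = 0 := by
  refine ind4 (P := fun y a b c => - br (br y b) (br a c) + br (br y (br b c)) a
      + br y (br (br a b) c) - br (br (br y a) b) c + br (br (br y c) a) b = 0)
      ?_ ?_ ?_ ?_ ?_ (mem_top y) ha hb hc
  iterate 4
    intros
    rename_i h h'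
    simp only [br_add_left, br_add_right] at *
    linear_combination (norm := abel) h + h'
  intro d k a l b m c n _ hl hm hn
  have h1 := hS.c1 l hl m hm
  have h2a := hS.c1 l hl n hn
  have h3 := hS.c1 m hm n hn
  apply h2
  have key := two_tmul (K := K) (sagle_op_two hA d a b c) (k * (l * (m * n)))
  simp only [TensorProduct.add_tmul, TensorProduct.sub_tmul] at key
  simp only [br_tmul, mul_assoc, h1, h2a, h3, lc_neg h1, lc_neg h2a, lc_neg h3, mul_neg, neg_neg,
    TensorProduct.tmul_neg, br_neg_left, br_neg_right]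
  linear_combination (norm := abel) key

theorem sagle_oeo {y a b c : A ⊗[K] G} (ha : a ∈ Hom A L1) (hb : b ∈ Hom A L0)
    (hc : c ∈ Hom A L1) :
    br (br y b) (br a c) - br (br y (br b c)) a
      + br y (br (br a b) c) - br (br (br y a) b) c - br (br (br y c) a) b = 0 := by
  refine ind4 (P := fun y a b c => br (br y b) (br a c) - br (br y (br b c)) a
      + br y (br (br a b) c) - br (br (br y a) b) c - br (br (br y c) a) b = 0)
      ?_ ?_ ?_ ?_ ?_ (mem_top y) ha hb hc
  iterate 4
    intros
    rename_i h h'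
    simp only [br_add_left, br_add_right] at *
    linear_combination (norm := abel) h + h'
  intro d k a l b m c n _ hl hm hn
  have h1 := (hS.c0 m hm l).symm
  have h2a := hS.c1 l hl n hn
  have h3 := hS.c0 m hm n
  apply h2
  have key := two_tmul (K := K) (sagle_op_two hA d a b c) (k * (l * (m * n)))
  simp only [TensorProduct.add_tmul, TensorProduct.sub_tmul] at key
  simp only [br_tmul, mul_assoc, h1, h2a, h3, lc_pos h1, lc_neg h2a, lc_pos h3, mul_neg, neg_neg,
    TensorProduct.tmul_neg, br_neg_left, br_neg_right]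
  linear_combination (norm := abel) key

theorem sagle_eoo {y a b c : A ⊗[K] G} (ha : a ∈ Hom A L0) (hb : b ∈ Hom A L1)
    (hc : c ∈ Hom A L1) :
    br (br y b) (br a c) + br (br y (br b c)) a
      + br y (br (br a b) c) - br (br (br y a) b) c - br (br (br y c) a) b = 0 := by
  refine ind4 (P := fun y a b c => br (br y b) (br a c) + br (br y (br b c)) a
      + br y (br (br a b) c) - br (br (br y a) b) c - br (br (br y c) a) b = 0)
      ?_ ?_ ?_ ?_ ?_ (mem_top y) ha hb hc
  iterate 4
    intros
    rename_i h h'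
    simp only [br_add_left, br_add_right] at *
    linear_combination (norm := abel) h + h'
  intro d k a l b m c n _ hl hm hn
  have h1 := hS.c0 l hl m
  have h2a := hS.c0 l hl n
  have h3 := hS.c1 m hm n hn
  apply h2
  have key := two_tmul (K := K) (sagle_op_two hA d a b c) (k * (l * (m * n)))
  simp only [TensorProduct.add_tmul, TensorProduct.sub_tmul] at key
  simp only [br_tmul, mul_assoc, h1, h2a, h3, lc_pos h1, lc_pos h2a, lc_neg h3, mul_neg, neg_neg,
    TensorProduct.tmul_neg, br_neg_left, br_neg_right]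
  linear_combination (norm := abel) key

theorem sagle_oee {y a b c : A ⊗[K] G} (ha : a ∈ Hom A L1) (hb : b ∈ Hom A L0)
    (hc : c ∈ Hom A L0) :
    br (br y b) (br a c) + br (br y (br b c)) a
      + br y (br (br a b) c) - br (br (br y a) b) c + br (br (br y c) a) b = 0 := by
  refine ind4 (P := fun y a b c => br (br y b) (br a c) + br (br y (br b c)) a
      + br y (br (br a b) c) - br (br (br y a) b) c + br (br (br y c) a) b = 0)
      ?_ ?_ ?_ ?_ ?_ (mem_top y) ha hb hc
  iterate 4
    intros
    rename_i h h'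
    simp only [br_add_left, br_add_right] at *
    linear_combination (norm := abel) h + h'
  intro d k a l b m c n _ hl hm hn
  have h1 := (hS.c0 m hm l).symm
  have h2a := (hS.c0 n hn l).symm
  have h3 := hS.c0 m hm n
  apply h2
  have key := two_tmul (K := K) (sagle_op_two hA d a b c) (k * (l * (m * n)))
  simp only [TensorProduct.add_tmul, TensorProduct.sub_tmul] at key
  simp only [br_tmul, mul_assoc, h1, h2a, h3, lc_pos h1, lc_pos h2a, lc_pos h3, mul_neg, neg_neg,
    TensorProduct.tmul_neg, br_neg_left, br_neg_right]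
  linear_combination (norm := abel) key

end

end Pool.Agent.Zk64.Alt
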