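import Pool.Agent.Zk64.Alt.Eval

/-!
# Non-vanishing from table algebras
-/

set_option autoImplicit false
set_option linter.unusedSectionVars false

open TensorProduct

namespace Pool.Agent.Zk64.Alt

section omega

variable (K : Type*) [CommRing K]

/-- `e'_i ⊗ e_i` -/
noncomputable def om (i : Fin 7) :
    ExteriorAlgebra K (Fin 8 → K) ⊗[K] ExteriorAlgebra K (Fin 7 → K) :=
  eg K 8 i.castSucc ⊗ₜ[K] eg K 7 i

lemma om_comm (i j : Fin 7) : Commute (om K i) (om K j) := by
  have h1 : eg K 8 i.castSucc * eg K 8 j.castSucc = -(eg K 8 j.castSucc * eg K 8 i.castSucc) :=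
    ext_anti _ _
  have h2 : eg K 7 i * eg K 7 j = -(eg K 7 j * eg K 7 i) := ext_anti _ _
  rw [Commute, SemiconjBy, om, om, Algebra.TensorProduct.tmul_mul_tmul,
    Algebra.TensorProduct.tmul_mul_tmul, h1, h2, TensorProduct.tmul_neg, TensorProduct.neg_tmul,
    neg_neg]

lemma om_sq (i : Fin 7) : om K i * om K i = 0 := by
  have h1 : eg K 7 i * eg K 7 i = 0 := ExteriorAlgebra.ι_sq_zero _
  rw [om, Algebra.TensorProduct.tmul_mul_tmul, h1, TensorProduct.tmul_zero]

/-- sum of the first `n` elements -/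
noncomputable def oX (n : ℕ) : ExteriorAlgebra K (Fin 8 → K) ⊗[K] ExteriorAlgebra K (Fin 7 → K) :=
  (((List.finRange 7).take n).map (om K)).sum

/-- sum of the last `7 - n` elements -/
noncomputable def oZ (n : ℕ) : ExteriorAlgebra K (Fin 8 → K) ⊗[K] ExteriorAlgebra K (Fin 7 → K) :=
  (((List.finRange 7).drop n).map (om K)).sum

lemma om_list (l : List (Fin 7)) :
    (l.map (om K)).sum ^ l.length = (l.length.factorial : ℕ) • (l.map (om K)).prod ∧
      (l.map (om K)).sum ^ (l.length + 1) = 0 := by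
  have h := sum_pow (l.map (om K)) ?_ ?_
  · rwa [List.length_map] at h
  · intro a ha b hb
    obtain ⟨i, _, rfl⟩ := List.mem_map.mp ha
    obtain ⟨j, _, rfl⟩ := List.mem_map.mp hb
    exact om_comm K i j
  · intro a ha
    obtain ⟨i, _, rfl⟩ := List.mem_map.mp ha
    exact om_sq K i

lemma oX_comm_oZ (n : ℕ) : Commute (oX K n) (oZ K n) := by
  have h : ∀ (l l' : List (Fin 7)), Commute (l.map (om K)).sum (l'.map (om K)).sum := by
    intro l l'
    induction l with
    | nil => simp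
    | cons i l ih =>
      rw [List.map_cons, List.sum_cons]
      refine Commute.add_left ?_ ih
      clear ih
      induction l' with
      | nil => simp
      | cons j l' ih =>
        rw [List.map_cons, List.sum_cons]
        exact (om_comm K i j).add_right ih
  exact h _ _

/-- `e'_0 ⋯ e'_6` -/
noncomputable def Eb : ExteriorAlgebra K (Fin 8 → K) :=
  ((List.finRange 7).map (fun i : Fin 7 => eg K 8 i.castSucc)).prod

lemma om_prod (l : List (Fin 7)) : (l.map (om K)).prod =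
    (l.map (fun i : Fin 7 => eg K 8 i.castSucc)).prod ⊗ₜ[K] (l.map (eg K 7)).prod := by
  induction l with
  | nil => rfl
  | cons i l ih =>
    rw [List.map_cons, List.prod_cons, ih, List.map_cons, List.prod_cons, List.map_cons,
      List.prod_cons, om, Algebra.TensorProduct.tmul_mul_tmul]

lemma tc_om : tc (topc K 7) ((List.finRange 7).map (om K)).prod = Eb K := by
  rw [om_prod, tc_tmul, Eb]
  have h : ((List.finRange 7).map (eg K 7)).prod = (List.ofFn (eg K 7)).prod := by
    rw [List.ofFn_eq_map]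
  rw [h, topc_top, one_smul]

/-- the graded elements -/
noncomputable def oW (n : ℕ) (a b : ℕ → ℕ) (m : ℕ) :
    ExteriorAlgebra K (Fin 8 → K) ⊗[K] ExteriorAlgebra K (Fin 7 → K) :=
  oX K n ^ a m * oZ K n ^ b m

lemma oW_mul (n : ℕ) (a b : ℕ → ℕ) (i j m : ℕ) (ha : a m = a i + a j) (hb : b m = b i + b j) :
    oW K n a b m = oW K n a b i * oW K n a b j := by
  rw [oW, oW, oW, ha, hb, pow_add, pow_add]
  have h : Commute (oX K n ^ a j) (oZ K n ^ b i) := (oX_comm_oZ K n).pow_pow _ _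
  rw [mul_assoc, ← mul_assoc _ (oZ K n ^ b i), h.eq, mul_assoc, mul_assoc]

lemma tc_oW_top (n : ℕ) (hn : n ≤ 7) (a b : ℕ → ℕ) (m : ℕ) (ha : a m = n) (hb : b m = 7 - n) :
    tc (topc K 7) (oW K n a b m) = (n.factorial * (7 - n).factorial : ℕ) • Eb K := by
  have h1 := (om_list K ((List.finRange 7).take n)).1
  have h2 := (om_list K ((List.finRange 7).drop n)).1
  have e1 : ((List.finRange 7).take n).length = n := by
    rw [List.length_take, List.length_finRange]; omega
  have e2 : ((List.finRange 7).drop n).length = 7 - n := by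
    rw [List.length_drop, List.length_finRange]
  rw [e1] at h1
  rw [e2] at h2
  rw [oW, ha, hb, oX, oZ, h1, h2, smul_mul_assoc, mul_smul_comm, smul_smul, map_nsmul,
    ← List.prod_append, ← List.map_append, List.take_append_drop, tc_om]

lemma tc_oW_zero (n : ℕ) (hn : n ≤ 7) (a b : ℕ → ℕ) (m : ℕ) (h : n < a m ∨ 7 - n < b m) :
    tc (topc K 7) (oW K n a b m) = 0 := by
  have h1 := (om_list K ((List.finRange 7).take n)).2
  have h2 := (om_list K ((List.finRange 7).drop n)).2
  have e1 : ((List.finRange 7).take n).length = n := by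
    rw [List.length_take, List.length_finRange]; omega
  have e2 : ((List.finRange 7).drop n).length = 7 - n := by
    rw [List.length_drop, List.length_finRange]
  rw [e1] at h1
  rw [e2] at h2
  rw [oW, oX, oZ]
  rcases h with h | h
  · rw [pow_large h1 h, zero_mul, map_zero]
  · rw [pow_large h2 h, mul_zero, map_zero]

lemma eg_list_mem (l : List (Fin 8)) : (l.map (eg K 8)).prod ∈ par K (Fin 8 → K) (l.length : ZMod 2) := by
  induction l with
  | nil => simpa using one_mem_par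
  | cons i l ih =>
    rw [List.map_cons, List.prod_cons, List.length_cons, Nat.cast_succ, add_comm]
    exact par_mul (vec_mem_par _) ih

lemma Eb_mem : Eb K ∈ par K (Fin 8 → K) 1 := by
  have h := eg_list_mem K ((List.finRange 7).map Fin.castSucc)
  rw [List.map_map, List.length_map, List.length_finRange] at h
  exact h

lemma Eb_mul : Eb K * eg K 8 7 = (List.ofFn (eg K 8)).prod := by
  rw [List.ofFn_succ', List.concat_eq_append, List.prod_append, List.prod_singleton, Eb,
    List.ofFn_eq_map]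
  rfl

end omega

section

variable {K : Type*} [CommRing K] {P : ℕ → ℕ → List (ℕ × ℤ)} {k : Type*} [CommRing k] [Algebra K k]
  {p : ℕ → ZMod 2}

lemma coef_Th_vec (n : ℕ) (hn : n ≤ 7) (a b : ℕ → ℕ) (U : List (ℕ × ℤ))
    (hU : ∀ t ∈ U, (a t.1 = n ∧ b t.1 = 7 - n) ∨ (n < a t.1 ∨ 7 - n < b t.1)) :
    coef (topc K 7) (Th (TensorProduct.mk K (TS P k) (ExteriorAlgebra K (Fin 8 → K)))
      (oW K n a b) (vec P k U)) =
    (n.factorial * (7 - n).factorial : ℕ) •
      (vec P k (U.filter fun t => a t.1 = n ∧ b t.1 = 7 - n) ⊗ₜ[K] Eb K) := by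
  induction U with
  | nil => simp
  | cons t T ih =>
    rw [vec_cons, map_add, map_add, ih fun s hs => hU s (List.mem_cons_of_mem _ hs), Th_sg, coef_Em,
      TensorProduct.mk_apply]
    rcases hU t List.mem_cons_self with h | h
    · rw [tc_oW_top K n hn a b t.1 h.1 h.2, List.filter_cons_of_pos (by simpa using h), vec_cons,
        TensorProduct.add_tmul, smul_add]
      congr 1
      rw [TensorProduct.tmul_smul]
    · rw [tc_oW_zero K n hn a b t.1 h, TensorProduct.tmul_zero, zero_add,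
        List.filter_cons_of_neg]
      simp only [decide_eq_true_eq]
      omega

/-- indices of the generators -/
def gi (n : ℕ) (i : ℕ) : ℕ := if i < n then 0 else 1

theorem n0_eval (n : ℕ) (hn : n ≤ 7) (a b : ℕ → ℕ)
    (hab : ∀ i j, ∀ t ∈ P i j, a t.1 = a i + a j ∧ b t.1 = b i + b j)
    (U : List (ℕ × ℤ)) (v : TS P k)
    (hX : xh (K := K) (fun i : Fin 7 => sg P (gi n i) (1 : k) ⊗ₜ[K] eg K 8 i.castSucc) =
      Th (TensorProduct.mk K (TS P k) (ExteriorAlgebra K (Fin 8 → K))) (oW K n a b) v)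
    (hv : ring_u v = vec P k U)
    (hU : ∀ t ∈ U, (a t.1 = n ∧ b t.1 = 7 - n) ∨ (n < a t.1 ∨ 7 - n < b t.1)) :
    n0 K (fun i : Fin 7 => sg P (gi n i) (1 : k) ⊗ₜ[K] eg K 8 i.castSucc) =
    (n.factorial * (7 - n).factorial : ℕ) •
      (vec P k (U.filter fun t => a t.1 = n ∧ b t.1 = 7 - n) ⊗ₜ[K] Eb K) := by
  rw [n0, uel_odd (sc_ext K _) (xh_mem _), hX, Th_ring_u, hv, coef_Th_vec n hn a b U hU]
  · intro s t l l'
    rw [TensorProduct.mk_apply, TensorProduct.mk_apply, mul_tmul, TensorProduct.mk_apply]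
  · intro i j t ht
    exact oW_mul K n a b i j t.1 (hab i j t ht).1 (hab i j t ht).2

/-- the list of generators -/
def gl (n : ℕ) : List (ℕ × ℤ) := if n = 7 then [(0, 1)] else [(0, 1), (1, 1)]

/-- the data of the example -/
structure ExData (P : ℕ → ℕ → List (ℕ × ℤ)) (k : Type*) [CommRing k] (p : ℕ → ZMod 2) (n : ℕ)
    (a b : ℕ → ℕ) (U : List (ℕ × ℤ)) (g7 top : ℕ) (γ : ℤ) : Prop where
  hn : n ≤ 7
  hab : ∀ i j, ∀ t ∈ P i j, a t.1 = a i + a j ∧ b t.1 = b i + b j
  a0 : a 0 = 1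
  b0 : b 0 = 0
  a1 : n < 7 → a 1 = 0
  b1 : n < 7 → b 1 = 1
  p0 : p 0 = 1
  p1 : n < 7 → p 1 = 1
  p7 : p g7 = 1
  hv : ring_u (vec P k (gl n)) = vec P k U
  hU : ∀ t ∈ U, (a t.1 = n ∧ b t.1 = 7 - n) ∨ (n < a t.1 ∨ 7 - n < b t.1)
  hG : vec P k (U.filter fun t => a t.1 = n ∧ b t.1 = 7 - n) * sg P g7 (1 : k) +
    sg P g7 (1 : k) * vec P k (U.filter fun t => a t.1 = n ∧ b t.1 = 7 - n) = sg P top (γ : k)

lemma Em_sum_list {S A L' L : Type*} [NonUnitalNonAssocRing S] [Module K S]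
    [NonUnitalNonAssocRing A] [Module K A] [IsScalarTower K A A] [SMulCommClass K A A]
    [Ring L'] [Algebra K L'] [Ring L] [Algebra K L] (b : S →ₗ[K] L' →ₗ[K] A)
    {ι : Type*} (l : List ι) (f : ι → L' ⊗[K] L) (s : S) :
    Em b (l.map f).sum s = (l.map fun i => Em b (f i) s).sum := by
  induction l with
  | nil => exact Em_zero b s
  | cons i l ih => rw [List.map_cons, List.sum_cons, Em_add, ih, List.map_cons, List.sum_cons]

lemma xh_eq {U : List (ℕ × ℤ)} {n : ℕ} {a b : ℕ → ℕ} {g7 top : ℕ} {γ : ℤ}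
    (h : ExData P k p n a b U g7 top γ) :
    xh (K := K) (fun i : Fin 7 => sg P (gi n i) (1 : k) ⊗ₜ[K] eg K 8 i.castSucc) =
      Th (TensorProduct.mk K (TS P k) (ExteriorAlgebra K (Fin 8 → K))) (oW K n a b)
        (vec P k (gl n)) := by
  have h1 : xh (K := K) (fun i : Fin 7 => sg P (gi n i) (1 : k) ⊗ₜ[K] eg K 8 i.castSucc) =
      ((List.finRange 7).map fun i : Fin 7 =>
        Em (TensorProduct.mk K (TS P k) (ExteriorAlgebra K (Fin 8 → K))) (om K i)
          (sg P (gi n i) (1 : k))).sum := by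
    rw [xh, ← List.sum_ofFn, List.ofFn_eq_map]
    rfl
  have h2 : ∀ i ∈ (List.finRange 7).take n, gi n i = 0 := by
    intro i hi
    rw [gi, if_pos]
    obtain ⟨j, hj, rfl⟩ := List.mem_iff_getElem.mp hi
    rw [List.length_take] at hj
    rw [List.getElem_take, List.getElem_finRange]
    simp only [Fin.val_cast]
    omega
  have h3 : ∀ i ∈ (List.finRange 7).drop n, gi n i = 1 := by
    intro i hi
    rw [gi, if_neg]
    obtain ⟨j, hj, rfl⟩ := List.mem_iff_getElem.mp hi
    rw [List.getElem_drop, List.getElem_finRange]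
    simp only [Fin.val_cast]
    omega
  have e0 : oW K n a b 0 = oX K n := by rw [oW, h.a0, h.b0, pow_one, pow_zero, mul_one]
  rw [h1, ← List.take_append_drop n (List.finRange 7), List.map_append, List.sum_append]
  have h4 : (((List.finRange 7).take n).map fun i : Fin 7 =>
        Em (TensorProduct.mk K (TS P k) (ExteriorAlgebra K (Fin 8 → K))) (om K i)
          (sg P (gi n i) (1 : k))).sum =
      Em (TensorProduct.mk K (TS P k) (ExteriorAlgebra K (Fin 8 → K))) (oX K n)
        (sg P 0 (1 : k)) := by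
    rw [oX, Em_sum_list]
    congr 1
    refine List.map_congr_left fun i hi => ?_
    rw [h2 i hi]
  have h5 : (((List.finRange 7).drop n).map fun i : Fin 7 =>
        Em (TensorProduct.mk K (TS P k) (ExteriorAlgebra K (Fin 8 → K))) (om K i)
          (sg P (gi n i) (1 : k))).sum =
      Em (TensorProduct.mk K (TS P k) (ExteriorAlgebra K (Fin 8 → K))) (oZ K n)
        (sg P 1 (1 : k)) := by
    rw [oZ, Em_sum_list]
    congr 1
    refine List.map_congr_left fun i hi => ?_
    rw [h3 i hi]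
  rw [h4, h5, gl]
  by_cases h7 : n = 7
  · rw [if_pos h7, vec_cons, vec_nil, add_zero, Int.cast_one, Th_sg, e0]
    have : oZ K n = 0 := by
      rw [oZ, h7]
      rfl
    rw [this, Em_zero, add_zero]
  · have hn := h.hn
    have e1 : oW K n a b 1 = oZ K n := by
      rw [oW, h.a1 (by omega), h.b1 (by omega), pow_one, pow_zero, one_mul]
    rw [if_neg h7, vec_cons, vec_cons, vec_nil, add_zero, Int.cast_one, map_add, Th_sg, Th_sg, e0, e1]

end

section

variable {K : Type*} [CommRing K] {P : ℕ → ℕ → List (ℕ × ℤ)} {k : Type*} [CommRing k] [Algebra K k]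
  {p : ℕ → ZMod 2} {U : List (ℕ × ℤ)} {n : ℕ} {a b : ℕ → ℕ} {g7 top : ℕ} {γ : ℤ}

/-- indices of the images of the generators -/
def gi' (n g7 i : ℕ) : ℕ := if i < 7 then gi n i else g7

lemma p_gi' (h : ExData P k p n a b U g7 top γ) (i : ℕ) : p (gi' n g7 i) = 1 := by
  rw [gi', gi]
  split_ifs with h1 h2
  · exact h.p0
  · exact h.p1 (by omega)
  · exact h.p7

/-- a homomorphism from the free alternative algebra -/
theorem exists_map (hT : GoodTab P p k) (h : ExData P k p n a b U g7 top γ) :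
    ∃ F : FreeAlt K ℕ →ₗ[K] TS P k ⊗[K] ExteriorAlgebra K (Fin 8 → K),
      (∀ x y, F (x * y) = F x * F y) ∧
      ∀ (i : ℕ) (hi : i < 8), F (gx K i) = sg P (gi' n g7 i) (1 : k) ⊗ₜ[K] eg K 8 ⟨i, hi⟩ := by
  let f : ℕ → envAlg (K := K) (M := Fin 8 → K) hT := fun i =>
    if hi : i < 8 then ⟨sg P (gi' n g7 i) (1 : k) ⊗ₜ[K] eg K 8 ⟨i, hi⟩,
      sg_mem_env _ _ (by rw [p_gi' h]; exact vec_mem_par _)⟩ else 0
  obtain ⟨F, hF, hf⟩ := FreeAlt.exists_hom (K := K) (X := ℕ) (envAlg_alt (K := K) (M := Fin 8 → K) hT) f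
  refine ⟨{ toFun := fun x => (F x).1, map_add' := fun x y => ?_, map_smul' := fun c x => ?_ },
    fun x y => ?_, fun i hi => ?_⟩
  · rw [map_add]; rfl
  · rw [map_smul]; rfl
  · change (F (x * y)).1 = (F x).1 * (F y).1
    rw [hF]; rfl
  · change (F (FreeAlt.of K ℕ i)).1 = _
    rw [hf]
    change (dite _ _ _ : envAlg (K := K) (M := Fin 8 → K) hT).1 = _
    rw [dif_pos hi]

lemma sg_eq_zero {i : ℕ} {c : k} (h : sg P i c = 0) : c = 0 :=
  Finsupp.single_eq_zero.mp h

lemma cm_eval (hG : vec P k U * sg P g7 (1 : k) + sg P g7 (1 : k) * vec P k U = sg P top (γ : k)) :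
    coef (topc K 8) (cm (vec P k U ⊗ₜ[K] Eb K) (sg P g7 (1 : k) ⊗ₜ[K] eg K 8 7)) =
      sg P top (γ : k) := by
  have h1 : eg K 8 7 * Eb K = -(Eb K * eg K 8 7) := odd_odd (Eb_mem K) (vec_mem_par _)
  rw [cm, mul_tmul, mul_tmul, h1, TensorProduct.tmul_neg, sub_neg_eq_add, ← TensorProduct.add_tmul,
    coef_tmul, Eb_mul, topc_top, one_smul, hG]

lemma map_seven {F : FreeAlt K ℕ →ₗ[K] TS P k ⊗[K] ExteriorAlgebra K (Fin 8 → K)}
    (hf : ∀ (i : ℕ) (hi : i < 8), F (gx K i) = sg P (gi' n g7 i) (1 : k) ⊗ₜ[K] eg K 8 ⟨i, hi⟩) :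
    F (gx K 7) = sg P g7 (1 : k) ⊗ₜ[K] eg K 8 7 := by
  have h := hf 7 (by norm_num)
  rw [gi', if_neg (by norm_num)] at h
  exact h

lemma map_u7 (h : ExData P k p n a b U g7 top γ)
    {F : FreeAlt K ℕ →ₗ[K] TS P k ⊗[K] ExteriorAlgebra K (Fin 8 → K)}
    (hF : ∀ x y, F (x * y) = F x * F y)
    (hf : ∀ (i : ℕ) (hi : i < 8), F (gx K i) = sg P (gi' n g7 i) (1 : k) ⊗ₜ[K] eg K 8 ⟨i, hi⟩) :
    F (u7 K) = ((n.factorial * (7 - n).factorial : ℕ) : K) •
      (vec P k (U.filter fun t => a t.1 = n ∧ b t.1 = 7 - n) ⊗ₜ[K] Eb K) := by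
  have hg : (fun i : Fin 7 => F (gx K i)) =
      fun i : Fin 7 => sg P (gi n i) (1 : k) ⊗ₜ[K] eg K 8 i.castSucc := by
    funext i
    have hi : (i : ℕ) < 7 := i.2
    have h0 := hf i (by omega)
    rw [gi', if_pos hi] at h0
    exact h0
  rw [u7_eq, ← n0_map F hF, Nat.cast_smul_eq_nsmul K, hg,
    n0_eval n h.hn a b h.hab U _ (xh_eq h) h.hv h.hU]

lemma map_cm' {F : FreeAlt K ℕ →ₗ[K] TS P k ⊗[K] ExteriorAlgebra K (Fin 8 → K)}
    (hF : ∀ x y, F (x * y) = F x * F y) (x y : FreeAlt K ℕ) : F (cm x y) = cm (F x) (F y) := by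
  simp only [cm, map_sub, hF]

/-- The criterion: a table algebra shows that the free alternative algebra is not separated. -/
theorem not_separated_of_table (hT : GoodTab P p k) (h : ExData P k p n a b U g7 top γ)
    (hc : ∀ m : ℕ, (2 : k) * 6 ^ m * (n.factorial * (7 - n).factorial : ℕ) * γ ≠ 0) :
    ¬ Separated K (FreeAlt K ℕ) := by
  refine not_separated_of_ne K fun m hm => ?_
  obtain ⟨F, hF, hf⟩ := exists_map (K := K) hT h
  have h1 := congrArg (fun z => coef (topc K 8) (F z)) hm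
  simp only [map_smul, map_zero] at h1
  rw [map_cm' hF, map_u7 h hF hf, map_seven hf, cm_smul_left, map_smul, cm_eval h.hG, smul_smul,
    ← algebraMap_smul k, smul_sg] at h1
  have h4 := sg_eq_zero h1
  refine hc m ?_
  rw [← h4]
  simp only [map_mul, map_pow, map_ofNat, map_natCast]

end

end Pool.Agent.Zk64.Alt
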