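import Pool.Agent.Zk64.Alt.Cert

/-!
# The nuclear element
-/

set_option autoImplicit false
set_option linter.unusedSectionVars false
set_option linter.unusedSimpArgs false
set_option linter.unusedVariables false

open TensorProduct

namespace Pool.Agent.Zk64.Alt

variable {K : Type*} [CommRing K] {A : Type*} [NonUnitalNonAssocRing A] [Module K A]
  [IsScalarTower K A A] [SMulCommClass K A A] {G : Type*} [Ring G] [Algebra K G]

variable {L0 L1 : Submodule K G} (hS : SC L0 L1) (hA : IsAlt A)
  (h2 : ∀ v : A ⊗[K] G, (2 : ℤ) • v = 0 → v = 0)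

/-- `s = x²`, `[x, x] = 2 s` -/
lemma br_xx {x : A ⊗[K] G} (hS : SC L0 L1) (hx : x ∈ Hom A L1) : br x x = (2 : ℤ) • (x * x) := by
  rw [br_self hS hx hx, two_smul]

lemma two_cancel (h2 : ∀ v : A ⊗[K] G, (2 : ℤ) • v = 0 → v = 0) {u v : A ⊗[K] G}
    (h : (2 : ℤ) • u = (2 : ℤ) • v) : u = v := by
  have := h2 (u - v) (by rw [smul_sub, h, sub_self])
  exact sub_eq_zero.mp this

lemma neg_mem' {L : Submodule K G} {v : A ⊗[K] G} (hv : v ∈ Hom A L) : -v ∈ Hom A L := by
  refine ind1 (P := fun v => -v ∈ Hom A L) (fun u v hu hv => ?_) (fun a l hl => ?_) hv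
  · rw [neg_add]
    exact add_mem hu hv
  · rw [← TensorProduct.neg_tmul]
    exact tmul_mem _ hl

lemma sub_mem' {L : Submodule K G} {u v : A ⊗[K] G} (hu : u ∈ Hom A L) (hv : v ∈ Hom A L) :
    u - v ∈ Hom A L := by
  rw [sub_eq_add_neg]
  exact add_mem hu (neg_mem' hv)

lemma zsmul_mem' {L : Submodule K G} (n : ℕ) {v : A ⊗[K] G} (hv : v ∈ Hom A L) :
    (n : ℤ) • v ∈ Hom A L := by
  rw [natCast_zsmul]
  exact nsmul_mem hv n

section
include hS hA h2

variable {x : A ⊗[K] G} (hx : x ∈ Hom A L1)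
include hx

/-- `Q = R S - S R` -/
lemma opQ (v : A ⊗[K] G) :
    br v (br (x * x) x) = br (br v x) (x * x) - br (br v (x * x)) x := by
  have h := sagle_ooo hS hA h2 (y := v) hx hx hx
  rw [br_xx hS hx] at h
  simp only [br_zsmul_left, br_zsmul_right] at h
  apply two_cancel h2
  linear_combination (norm := module) h

lemma mem_s : x * x ∈ Hom A L0 := mul_oo hS hx hx
lemma mem_q : br (x * x) x ∈ Hom A L1 := br_eo hS (mul_oo hS hx hx) hx
lemma mem_r : br (br (x * x) x) x ∈ Hom A L0 := br_oo hS (br_eo hS (mul_oo hS hx hx) hx) hx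

/-- `R S R = S S` and `E = S R R - R R S` -/
lemma opM1E (v : A ⊗[K] G) :
    br (br (br v x) (x * x)) x = br (br v (x * x)) (x * x) ∧
    br v (br (br (x * x) x) x) = br (br (br v (x * x)) x) x - br (br (br v x) x) (x * x) := by
  have hs := mem_s hS hA h2 hx
  have h1 := sagle_oeo hS hA h2 (y := v) hx hs hx
  have h3 := sagle_eoo hS hA h2 (y := v) hs hx hx
  have hq : ∀ w, br w (br (x * x) x) = br (br w x) (x * x) - br (br w (x * x)) x :=
    opQ hS hA h2 hx
  rw [br_comm_e hS hs (v := x)] at h1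
  simp only [br_neg_left, br_neg_right, br_xx hS hx, br_zsmul_right, br_zsmul_left, hq,
    br_sub_left] at h1 h3
  have e1 : br (br (br v x) (x * x)) x = br (br v (x * x)) (x * x) := by
    apply two_cancel h2
    apply two_cancel h2
    linear_combination (norm := module) -h1 - h3
  refine ⟨e1, ?_⟩
  linear_combination (norm := module) h3 + (2 : ℤ) • e1

lemma opM1 (v : A ⊗[K] G) :
    br (br (br v x) (x * x)) x = br (br v (x * x)) (x * x) := (opM1E hS hA h2 hx v).1

lemma opE (v : A ⊗[K] G) :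
    br v (br (br (x * x) x) x) = br (br (br v (x * x)) x) x - br (br (br v x) x) (x * x) :=
  (opM1E hS hA h2 hx v).2

lemma br_ss : br (x * x) (x * x) = 0 := by
  have h := br_comm_e hS (mem_s hS hA h2 hx) (v := x * x)
  apply h2
  rw [two_smul]
  nth_rewrite 1 [h]
  exact neg_add_cancel _

lemma br_qs : br (br (x * x) x) (x * x) = 0 := by
  have h := opQ hS hA h2 hx (x * x)
  have h' := br_comm_e hS (mem_s hS hA h2 hx) (v := br (x * x) x)
  rw [br_ss hS hA h2 hx, br_zero_left, sub_zero] at h
  apply h2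
  rw [two_smul]
  nth_rewrite 1 [h']
  rw [h]
  exact neg_add_cancel _

lemma br_sq : br (x * x) (br (x * x) x) = 0 := by
  have h := opQ hS hA h2 hx (x * x)
  rw [br_ss hS hA h2 hx, br_zero_left, sub_zero, br_qs hS hA h2 hx] at h
  exact h

/-- `S S R = R S S` -/
lemma opM2 (v : A ⊗[K] G) :
    br (br (br v x) (x * x)) (x * x) = br (br (br v (x * x)) (x * x)) x := by
  have hs := mem_s hS hA h2 hx
  have h1 := sagle_oee hS hA h2 (y := v) hx hs hs
  rw [br_comm_e hS hs (v := x)] at h1
  simp only [br_neg_left, br_neg_right, opQ hS hA h2 hx, br_ss hS hA h2 hx, br_qs hS hA h2 hx,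
    br_zero_left, br_zero_right] at h1
  linear_combination (norm := module) -h1

/-- `[q, q] = [r, s]` -/
lemma br_rs : br (br (br (x * x) x) x) (x * x) = br (br (x * x) x) (br (x * x) x) := by
  have h := opQ hS hA h2 hx (br (x * x) x)
  rw [br_qs hS hA h2 hx, br_zero_left, sub_zero] at h
  exact h.symm

/-- `ad [q, q] = 2 R R S S - 2 S S S` -/
lemma opQQ (v : A ⊗[K] G) :
    br v (br (br (x * x) x) (br (x * x) x)) =
      (2 : ℤ) • br (br (br (br v x) x) (x * x)) (x * x)
        - (2 : ℤ) • br (br (br v (x * x)) (x * x)) (x * x) := by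
  have hs := mem_s hS hA h2 hx
  have hq := mem_q hS hA h2 hx
  have h1 := sagle_eoo hS hA h2 (y := v) hs hx hq
  rw [br_comm_oo hS hq hx] at h1
  have hM1 := opM1 hS hA h2 hx
  have hM2 := opM2 hS hA h2 hx
  simp only [br_neg_left, br_neg_right, opQ hS hA h2 hx (br (br v (x * x)) x),
    opQ hS hA h2 hx v, opE hS hA h2 hx v, br_sq hS hA h2 hx,
    br_zero_left, br_zero_right, br_sub_left, hM1, hM2] at h1 ⊢
  linear_combination (norm := module) h1

/-- `ad [r, x] = 4 S S R - S R R R - R R R S - 2 S R S` -/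
lemma opE5 (v : A ⊗[K] G) :
    br v (br (br (br (x * x) x) x) x) =
      (4 : ℤ) • br (br (br v (x * x)) (x * x)) x - br (br (br (br v (x * x)) x) x) x
        - br (br (br (br v x) x) x) (x * x) - (2 : ℤ) • br (br (br v (x * x)) x) (x * x) := by
  have hs := mem_s hS hA h2 hx
  have hq := mem_q hS hA h2 hx
  have h1 := sagle_ooo hS hA h2 (y := v) hq hx hx
  have hM1 := opM1 hS hA h2 hx
  have hM2 := opM2 hS hA h2 hx
  simp only [br_xx hS hx, br_zsmul_right, br_zsmul_left, opQ hS hA h2 hx (br v x),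
    opQ hS hA h2 hx v, opQ hS hA h2 hx (br v (x * x)), opE hS hA h2 hx (br v x),
    br_sub_left, hM1, hM2] at h1 ⊢
  linear_combination (norm := module) h1

lemma as1 (w : A ⊗[K] G) :
    (3 : ℤ) • as w x (br (x * x) x) = - br w (br (br (x * x) x) x) := by
  have hq := mem_q hS hA h2 hx
  have h1 := jac_oo hS hA (y := w) hx hq
  have hM1 := opM1 hS hA h2 hx
  have hM2 := opM2 hS hA h2 hx
  rw [br_comm_oo hS hq hx] at h1
  simp only [opQ hS hA h2 hx, opE hS hA h2 hx, br_sub_left, hM1, hM2] at h1 ⊢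
  apply two_cancel h2
  linear_combination (norm := module) h1

lemma as2 (w : A ⊗[K] G) :
    (3 : ℤ) • as w (x * x) x = - br w (br (x * x) x) := by
  have hs := mem_s hS hA h2 hx
  have h1 := jac_e hS hA (y := w) (q := x) hs
  simp only [opQ hS hA h2 hx] at h1 ⊢
  apply two_cancel h2
  linear_combination (norm := module) h1

lemma as3 (y : A ⊗[K] G) :
    (3 : ℤ) • as y (br (x * x) x) (br (x * x) x) =
      (3 : ℤ) • br (br (br y (x * x)) (x * x)) (x * x)
        - (2 : ℤ) • br (br (br (br y x) x) (x * x)) (x * x)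
        - br (br (br (br y (x * x)) x) x) (x * x) := by
  have hq := mem_q hS hA h2 hx
  have h1 := jac_oo hS hA (y := y) hq hq
  have hM1 := opM1 hS hA h2 hx
  have hM2 := opM2 hS hA h2 hx
  have hQQ := opQQ hS hA h2 hx y
  rw [hQQ] at h1
  simp only [opQ hS hA h2 hx, br_sub_left, hM1, hM2] at h1 ⊢
  apply two_cancel h2
  linear_combination (norm := module) h1

lemma as4 (w : A ⊗[K] G) :
    (3 : ℤ) • as w (x * x) (br (br (x * x) x) x) =
      (2 : ℤ) • br (br (br (br w x) x) (x * x)) (x * x)
        - br (br (br (br w (x * x)) x) x) (x * x)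
        - br (br (br w (x * x)) (x * x)) (x * x) := by
  have hs := mem_s hS hA h2 hx
  have h1 := jac_e hS hA (y := w) (q := br (br (x * x) x) x) hs
  have hM1 := opM1 hS hA h2 hx
  have hM2 := opM2 hS hA h2 hx
  have hQQ := opQQ hS hA h2 hx w
  have hc : br (x * x) (br (br (x * x) x) x) = - br (br (x * x) x) (br (x * x) x) := by
    have := br_comm_e hS hs (v := br (br (x * x) x) x)
    rw [br_rs hS hA h2 hx] at this
    rw [this, neg_neg]
  rw [hc, br_neg_right, hQQ] at h1
  simp only [opE hS hA h2 hx, br_sub_left, hM1, hM2] at h1 ⊢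
  apply two_cancel h2
  linear_combination (norm := module) h1

lemma as5 (y : A ⊗[K] G) :
    (3 : ℤ) • as y x (br (br (x * x) x) x) =
      - (br (br (br (br y (x * x)) x) x) x + br (br (br (br y x) x) x) (x * x)
        - (3 : ℤ) • br (br (br y (x * x)) (x * x)) x + br (br (br y (x * x)) x) (x * x)) := by
  have hr := mem_r hS hA h2 hx
  have h1 := jac_e' hS hA (y := y) (p := x) hr
  have hM1 := opM1 hS hA h2 hx
  have hM2 := opM2 hS hA h2 hx
  have hE5 := opE5 hS hA h2 hx y
  rw [br_comm_e hS hr (v := x), br_neg_right, hE5] at h1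
  simp only [opE hS hA h2 hx, br_sub_left, hM1, hM2] at h1 ⊢
  apply two_cancel h2
  linear_combination (norm := module) h1

lemma as6 (w : A ⊗[K] G) :
    (3 : ℤ) • as w (x * x) (br (x * x) x) =
      br (br (br w (x * x)) x) (x * x) - br (br (br w (x * x)) (x * x)) x := by
  have hs := mem_s hS hA h2 hx
  have h1 := jac_e hS hA (y := w) (q := br (x * x) x) hs
  have hM1 := opM1 hS hA h2 hx
  have hM2 := opM2 hS hA h2 hx
  rw [br_sq hS hA h2 hx, br_zero_right] at h1
  simp only [opQ hS hA h2 hx, br_sub_left, hM1, hM2] at h1 ⊢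
  apply two_cancel h2
  linear_combination (norm := module) h1

/-- the formal data of the certificate for `R = ad x`, `S = ad x²` -/
lemma certData (h3 : ∀ v : A ⊗[K] G, (3 : ℤ) • v = 0 → v = 0) :
    CertData (V := A ⊗[K] G) ((brL K A G).flip x).toAddMonoidHom
      ((brL K A G).flip (x * x)).toAddMonoidHom
      ((AddMonoidHom.mk' (fun u => ((joL K A G) u).toAddMonoidHom)
        (fun u v => by ext; simp)))
      (fun v => v ∈ Hom A L0) (fun v => v ∈ Hom A L1) := by
  have hs := mem_s hS hA h2 hx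
  have hq := mem_q hS hA h2 hx
  refine ⟨fun v hv => br_eo hS hv hx, fun v hv => br_oo hS hv hx, fun v hv => br_ee hS hv hs,
    fun v hv => br_oe hS hv hs, fun p r hr => ?_, fun p r hr => ?_, fun p r => ?_,
    fun v => opM1 hS hA h2 hx v, fun v => opM2 hS hA h2 hx v, fun y w hy hw => ?_⟩
  · have h := leib_re hS hA (p := p) (r := r) (x := x) hr
    change br (jo p r) x = jo p (br r x) + jo (br p x) r
    linear_combination (norm := abel) h
  · have h := leib_oo hS hA (p := p) (r := r) (x := x) hr hx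
    change br (jo p r) x = jo p (br r x) - jo (br p x) r
    linear_combination (norm := abel) h
  · have h := leib_xe hS hA (p := p) (r := r) (x := x * x) hs
    change br (jo p r) (x * x) = jo p (br r (x * x)) + jo (br p (x * x)) r
    linear_combination (norm := abel) h
  · have h := kid_e hS hA h2 (a := x * x) (b := br (x * x) x) (c := w) (e := x * x) (d := y) hs hs hy
    rw [br_sq hS hA h2 hx, jo_zero_left, zero_add, zero_add, ← two_smul ℤ] at h
    have h' := h2 _ h
    have e1 : as (x * x) (br (x * x) x) w = as w (x * x) (br (x * x) x) :=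
      sub_eq_zero.mp (as_cyc_e hS hA hw)
    have e2 : br (x * x) y = - br y (x * x) := br_comm_e hS hy
    have e3 := as6 hS hA h2 hx w
    rw [e1, e2, jo_neg_left, neg_eq_zero] at h'
    have h'' : jo (br y (x * x)) ((3 : ℤ) • as w (x * x) (br (x * x) x)) = 0 := by
      rw [jo_zsmul_right, h', smul_zero]
    rw [e3] at h''
    exact h''

/-- the certificate in `A ⊗ G` -/
theorem omega_eq (h3 : ∀ v : A ⊗[K] G, (3 : ℤ) • v = 0 → v = 0) {y w : A ⊗[K] G}
    (hy : y ∈ Hom A L0) (hw : w ∈ Hom A L0) :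
    jo (br (br y x) (x * x) - br (br y (x * x)) x)
        (br (br (br w (x * x)) x) x - br (br (br w x) x) (x * x))
      + jo ((3 : ℤ) • br (br (br y (x * x)) (x * x)) (x * x)
          - (2 : ℤ) • br (br (br (br y x) x) (x * x)) (x * x)
          - br (br (br (br y (x * x)) x) x) (x * x)) (br w x)
      + jo (br y x) ((2 : ℤ) • br (br (br (br w x) x) (x * x)) (x * x)
          - br (br (br (br w (x * x)) x) x) (x * x)
          - br (br (br w (x * x)) (x * x)) (x * x))
      - jo (br (br (br (br y (x * x)) x) x) x + br (br (br (br y x) x) x) (x * x)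
          - (3 : ℤ) • br (br (br y (x * x)) (x * x)) x + br (br (br y (x * x)) x) (x * x))
        (br w (x * x)) = 0 := by
  have h := (certData hS hA h2 hx h3).omega hy hw
  have hM2 := opM2 hS hA h2 hx
  apply two_cancel h2
  apply two_cancel h2
  simp only [smul_zero]
  rw [smul_smul, show (2 : ℤ) * 2 = 4 from rfl, ← h]
  change _ = (4 : ℤ) • (jo (br (br y x) (x * x) - br (br y (x * x)) x)
        (br (br (br w (x * x)) x) x - br (br (br w x) x) (x * x))
      + jo ((3 : ℤ) • br (br (br y (x * x)) (x * x)) (x * x)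
          - (2 : ℤ) • br (br (br (br y x) x) (x * x)) (x * x)
          - br (br (br (br y (x * x)) x) x) (x * x)) (br w x)
      + jo (br y x) ((2 : ℤ) • br (br (br (br w x) x) (x * x)) (x * x)
          - br (br (br (br w (x * x)) x) x) (x * x)
          - br (br (br w (x * x)) (x * x)) (x * x))
      - jo (br (br (br (br y (x * x)) x) x) x + br (br (br (br y x) x) x) (x * x)
          - (3 : ℤ) • br (br (br y (x * x)) (x * x)) x + br (br (br y (x * x)) x) (x * x))
        (br w (x * x)))
  rfl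

/-- The element `u = r ∘ q`, `q = [x², x]`, `r = [q, x]`, satisfies `(u, y, w) = 0` for all even
`y`, `w`. -/
theorem nuc_super (h3 : ∀ v : A ⊗[K] G, (3 : ℤ) • v = 0 → v = 0) {y w : A ⊗[K] G}
    (hy : y ∈ Hom A L0) (hw : w ∈ Hom A L0) :
    as (jo (br (br (x * x) x) x) (br (x * x) x)) y w = 0 := by
  have hs := mem_s hS hA h2 hx
  have hq := mem_q hS hA h2 hx
  have hr := mem_r hS hA h2 hx
  have hO := omega_eq hS hA h2 hx h3 hy hw
  have hQ := opQ hS hA h2 hx
  have hE := opE hS hA h2 hx
  -- first instance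
  have ka := kid_oo hS hA h2 (a := x) (b := br (x * x) x) (c := br (x * x) x) (e := y) (d := w)
    hx hq hy hw
  have kb := kid_e hS hA h2 (a := x * x) (b := x) (c := br (br (x * x) x) x) (e := y) (d := w)
    hs hy hw
  have a1 : as (br (x * x) x) y w = as y w (br (x * x) x) :=
    (sub_eq_zero.mp (as_cyc_e hS hA (u := br (x * x) x) (v := y) hw)).trans
      (sub_eq_zero.mp (as_cyc_e hS hA (u := w) (v := br (x * x) x) hy))
  have a2 : as (br (br (x * x) x) x) y w = as y w (br (br (x * x) x) x) :=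
    (sub_eq_zero.mp (as_cyc_e hS hA (u := br (br (x * x) x) x) (v := y) hw)).trans
      (sub_eq_zero.mp (as_cyc_e hS hA (u := w) (v := br (br (x * x) x) x) hy))
  have a3 : as x w (br (x * x) x) = - as w x (br (x * x) x) :=
    eq_neg_of_add_eq_zero_left (as_swap_e hS hA hw)
  have a4 : as (x * x) w (br (br (x * x) x) x) = - as w (x * x) (br (br (x * x) x) x) :=
    eq_neg_of_add_eq_zero_left (as_swap_e hS hA hw)
  have b1 : br x w = - br w x := br_comm_e hS hw
  have b2 : br (x * x) w = - br w (x * x) := br_comm_e hS hw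
  have b3 : br x (br (x * x) x) = br (br (x * x) x) x := br_comm_oo hS hq hx
  rw [b3, ← a1, a3, b1] at ka
  rw [← a2, a4, b2] at kb
  have c1 := as1 hS hA h2 hx w
  have c3 := as3 hS hA h2 hx y
  have c3' := as3 hS hA h2 hx x
  have c4 := as4 hS hA h2 hx w
  have c5 := as5 hS hA h2 hx y
  have c5' := as5 hS hA h2 hx (x * x)
  have d := as_jo hS hA (r := br (br (x * x) x) x) (q := br (x * x) x) (y := y) (w := w) hr
  apply h3
  -- the two terms with `[y, w]` cancel
  have f : (3 : ℤ) • as x (br (x * x) x) (br (x * x) x)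
      + (3 : ℤ) • as (x * x) x (br (br (x * x) x) x) = 0 := by
    rw [c3', c5']
    have g1 : br x (x * x) = - br (x * x) x := br_comm_e hS hs
    simp only [g1, br_neg_left, br_qs hS hA h2 hx, br_ss hS hA h2 hx, br_zero_left, br_xx hS hx,
      br_zsmul_left, neg_zero, smul_zero]
    module
  have hJ : jo ((3 : ℤ) • br (br (br y (x * x)) (x * x)) (x * x)
          - (2 : ℤ) • br (br (br (br y x) x) (x * x)) (x * x)
          - br (br (br (br y (x * x)) x) x) (x * x)) (br w x)
      = jo (br w x) ((3 : ℤ) • as y (br (x * x) x) (br (x * x) x)) := by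
    rw [c3]
    refine (jo_comm_e hS ?_).symm
    have m1 := br_ee hS (br_ee hS (br_ee hS hy hs) hs) hs
    have m2 := br_ee hS (br_ee hS (br_oo hS (br_eo hS hy hx) hx) hs) hs
    have m3 := br_ee hS (br_oo hS (br_eo hS (br_ee hS hy hs) hx) hx) hs
    exact sub_mem' (sub_mem' (zsmul_mem' 3 m1) (zsmul_mem' 2 m2)) m3
  have hJ' : jo (br (br (br (br y (x * x)) x) x) x + br (br (br (br y x) x) x) (x * x)
          - (3 : ℤ) • br (br (br y (x * x)) (x * x)) x + br (br (br y (x * x)) x) (x * x))
        (br w (x * x)) = - jo (br w (x * x)) ((3 : ℤ) • as y x (br (br (x * x) x) x)) := by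
    rw [c5, jo_neg_right, neg_neg]
    exact jo_comm_e hS (br_ee hS hw hs)
  rw [← hQ, ← hE, hJ, hJ', ← c4] at hO
  have c1' : br w (br (br (x * x) x) x) = - ((3 : ℤ) • as w x (br (x * x) x)) := by
    rw [c1, neg_neg]
  rw [c1'] at hO
  have f' := congrArg (fun z => jo (br y w) z) f
  simp only [jo_add_right, jo_zsmul_right, jo_neg_right, jo_neg_left, jo_zero_right] at hO f' ka kb
  linear_combination (norm := module) (3 : ℤ) • d + (3 : ℤ) • ka + (3 : ℤ) • kb + hO - f'

end

end Pool.Agent.Zk64.Alt
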