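import Pool.Agent.Zk64.Alt.Basic

/-!
# Identities in `A ⊗ G`, `A` alternative, `G` supercommutative
-/

set_option autoImplicit false
set_option linter.unusedSectionVars false
set_option linter.unusedSimpArgs false

open TensorProduct

namespace Pool.Agent.Zk64.Alt

variable {K : Type*} [CommRing K] {A : Type*} [NonUnitalNonAssocRing A] [Module K A]
  [IsScalarTower K A A] [SMulCommClass K A A] {G : Type*} [Ring G] [Algebra K G]

variable (K A) in
/-- commutator as a bilinear map -/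
noncomputable def cmL : A →ₗ[K] A →ₗ[K] A := LinearMap.mul K A - (LinearMap.mul K A).flip

variable (K A) in
/-- Jordan product as a bilinear map -/
noncomputable def jdL : A →ₗ[K] A →ₗ[K] A := LinearMap.mul K A + (LinearMap.mul K A).flip

variable (K A G) in
/-- super commutator on `A ⊗ G` -/
noncomputable def brL : A ⊗[K] G →ₗ[K] A ⊗[K] G →ₗ[K] A ⊗[K] G :=
  TensorProduct.map₂ (cmL K A) (LinearMap.mul K G)

variable (K A G) in
/-- super Jordan product on `A ⊗ G` -/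
noncomputable def joL : A ⊗[K] G →ₗ[K] A ⊗[K] G →ₗ[K] A ⊗[K] G :=
  TensorProduct.map₂ (jdL K A) (LinearMap.mul K G)

/-- super commutator on `A ⊗ G` -/
noncomputable def br (u v : A ⊗[K] G) : A ⊗[K] G := brL K A G u v

/-- super Jordan product on `A ⊗ G` -/
noncomputable def jo (u v : A ⊗[K] G) : A ⊗[K] G := joL K A G u v

lemma br_tmul (a b : A) (l m : G) :
    br (a ⊗ₜ[K] l) (b ⊗ₜ[K] m) = cm a b ⊗ₜ[K] (l * m) := by
  simp [br, brL, cmL, cm]

lemma jo_tmul (a b : A) (l m : G) :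
    jo (a ⊗ₜ[K] l) (b ⊗ₜ[K] m) = jd a b ⊗ₜ[K] (l * m) := by
  simp [jo, joL, jdL, jd]

lemma mul_tmul (a b : A) (l m : G) :
    (a ⊗ₜ[K] l) * (b ⊗ₜ[K] m) = (a * b) ⊗ₜ[K] (l * m) := by
  simp

lemma as_tmul (a b c : A) (l m n : G) :
    as (a ⊗ₜ[K] l) (b ⊗ₜ[K] m) (c ⊗ₜ[K] n) = as a b c ⊗ₜ[K] (l * m * n) := by
  simp only [as, mul_tmul, sub_tmul, mul_assoc]

section

variable (u u' v v' w : A ⊗[K] G)

lemma br_add_left : br (u + u') v = br u v + br u' v := by simp [br]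
lemma br_add_right : br u (v + v') = br u v + br u v' := by simp [br]
lemma br_neg_left : br (-u) v = - br u v := by simp [br]
lemma br_neg_right : br u (-v) = - br u v := by simp [br]
lemma br_sub_left : br (u - u') v = br u v - br u' v := by simp [br]
lemma br_sub_right : br u (v - v') = br u v - br u v' := by simp [br]
lemma br_zsmul_left (c : ℤ) : br (c • u) v = c • br u v := by simp [br]
lemma br_zsmul_right (c : ℤ) : br u (c • v) = c • br u v := by simp [br]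
lemma br_zero_left : br (0 : A ⊗[K] G) v = 0 := by simp [br]
lemma br_zero_right : br u (0 : A ⊗[K] G) = 0 := by simp [br]
lemma jo_add_left : jo (u + u') v = jo u v + jo u' v := by simp [jo]
lemma jo_add_right : jo u (v + v') = jo u v + jo u v' := by simp [jo]
lemma jo_neg_left : jo (-u) v = - jo u v := by simp [jo]
lemma jo_neg_right : jo u (-v) = - jo u v := by simp [jo]
lemma jo_sub_left : jo (u - u') v = jo u v - jo u' v := by simp [jo]
lemma jo_sub_right : jo u (v - v') = jo u v - jo u v' := by simp [jo]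
lemma jo_zsmul_left (c : ℤ) : jo (c • u) v = c • jo u v := by simp [jo]
lemma jo_zsmul_right (c : ℤ) : jo u (c • v) = c • jo u v := by simp [jo]
lemma jo_zero_left : jo (0 : A ⊗[K] G) v = 0 := by simp [jo]
lemma jo_zero_right : jo u (0 : A ⊗[K] G) = 0 := by simp [jo]

end

/-- the additive submonoid of `A ⊗ G` of the elements with coefficients in `L` -/
def Hom (A : Type*) [NonUnitalNonAssocRing A] [Module K A] (L : Submodule K G) :
    AddSubmonoid (A ⊗[K] G) :=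
  AddSubmonoid.closure {v | ∃ a : A, ∃ l ∈ L, v = a ⊗ₜ[K] l}

lemma tmul_mem {L : Submodule K G} (a : A) {l : G} (hl : l ∈ L) : a ⊗ₜ[K] l ∈ Hom A L :=
  AddSubmonoid.subset_closure ⟨a, l, hl, rfl⟩

lemma mem_top (v : A ⊗[K] G) : v ∈ Hom A (⊤ : Submodule K G) := by
  induction v using TensorProduct.induction_on with
  | zero => exact zero_mem _
  | tmul a l => exact tmul_mem a trivial
  | add u v hu hv => exact add_mem hu hv

theorem ind1 {L : Submodule K G} {P : A ⊗[K] G → Prop}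
    (hadd : ∀ u v, P u → P v → P (u + v)) (hp : ∀ (a : A) (l : G), l ∈ L → P (a ⊗ₜ[K] l))
    {v : A ⊗[K] G} (hv : v ∈ Hom A L) : P v := by
  refine AddSubmonoid.closure_induction (motive := fun v _ => P v) ?_ ?_ ?_ hv
  · rintro x ⟨a, l, hl, rfl⟩
    exact hp a l hl
  · have := hp 0 0 (zero_mem _)
    rwa [TensorProduct.tmul_zero] at this
  · intro x y _ _ hx hy
    exact hadd x y hx hy

theorem ind2 {L₁ L₂ : Submodule K G} {P : A ⊗[K] G → A ⊗[K] G → Prop}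
    (h1 : ∀ u u' v, P u v → P u' v → P (u + u') v)
    (h2 : ∀ u v v', P u v → P u v' → P u (v + v'))
    (hp : ∀ (a : A) (l : G) (b : A) (m : G), l ∈ L₁ → m ∈ L₂ → P (a ⊗ₜ[K] l) (b ⊗ₜ[K] m))
    {u v : A ⊗[K] G} (hu : u ∈ Hom A L₁) (hv : v ∈ Hom A L₂) : P u v := by
  refine ind1 (P := fun u => P u v) (fun a b ha hb => h1 a b v ha hb) (fun a l hl => ?_) hu
  exact ind1 (P := fun v => P (a ⊗ₜ[K] l) v) (fun v v' => h2 _ v v') (fun b m hm => hp a l b m hl hm) hv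

theorem ind3 {L₁ L₂ L₃ : Submodule K G} {P : A ⊗[K] G → A ⊗[K] G → A ⊗[K] G → Prop}
    (h1 : ∀ u u' v w, P u v w → P u' v w → P (u + u') v w)
    (h2 : ∀ u v v' w, P u v w → P u v' w → P u (v + v') w)
    (h3 : ∀ u v w w', P u v w → P u v w' → P u v (w + w'))
    (hp : ∀ (a : A) (l : G) (b : A) (m : G) (c : A) (n : G), l ∈ L₁ → m ∈ L₂ → n ∈ L₃ →
      P (a ⊗ₜ[K] l) (b ⊗ₜ[K] m) (c ⊗ₜ[K] n))
    {u v w : A ⊗[K] G} (hu : u ∈ Hom A L₁) (hv : v ∈ Hom A L₂) (hw : w ∈ Hom A L₃) : P u v w := by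
  refine ind1 (P := fun u => P u v w) (fun a b ha hb => h1 a b v w ha hb) (fun a l hl => ?_) hu
  exact ind2 (P := fun v w => P (a ⊗ₜ[K] l) v w) (fun v v' w => h2 _ v v' w)
    (fun v w w' => h3 _ v w w') (fun b m c n hm hn => hp a l b m c n hl hm hn) hv hw

theorem ind4 {L₁ L₂ L₃ L₄ : Submodule K G} {P : A ⊗[K] G → A ⊗[K] G → A ⊗[K] G → A ⊗[K] G → Prop}
    (h1 : ∀ u u' v w z, P u v w z → P u' v w z → P (u + u') v w z)
    (h2 : ∀ u v v' w z, P u v w z → P u v' w z → P u (v + v') w z)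
    (h3 : ∀ u v w w' z, P u v w z → P u v w' z → P u v (w + w') z)
    (h4 : ∀ u v w z z', P u v w z → P u v w z' → P u v w (z + z'))
    (hp : ∀ (a : A) (l : G) (b : A) (m : G) (c : A) (n : G) (d : A) (k : G),
      l ∈ L₁ → m ∈ L₂ → n ∈ L₃ → k ∈ L₄ →
      P (a ⊗ₜ[K] l) (b ⊗ₜ[K] m) (c ⊗ₜ[K] n) (d ⊗ₜ[K] k))
    {u v w z : A ⊗[K] G} (hu : u ∈ Hom A L₁) (hv : v ∈ Hom A L₂) (hw : w ∈ Hom A L₃)
    (hz : z ∈ Hom A L₄) : P u v w z := by
  refine ind1 (P := fun u => P u v w z) (fun a b ha hb => h1 a b v w z ha hb) (fun a l hl => ?_) hu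
  exact ind3 (P := fun v w z => P (a ⊗ₜ[K] l) v w z) (fun v v' w z => h2 _ v v' w z)
    (fun v w w' z => h3 _ v w w' z) (fun v w z z' => h4 _ v w z z')
    (fun b m c n d k hm hn hk => hp a l b m c n d k hl hm hn hk) hv hw hz

theorem ind5 {L₁ L₂ L₃ L₄ L₅ : Submodule K G}
    {P : A ⊗[K] G → A ⊗[K] G → A ⊗[K] G → A ⊗[K] G → A ⊗[K] G → Prop}
    (h1 : ∀ u u' v w z t, P u v w z t → P u' v w z t → P (u + u') v w z t)
    (h2 : ∀ u v v' w z t, P u v w z t → P u v' w z t → P u (v + v') w z t)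
    (h3 : ∀ u v w w' z t, P u v w z t → P u v w' z t → P u v (w + w') z t)
    (h4 : ∀ u v w z z' t, P u v w z t → P u v w z' t → P u v w (z + z') t)
    (h5 : ∀ u v w z t t', P u v w z t → P u v w z t' → P u v w z (t + t'))
    (hp : ∀ (a : A) (l : G) (b : A) (m : G) (c : A) (n : G) (d : A) (k : G) (e : A) (j : G),
      l ∈ L₁ → m ∈ L₂ → n ∈ L₃ → k ∈ L₄ → j ∈ L₅ →
      P (a ⊗ₜ[K] l) (b ⊗ₜ[K] m) (c ⊗ₜ[K] n) (d ⊗ₜ[K] k) (e ⊗ₜ[K] j))
    {u v w z t : A ⊗[K] G} (hu : u ∈ Hom A L₁) (hv : v ∈ Hom A L₂) (hw : w ∈ Hom A L₃)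
    (hz : z ∈ Hom A L₄) (ht : t ∈ Hom A L₅) : P u v w z t := by
  refine ind1 (P := fun u => P u v w z t) (fun a b ha hb => h1 a b v w z t ha hb)
    (fun a l hl => ?_) hu
  exact ind4 (P := fun v w z t => P (a ⊗ₜ[K] l) v w z t) (fun v v' w z t => h2 _ v v' w z t)
    (fun v w w' z t => h3 _ v w w' z t) (fun v w z z' t => h4 _ v w z z' t)
    (fun v w z t t' => h5 _ v w z t t')
    (fun b m c n d k e j hm hn hk hj => hp a l b m c n d k e j hl hm hn hk hj) hv hw hz ht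

/-- Data of a supercommutative algebra: even part central, odd elements anticommute. -/
structure SC (L0 L1 : Submodule K G) : Prop where
  one : (1 : G) ∈ L0
  m00 : ∀ a ∈ L0, ∀ b ∈ L0, a * b ∈ L0
  m01 : ∀ a ∈ L0, ∀ b ∈ L1, a * b ∈ L1
  m10 : ∀ a ∈ L1, ∀ b ∈ L0, a * b ∈ L1
  m11 : ∀ a ∈ L1, ∀ b ∈ L1, a * b ∈ L0
  c0 : ∀ a ∈ L0, ∀ b : G, b * a = a * b
  c1 : ∀ a ∈ L1, ∀ b ∈ L1, b * a = - (a * b)

end Pool.Agent.Zk64.Alt
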