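import Pool.Agent.Zk64.Alt.Elem

/-!
# Superalgebras given by a multiplication table, and their Grassmann envelopes
-/

set_option autoImplicit false
set_option linter.unusedSectionVars false

open TensorProduct

namespace Pool.Agent.Zk64.Alt

/-- the free `k`-module with basis `ℕ` and multiplication `e_i e_j = ∑ z e_m`, `(m, z) ∈ P i j` -/
def TS (_ : ℕ → ℕ → List (ℕ × ℤ)) (k : Type*) [CommRing k] : Type _ := ℕ →₀ k

section

variable {P : ℕ → ℕ → List (ℕ × ℤ)} {k : Type*} [CommRing k]

noncomputable instance : AddCommGroup (TS P k) := inferInstanceAs (AddCommGroup (ℕ →₀ k))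

noncomputable instance {K : Type*} [CommRing K] [Algebra K k] : Module K (TS P k) :=
  inferInstanceAs (Module K (ℕ →₀ k))

instance {K : Type*} [CommRing K] [Algebra K k] : IsScalarTower K k (TS P k) :=
  inferInstanceAs (IsScalarTower K k (ℕ →₀ k))

variable (P) in
/-- `c e_i` -/
noncomputable def sg (i : ℕ) (c : k) : TS P k := Finsupp.single i c

variable (P k) in
/-- the element given by a list -/
noncomputable def vec (L : List (ℕ × ℤ)) : TS P k := (L.map fun t => sg P t.1 (t.2 : k)).sum

variable (k) in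
/-- the element given by a list, as a finitely supported function -/
noncomputable def vec0 (L : List (ℕ × ℤ)) : ℕ →₀ k :=
  (L.map fun t => Finsupp.single t.1 (t.2 : k)).sum

variable (P k) in
/-- the multiplication -/
noncomputable def tmul0 : (ℕ →₀ k) →ₗ[k] (ℕ →₀ k) →ₗ[k] (ℕ →₀ k) :=
  Finsupp.linearCombination k (fun i => Finsupp.linearCombination k (fun j => vec0 k (P i j)))

lemma tmul0_single (i j : ℕ) (c d : k) :
    tmul0 P k (Finsupp.single i c) (Finsupp.single j d) = (c * d) • vec0 k (P i j) := by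
  rw [tmul0, Finsupp.linearCombination_single, LinearMap.smul_apply,
    Finsupp.linearCombination_single, smul_smul]

noncomputable instance : Mul (TS P k) := ⟨fun a b => tmul0 P k a b⟩

noncomputable instance : NonUnitalNonAssocRing (TS P k) where
  left_distrib a b c := (tmul0 P k a).map_add b c
  right_distrib a b c := congrArg (fun f => f c) ((tmul0 P k).map_add a b)
  zero_mul a := congrArg (fun f => f a) ((tmul0 P k).map_zero)
  mul_zero a := (tmul0 P k a).map_zero

instance {K : Type*} [CommRing K] [Algebra K k] : IsScalarTower K (TS P k) (TS P k) where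
  smul_assoc c a b := by
    rw [← algebraMap_smul k c a, ← algebraMap_smul k c (a • b)]
    exact congrArg (fun f => f b) ((tmul0 P k).map_smul (algebraMap K k c) a)

instance {K : Type*} [CommRing K] [Algebra K k] : SMulCommClass K (TS P k) (TS P k) where
  smul_comm c a b := by
    rw [← algebraMap_smul k c b, ← algebraMap_smul k c (a • b)]
    exact ((tmul0 P k a).map_smul (algebraMap K k c) b).symm

lemma sg_add (i : ℕ) (c d : k) : sg P i (c + d) = sg P i c + sg P i d := Finsupp.single_add _ _ _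

lemma sg_zero (i : ℕ) : sg P i (0 : k) = 0 := Finsupp.single_zero _

lemma smul_sg (i : ℕ) (c d : k) : c • sg P i d = sg P i (c * d) := Finsupp.smul_single _ _ _

lemma sg_mul (i j : ℕ) (c d : k) : sg P i c * sg P j d = (c * d) • vec P k (P i j) :=
  tmul0_single i j c d

lemma ts_ind {p : TS P k → Prop} (h0 : p 0) (ha : ∀ a b, p a → p b → p (a + b))
    (hs : ∀ i c, p (sg P i c)) (a : TS P k) : p a :=
  Finsupp.induction_linear a h0 ha hs

@[simp] lemma vec_nil : vec P k [] = 0 := rfl

lemma vec_cons (t : ℕ × ℤ) (L : List (ℕ × ℤ)) :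
    vec P k (t :: L) = sg P t.1 (t.2 : k) + vec P k L := by
  simp [vec]

lemma vec_append (L M : List (ℕ × ℤ)) : vec P k (L ++ M) = vec P k L + vec P k M := by
  simp [vec]

/-- scaling of lists -/
def lscale (z : ℤ) (L : List (ℕ × ℤ)) : List (ℕ × ℤ) := L.map fun t => (t.1, z * t.2)

lemma vec_lscale (z : ℤ) (L : List (ℕ × ℤ)) : vec P k (lscale z L) = (z : k) • vec P k L := by
  induction L with
  | nil => simp [lscale]
  | cons t L ih =>
    have : lscale z (t :: L) = (t.1, z * t.2) :: lscale z L := rfl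
    rw [this, vec_cons, vec_cons, ih, smul_add, smul_sg]
    push_cast
    rfl

/-- `e_i L` -/
def lmulr (P : ℕ → ℕ → List (ℕ × ℤ)) (i : ℕ) (L : List (ℕ × ℤ)) : List (ℕ × ℤ) :=
  L.flatMap fun t => lscale t.2 (P i t.1)

/-- `L e_j` -/
def lmull (P : ℕ → ℕ → List (ℕ × ℤ)) (L : List (ℕ × ℤ)) (j : ℕ) : List (ℕ × ℤ) :=
  L.flatMap fun t => lscale t.2 (P t.1 j)

/-- `L M` -/
def lmul (P : ℕ → ℕ → List (ℕ × ℤ)) (L M : List (ℕ × ℤ)) : List (ℕ × ℤ) :=
  L.flatMap fun t => lscale t.2 (lmulr P t.1 M)

lemma vec_lmulr (i : ℕ) (L : List (ℕ × ℤ)) : vec P k (lmulr P i L) = sg P i (1 : k) * vec P k L := by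
  induction L with
  | nil => simp [lmulr]
  | cons t L ih =>
    have : lmulr P i (t :: L) = lscale t.2 (P i t.1) ++ lmulr P i L := rfl
    rw [this, vec_append, ih, vec_cons, mul_add, sg_mul, vec_lscale, one_mul]

lemma vec_lmull (L : List (ℕ × ℤ)) (j : ℕ) : vec P k (lmull P L j) = vec P k L * sg P j (1 : k) := by
  induction L with
  | nil => simp [lmull]
  | cons t L ih =>
    have : lmull P (t :: L) j = lscale t.2 (P t.1 j) ++ lmull P L j := rfl
    rw [this, vec_append, ih, vec_cons, add_mul, sg_mul, vec_lscale, mul_one]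

lemma vec_lmul (L M : List (ℕ × ℤ)) : vec P k (lmul P L M) = vec P k L * vec P k M := by
  induction L with
  | nil => simp [lmul]
  | cons t L ih =>
    have h : lmul P (t :: L) M = lscale t.2 (lmulr P t.1 M) ++ lmul P L M := rfl
    rw [h, vec_append, ih, vec_cons, add_mul, vec_lscale, vec_lmulr, ← smul_mul_assoc, smul_sg,
      mul_one]

/-- the associator of basis vectors as a list -/
def las (P : ℕ → ℕ → List (ℕ × ℤ)) (i j l : ℕ) : List (ℕ × ℤ) :=
  lmull P (P i j) l ++ lscale (-1) (lmulr P i (P j l))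

lemma vec_las (i j l : ℕ) :
    vec P k (las P i j l) = as (sg P i (1 : k)) (sg P j 1) (sg P l 1) := by
  rw [las, vec_append, vec_lscale, vec_lmull, vec_lmulr, as, sg_mul, sg_mul, mul_one, one_smul,
    one_smul]
  simp only [Int.cast_neg, Int.cast_one, neg_smul, one_smul]
  rw [← sub_eq_add_neg]

/-- insertion into a list representing a sum -/
def lins (t : ℕ × ℤ) : List (ℕ × ℤ) → List (ℕ × ℤ)
  | [] => if t.2 = 0 then [] else [t]
  | s :: L => if t.1 = s.1 then (if t.2 + s.2 = 0 then L else (t.1, t.2 + s.2) :: L)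
      else s :: lins t L

/-- normal form of a list -/
def lnorm : List (ℕ × ℤ) → List (ℕ × ℤ)
  | [] => []
  | t :: L => lins t (lnorm L)

lemma vec_lins (t : ℕ × ℤ) (L : List (ℕ × ℤ)) :
    vec P k (lins t L) = sg P t.1 (t.2 : k) + vec P k L := by
  induction L with
  | nil =>
    rw [lins]
    split_ifs with h
    · rw [h, Int.cast_zero, sg_zero, zero_add]
    · rw [vec_cons]
  | cons s L ih =>
    rw [lins]
    split_ifs with h1 h2
    · rw [vec_cons, ← add_assoc, h1, ← sg_add, ← Int.cast_add, h2, Int.cast_zero, sg_zero, zero_add]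
    · rw [vec_cons, vec_cons, ← add_assoc, h1, ← sg_add, ← Int.cast_add]
    · rw [vec_cons, vec_cons, ih]
      abel

lemma vec_lnorm (L : List (ℕ × ℤ)) : vec P k (lnorm L) = vec P k L := by
  induction L with
  | nil => rfl
  | cons t L ih => rw [lnorm, vec_lins, ih, vec_cons]

/-- all coefficients are divisible by `q` -/
def ldvd (q : ℤ) (L : List (ℕ × ℤ)) : Bool := L.all fun t => t.2 % q == 0

lemma vec_ldvd {q : ℤ} (hq : (q : k) = 0) {L : List (ℕ × ℤ)} (h : ldvd q L = true) :
    vec P k L = 0 := by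
  induction L with
  | nil => rfl
  | cons t L ih =>
    rw [ldvd, List.all_cons, Bool.and_eq_true] at h
    have h1 : t.2 % q = 0 := by simpa using h.1
    rw [vec_cons, ih h.2, add_zero, (Int.mul_ediv_cancel' (Int.dvd_of_emod_eq_zero h1)).symm,
      Int.cast_mul, hq, zero_mul, sg_zero]

/-- `L` represents `0` modulo `q` -/
def lzero (q : ℤ) (L : List (ℕ × ℤ)) : Bool := ldvd q (lnorm L)

lemma vec_lzero {q : ℤ} (hq : (q : k) = 0) {L : List (ℕ × ℤ)} (h : lzero q L = true) :
    vec P k L = 0 := by
  rw [← vec_lnorm, vec_ldvd hq h]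

end

end Pool.Agent.Zk64.Alt
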