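import Pool.Agent.Zk64.Alt.Check

/-!
# The first table: dimension 14, over the integers
-/

set_option autoImplicit false

namespace Pool.Agent.Zk64.Alt

/-- the table -/
def T1 : List (List (List (ℕ × ℤ))) := [
  [[(1, 1)], [(3, 1)], [(4, -2), (5, 3)], [(4, 1)], [(6, -7), (7, 8)], [(6, -6), (7, 7)], [(8, -6), (9, 24), (10, 83)], [(8, -9), (9, 35), (10, 120)], [(11, 650), (12, 22861)], [(11, 493), (12, 17339)], [(11, -94), (12, -3306)], [(13, -176)], [(13, 5)]],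
  [[(2, 1)], [(4, -1), (5, 2)], [(6, 1)], [(6, -2), (7, 3)], [(8, -14), (9, 52), (10, 175)], [(8, -12), (9, 45), (10, 152)], [(11, 45), (12, 1584)], [(11, 52), (12, 1830)], [(13, 29)], [(13, 28)], [(13, -6)]],
  [[(4, -3), (5, 4)], [(6, -2), (7, 3)], [(8, 2), (9, -7), (10, -24)], [(8, -10), (9, 38), (10, 129)], [(11, 101), (12, 3552)], [(11, 94), (12, 3306)], [(13, 12)], [(13, 9)]],
  [[(5, 1)], [(6, -5), (7, 6)], [(8, -16), (9, 62), (10, 213)], [(8, -19), (9, 71), (10, 240)], [(11, 86), (12, 3024)], [(11, 97), (12, 3411)], [(13, -12)], [(13, -12)]],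
  [[(6, -1), (7, 2)], [(8, -20), (9, 76), (10, 259)], [(11, 95), (12, 3342)], [(11, 80), (12, 2814)], [(13, -8)], [(13, -10)]],
  [[(7, 1)], [(8, -15), (9, 57), (10, 194)], [(11, 70), (12, 2463)], [(11, 73), (12, 2568)], [(13, -4)], [(13, -5)]],
  [[(8, 4), (9, -14), (10, -47)], [(11, 66), (12, 2322)], [(13, 18)], [(13, 6)]],
  [[(9, 1), (10, 4)], [(11, 73), (12, 2568)], [(13, 12)], [(13, 3)]],
  [[(11, -16), (12, -551)], [(13, 77)]],
  [[(11, -20), (12, -694)], [(13, 61)]],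
  [[(11, 5), (12, 174)], [(13, -12)]],
  [[(13, -598)]],
  [[(13, 17)]],
  []]

/-- the degrees -/
def A1 : List ℕ := [1, 2, 3, 3, 4, 4, 5, 5, 6, 6, 6, 7, 7, 8]

lemma chk1 : chkAll T1 A1 [] 0 14 = true := by decide +kernel

lemma chkEx1 : chkEx T1 A1 [] 0 7 [(11, -216), (12, -7596)] 0 13 72 = true := by decide +kernel

theorem not_separated_one {K k : Type*} [CommRing K] [CommRing k] [Algebra K k]
    (hc : ∀ m : ℕ, (2 : k) * 6 ^ m * (Nat.factorial 7 * Nat.factorial (7 - 7) : ℕ) * (72 : ℤ) ≠ 0) :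
    ¬ Separated K (FreeAlt K ℕ) :=
  not_separated_of_chk (Int.cast_zero) chk1 chkEx1 hc

end Pool.Agent.Zk64.Alt
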