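import Pool.Agent.Zk64.Alt.Fast

/-!
# Table of dimension 79 modulo 5
-/

set_option autoImplicit false
set_option maxRecDepth 100000
set_option maxHeartbeats 4000000

namespace Pool.Agent.Zk64.Alt

/-- a row of the table -/
def R5_0 : Tr (List (ℕ × ℕ)) := .nd 39 (.nd 19 (.nd 9 (.nd 4 (.nd 2 (.nd 1 (.lf [(2, 1)]) (.lf [(3, 1)])) (.nd 3 (.lf [(7, 1)]) (.lf [(8, 1), (10, 4), (11, 1)]))) (.nd 6 (.nd 5 (.lf [(9, 1), (10, 4), (11, 1)]) (.lf [(12, 4), (14, 1), (15, 1)])) (.nd 7 (.lf [(16, 1), (17, 1), (18, 4)]) (.nd 8 (.lf [(16, 4), (18, 2)]) (.lf [(22, 1), (24, 1), (26, 4)]))))) (.nd 14 (.nd 11 (.nd 10 (.lf [(19, 1), (20, 1), (21, 4), (23, 4), (24, 1)]) (.lf [(20, 1), (24, 1), (26, 4)])) (.nd 12 (.lf [(22, 4), (23, 1), (24, 4), (25, 1), (26, 1)]) (.nd 13 (.lf [(29, 1), (30, 1), (35,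 4)]) (.lf [(28, 1), (31, 4), (32, 1), (34, 1), (36, 4)])))) (.nd 16 (.nd 15 (.lf [(28, 4), (29, 1), (30, 4), (31, 4), (34, 1), (35, 1), (36, 1)]) (.lf [(30, 1), (33, 1), (35, 4)])) (.nd 17 (.lf [(38, 3)]) (.nd 18 (.lf [(38, 4)]) (.lf [(38, 2)])))))) (.nd 29 (.nd 24 (.nd 21 (.nd 20 (.lf [(39, 1), (40, 1), (41, 2), (42, 4), (43, 4), (44, 1), (46, 4), (47, 3), (48, 4), (49, 1)]) (.lf [(39, 1), (40, 4), (42, 1), (47, 4), (50, 1)])) (.nd 22 (.lf [(40, 4), (41, 1), (42, 1), (44, 4), (49, 1)]) (.nd 23 (.lf [(39, 1), (40, 1), (41, 2), (42, 4), (43, 3), (44, 2), (46, 4), (47, 2), (50, 1)]) (.lf [(39, 3), (40, 2), (41, 4), (42, 2), (43, 2), (44, 3), (45, 4), (46, 3), (47, 1), (48, 3), (49, 2)])))) (.nd 26 (.nd 25 (.lf [(41, 4), (42, 1), (43, 4), (44, 2), (45, 4), (47, 3), (48, 2), (49,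 1), (50, 1)]) (.lf [(39, 4), (40, 4), (41, 1), (42, 4), (44, 2), (45, 3), (46, 2), (47, 2), (49, 1), (50, 1)])) (.nd 27 (.lf [(39, 1), (40, 1), (41, 2), (42, 4), (43, 3), (44, 2), (46, 3), (47, 2), (50, 2)]) (.nd 28 (.lf [(52, 2), (53, 3), (55, 4), (56, 3), (57, 3), (58, 2), (60, 1)]) (.lf [(51, 4), (56, 3), (57, 3), (58, 2), (59, 2), (60, 2)]))))) (.nd 34 (.nd 31 (.nd 30 (.lf [(51, 3), (52, 3), (53, 4), (54, 3), (55, 3), (56, 4), (57, 4), (58, 4), (59, 1), (60, 3)]) (.lf [(51, 3), (52, 1), (53, 4), (54, 1), (55, 3), (57, 4), (58, 2), (59, 4), (60, 4)])) (.nd 32 (.lf [(51, 3), (52, 3), (53, 4), (54, 3), (55, 3), (56, 4), (57, 4), (58, 4), (60, 3)]) (.nd 33 (.lf [(53, 4), (55, 1), (56, 4), (57, 2), (59, 4), (60, 4)]) (.lf [(51, 4), (53, 4), (54, 2), (55, 1), (56, 4), (57, 2),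 (58, 1), (59, 2), (60, 3)])))) (.nd 36 (.nd 35 (.lf [(51, 4), (52, 4), (54, 2), (56, 1), (58, 1), (59, 1), (60, 2)]) (.lf [(51, 3), (52, 4), (53, 3), (54, 2), (55, 3), (56, 1), (57, 1), (58, 1), (59, 3), (60, 2)])) (.nd 37 (.lf [(51, 1), (53, 2), (54, 2), (55, 1), (56, 4), (57, 1), (58, 3), (59, 2), (60, 2)]) (.nd 38 (.lf [(61, 4), (62, 4), (63, 1)]) (.lf []))))))) (.nd 59 (.nd 49 (.nd 44 (.nd 41 (.nd 40 (.lf [(64, 1), (65, 1), (66, 2)]) (.lf [(64, 4), (66, 1), (67, 4)])) (.nd 42 (.lf [(64, 2), (66, 4), (67, 2)]) (.nd 43 (.lf [(64, 3), (65, 3), (66, 2), (67, 3)]) (.lf [(64, 3), (65, 1), (66, 1), (67, 4)])))) (.nd 46 (.nd 45 (.lf [(64, 3), (65, 3), (66, 4)]) (.lf [(66, 1), (67, 2)])) (.nd 47 (.lf [(64, 2), (65, 2), (66, 2), (67, 3)]) (.nd 48 (.lf [(64, 3), (65, 1), (66, 2)]) (.lf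 [(64, 3), (66, 3)]))))) (.nd 54 (.nd 51 (.nd 50 (.lf [(64, 2), (65, 4), (67, 3)]) (.lf [(64, 1), (65, 3), (67, 4)])) (.nd 52 (.lf [(68, 2), (70, 2), (71, 3), (72, 1)]) (.nd 53 (.lf [(68, 4), (69, 3), (70, 2), (71, 4), (72, 1)]) (.lf [(68, 1), (69, 4), (70, 4), (71, 4), (72, 3)])))) (.nd 56 (.nd 55 (.lf [(68, 2), (69, 4), (70, 3), (71, 4), (72, 4)]) (.lf [(68, 2), (69, 3), (71, 3), (72, 4)])) (.nd 57 (.lf [(68, 2), (70, 1), (72, 4)]) (.nd 58 (.lf [(68, 4), (70, 3), (71, 2), (72, 2)]) (.lf [(69, 2), (70, 4), (71, 2)])))))) (.nd 69 (.nd 64 (.nd 61 (.nd 60 (.lf [(68, 4), (69, 3), (71, 3), (72, 2)]) (.lf [(68, 4), (69, 3), (70, 1), (71, 2)])) (.nd 62 (.lf [(73, 4), (74, 4)]) (.nd 63 (.lf [(73, 3), (74, 2)]) (.lf [(73, 4), (74, 4)])))) (.nd 66 (.lf []) (.nd 67 (.lf []) (.nd 68 (.lf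 []) (.lf [(76, 4)]))))) (.nd 74 (.nd 71 (.nd 70 (.lf [(75, 1), (76, 4)]) (.lf [(75, 4), (76, 2)])) (.nd 72 (.lf [(75, 4), (76, 1)]) (.nd 73 (.lf [(76, 4)]) (.lf [(77, 2)])))) (.nd 76 (.nd 75 (.lf [(77, 4)]) (.lf [])) (.nd 77 (.lf []) (.nd 78 (.lf [(78, 1)]) (.lf [])))))))

/-- a row of the table -/
def R5_1 : Tr (List (ℕ × ℕ)) := .nd 39 (.nd 19 (.nd 9 (.nd 4 (.nd 2 (.nd 1 (.lf [(4, 1)]) (.lf [(5, 1)])) (.nd 3 (.lf [(11, 1)]) (.lf [(12, 4), (13, 1), (14, 1)]))) (.nd 6 (.nd 5 (.lf [(14, 1)]) (.lf [])) (.nd 7 (.lf [(22, 1), (24, 2), (25, 4), (26, 4)]) (.nd 8 (.lf [(22, 4), (24, 4), (25, 1), (26, 2)]) (.lf [(27, 4), (28, 1), (30, 1), (31, 1), (36, 4)]))))) (.nd 14 (.nd 11 (.nd 10 (.lf [(27, 4), (28, 1), (30, 2), (31, 1), (34, 4), (35, 4)]) (.lf [(28, 1), (30, 1), (36, 4)])) (.nd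 12 (.lf [(27, 1), (28, 4), (30, 4), (31, 4), (34, 1), (35, 1), (36, 1)]) (.nd 13 (.lf []) (.lf [(37, 1)])))) (.nd 16 (.lf []) (.nd 17 (.lf [(41, 4), (42, 4), (44, 1), (45, 3), (47, 2), (48, 2), (50, 1)]) (.nd 18 (.lf [(39, 1), (40, 1), (41, 2), (42, 2), (43, 2), (44, 4), (45, 1), (46, 3), (47, 2), (49, 1), (50, 1)]) (.lf [(41, 4), (42, 3), (44, 1), (45, 3), (47, 2), (48, 2), (49, 1), (50, 1)])))))) (.nd 29 (.nd 24 (.nd 21 (.nd 20 (.lf [(51, 4), (52, 3), (53, 4), (54, 4), (57, 4), (58, 4), (59, 3), (60, 2)]) (.lf [(52, 1), (53, 1), (54, 4), (55, 4), (56, 1), (57, 4), (58, 4), (59, 1), (60, 3)])) (.nd 22 (.lf [(51, 2), (52, 2), (53, 2), (54, 1), (56, 4), (57, 3), (58, 2), (59, 3)]) (.nd 23 (.lf [(51, 4), (52, 4), (53, 4), (54, 1), (56, 4), (57, 1), (58, 2), (59, 4), (60, 3)]) (.lf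 [(51, 3), (52, 3), (53, 4), (54, 4), (55, 1), (56, 2), (57, 2), (58, 4)])))) (.nd 26 (.nd 25 (.lf [(51, 3), (53, 3), (54, 4), (55, 3), (56, 1), (59, 4), (60, 1)]) (.lf [(51, 1), (52, 4), (54, 3), (55, 2), (57, 2), (59, 4), (60, 1)])) (.nd 27 (.lf [(51, 1), (53, 2), (54, 3), (55, 2), (56, 3), (57, 1), (58, 2), (59, 2), (60, 2)]) (.nd 28 (.lf [(61, 4), (62, 1), (63, 4)]) (.lf []))))) (.nd 34 (.nd 31 (.nd 30 (.lf [(62, 4), (63, 1)]) (.lf [(61, 4), (62, 1), (63, 4)])) (.nd 32 (.lf [(63, 1)]) (.nd 33 (.lf [(61, 2), (62, 4), (63, 2)]) (.lf [(61, 4), (62, 4), (63, 4)])))) (.nd 36 (.nd 35 (.lf [(61, 2), (62, 2), (63, 4)]) (.lf [])) (.nd 37 (.lf [(62, 1), (63, 4)]) (.nd 38 (.lf []) (.lf [(64, 2), (65, 1), (66, 2)]))))))) (.nd 59 (.nd 49 (.nd 44 (.nd 41 (.nd 40 (.lf [(68, 3), (70, 4)])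 (.lf [(68, 4), (69, 2), (70, 2), (72, 3)])) (.nd 42 (.lf [(68, 1), (70, 2), (71, 1), (72, 4)]) (.nd 43 (.lf [(68, 2), (69, 3), (70, 2), (71, 1), (72, 1)]) (.lf [(68, 4), (69, 3), (70, 1), (71, 3)])))) (.nd 46 (.lf [(68, 1), (69, 2), (70, 2), (71, 1), (72, 3)]) (.nd 47 (.lf [(68, 2), (71, 1), (72, 3)]) (.nd 48 (.lf [(68, 2), (69, 4), (70, 1), (71, 2)]) (.lf [(68, 1), (69, 2), (70, 4), (72, 3)]))))) (.nd 54 (.nd 51 (.nd 50 (.lf [(68, 2), (69, 3), (70, 1)]) (.lf [(68, 4), (69, 2), (70, 3), (71, 1), (72, 1)])) (.nd 52 (.lf [(74, 1)]) (.nd 53 (.lf [(73, 1), (74, 4)]) (.lf [(73, 4)])))) (.nd 56 (.nd 55 (.lf [(73, 1)]) (.lf [(73, 4), (74, 2)])) (.nd 57 (.lf [(73, 4), (74, 4)]) (.nd 58 (.lf [(73, 1)]) (.lf [(73, 3), (74, 2)])))))) (.nd 69 (.nd 64 (.nd 61 (.nd 60 (.lf [(73, 1), (74, 2)])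 (.lf [(73, 2), (74, 2)])) (.lf [])) (.nd 66 (.nd 65 (.lf [(75, 4), (76, 1)]) (.lf [(75, 2), (76, 3)])) (.nd 67 (.lf []) (.nd 68 (.lf [(76, 2)]) (.lf [(77, 1)]))))) (.nd 74 (.nd 71 (.lf [(77, 1)]) (.nd 72 (.lf [(77, 1)]) (.nd 73 (.lf [(77, 4)]) (.lf [])))) (.nd 76 (.nd 75 (.lf []) (.lf [(78, 3)])) (.nd 77 (.lf [(78, 3)]) (.lf []))))))

/-- a row of the table -/
def R5_2 : Tr (List (ℕ × ℕ)) := .nd 39 (.nd 19 (.nd 9 (.nd 4 (.nd 2 (.nd 1 (.lf [(6, 1)]) (.lf [(8, 1)])) (.nd 3 (.lf [(18, 1)]) (.lf [(24, 4), (25, 1), (26, 1)]))) (.nd 6 (.nd 5 (.lf [(19, 1), (22, 4), (24, 4), (25, 1), (26, 1)]) (.lf [(27, 1), (28, 4), (30, 4), (31, 4), (33, 1), (34, 1), (36, 1)])) (.nd 7 (.lf []) (.nd 8 (.lf [(38, 1)]) (.lf [(39, 4), (40, 4), (41, 2), (42, 3), (43, 1), (45, 4), (46, 2), (48, 3)])))))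 (.nd 14 (.nd 11 (.nd 10 (.lf [(39, 4), (40, 4), (41, 2), (42, 3), (43, 1), (44, 1), (46, 1), (47, 4), (48, 3), (49, 4), (50, 1)]) (.lf [(40, 4), (41, 2), (42, 3), (43, 1), (45, 4), (46, 2), (48, 2)])) (.nd 12 (.lf [(39, 2), (40, 1), (41, 2), (42, 3), (43, 3), (44, 2), (46, 4), (47, 3), (48, 4), (49, 1)]) (.nd 13 (.lf [(51, 3), (52, 3), (53, 3), (54, 3), (55, 4), (57, 3), (58, 3), (59, 2), (60, 4)]) (.lf [(52, 2), (53, 3), (54, 2), (55, 1), (56, 3), (57, 2), (59, 3)])))) (.nd 16 (.nd 15 (.lf [(51, 3), (53, 3), (54, 3), (55, 2), (56, 3), (57, 2), (59, 2), (60, 2)]) (.lf [(51, 1), (52, 4), (53, 1), (54, 4), (55, 3), (56, 4), (58, 3), (59, 3), (60, 2)])) (.lf [])))) (.nd 29 (.nd 24 (.nd 21 (.nd 20 (.lf [(64, 3), (65, 1), (66, 4), (67, 3)]) (.lf [(65, 4), (67, 1)])) (.nd 22 (.lf [(64,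 4), (65, 2), (66, 2)]) (.nd 23 (.lf [(64, 4), (66, 4), (67, 1)]) (.lf [(64, 1), (65, 3), (66, 2), (67, 1)])))) (.nd 26 (.nd 25 (.lf [(65, 2), (66, 4), (67, 3)]) (.lf [(64, 2), (65, 1), (66, 2), (67, 2)])) (.nd 27 (.lf [(64, 4), (65, 4), (66, 3), (67, 4)]) (.nd 28 (.lf [(68, 4), (69, 3), (70, 4), (71, 1)]) (.lf [(68, 4), (70, 2), (71, 4)]))))) (.nd 34 (.nd 31 (.nd 30 (.lf [(69, 1), (70, 3), (71, 1), (72, 4)]) (.lf [(69, 3), (70, 1), (71, 3), (72, 2)])) (.nd 32 (.lf [(68, 1), (70, 2), (72, 2)]) (.nd 33 (.lf [(68, 4), (69, 1), (70, 4), (71, 4), (72, 2)]) (.lf [(68, 4), (69, 3), (70, 3), (71, 1)])))) (.nd 36 (.nd 35 (.lf [(68, 2), (69, 3), (70, 2), (71, 3), (72, 1)]) (.lf [(68, 3), (69, 3), (70, 4), (71, 2)])) (.nd 37 (.lf [(68, 3), (69, 3), (70, 4), (71, 1), (72, 1)]) (.nd 38 (.lf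 [(73, 2), (74, 3)]) (.lf []))))))) (.nd 59 (.nd 49 (.lf []) (.nd 54 (.nd 51 (.lf []) (.nd 52 (.lf [(75, 2)]) (.nd 53 (.lf [(75, 1), (76, 3)]) (.lf [(75, 1), (76, 4)])))) (.nd 56 (.nd 55 (.lf [(75, 2), (76, 1)]) (.lf [(76, 4)])) (.nd 57 (.lf [(75, 4), (76, 3)]) (.nd 58 (.lf [(75, 2), (76, 4)]) (.lf [(75, 2), (76, 2)])))))) (.nd 69 (.nd 64 (.nd 61 (.nd 60 (.lf [(76, 3)]) (.lf [(75, 3), (76, 4)])) (.nd 62 (.lf []) (.nd 63 (.lf []) (.lf [(77, 2)])))) (.lf [])) (.nd 74 (.nd 71 (.lf []) (.nd 72 (.lf []) (.nd 73 (.lf []) (.lf [(78, 1)])))) (.nd 76 (.nd 75 (.lf [(78, 1)]) (.lf [])) (.lf [])))))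

/-- a row of the table -/
def R5_3 : Tr (List (ℕ × ℕ)) := .nd 39 (.nd 19 (.nd 9 (.nd 4 (.nd 2 (.nd 1 (.lf [(9, 1)]) (.lf [(15, 1)])) (.nd 3 (.lf [(23, 1)]) (.lf [(30, 4), (31, 4), (32, 1), (34, 1), (35, 1)]))) (.nd 6 (.nd 5 (.lf [(29, 1), (30, 4), (31, 4), (34, 1), (35, 1)]) (.lf [])) (.nd 7 (.lf [(39, 1), (40, 1), (41, 3), (42, 1), (43, 4), (45, 1), (46, 4), (47, 2), (48, 2), (49, 1), (50, 4)]) (.nd 8 (.lf [(39, 4), (40, 4), (41, 2), (42, 4), (43, 1), (45, 4), (46, 1), (47, 4), (48, 3), (49, 4), (50, 2)]) (.lf [(51, 4), (53, 4), (54, 4), (55, 2), (57, 3), (58, 4), (59, 1), (60, 3)]))))) (.nd 14 (.nd 11 (.nd 10 (.lf [(54, 4), (55, 4), (56, 1), (57, 1), (58, 1)]) (.lf [(51, 4), (54, 4), (55, 2), (57, 3), (58, 4), (59, 1), (60, 3)])) (.nd 12 (.lf [(51, 1), (53, 2), (54, 2), (55,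 3), (56, 1), (59, 1), (60, 3)]) (.nd 13 (.lf [(61, 1), (62, 4), (63, 1)]) (.lf [(62, 4), (63, 1)])))) (.nd 16 (.nd 15 (.lf [(61, 1), (62, 4), (63, 1)]) (.lf [(62, 1), (63, 4)])) (.nd 17 (.lf [(64, 4), (65, 1), (66, 4)]) (.nd 18 (.lf [(65, 1), (66, 1), (67, 3)]) (.lf [(64, 4), (65, 3), (66, 3), (67, 2)])))))) (.nd 29 (.nd 24 (.nd 21 (.nd 20 (.lf [(69, 3), (71, 2), (72, 4)]) (.lf [(68, 3), (69, 4), (70, 4), (72, 1)])) (.nd 22 (.lf [(68, 2), (69, 4), (70, 2), (71, 4), (72, 3)]) (.nd 23 (.lf [(69, 1), (71, 3), (72, 4)]) (.lf [(68, 4), (70, 1), (71, 3), (72, 1)])))) (.nd 26 (.nd 25 (.lf [(68, 4), (70, 3), (72, 2)]) (.lf [(68, 4), (69, 2), (70, 2), (71, 4), (72, 4)])) (.nd 27 (.lf [(68, 2), (69, 3), (70, 2), (71, 3)]) (.lf [(73, 1), (74, 4)])))) (.nd 34 (.nd 31 (.nd 30 (.lf [(74, 3)])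 (.lf [(73, 2), (74, 3)])) (.nd 32 (.lf [(73, 3), (74, 1)]) (.nd 33 (.lf [(74, 4)]) (.lf [(73, 1), (74, 3)])))) (.nd 36 (.nd 35 (.lf [(73, 1), (74, 3)]) (.lf [(73, 1)])) (.nd 37 (.lf [(73, 1), (74, 4)]) (.lf [])))))) (.nd 59 (.nd 49 (.nd 44 (.nd 41 (.nd 40 (.lf [(75, 4), (76, 3)]) (.lf [(75, 1), (76, 2)])) (.nd 42 (.lf [(75, 4), (76, 2)]) (.nd 43 (.lf [(76, 2)]) (.lf [(75, 1), (76, 4)])))) (.nd 46 (.nd 45 (.lf [(75, 1), (76, 3)]) (.lf [(76, 4)])) (.nd 47 (.lf [(75, 2)]) (.nd 48 (.lf [(75, 2)]) (.lf [(75, 3), (76, 1)]))))) (.nd 54 (.nd 51 (.nd 50 (.lf [(75, 1), (76, 2)]) (.lf [(75, 2), (76, 3)])) (.nd 52 (.lf [(77, 4)]) (.nd 53 (.lf [(77, 2)]) (.lf [(77, 1)])))) (.nd 56 (.nd 55 (.lf [(77, 2)]) (.lf [(77, 3)])) (.nd 57 (.lf [(77, 3)]) (.nd 58 (.lf []) (.lf [(77, 2)])))))) (.nd 69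 (.nd 64 (.nd 61 (.lf [(77, 4)]) (.lf [])) (.nd 66 (.lf []) (.nd 67 (.lf []) (.nd 68 (.lf []) (.lf [(78, 3)]))))) (.nd 74 (.nd 71 (.nd 70 (.lf [(78, 3)]) (.lf [(78, 1)])) (.nd 72 (.lf []) (.nd 73 (.lf [(78, 3)]) (.lf [])))) (.lf []))))

/-- a row of the table -/
def R5_4 : Tr (List (ℕ × ℕ)) := .nd 39 (.nd 19 (.nd 9 (.nd 4 (.nd 2 (.nd 1 (.lf [(10, 1)]) (.lf [(13, 1)])) (.nd 3 (.lf [(26, 1)]) (.lf [(28, 4), (31, 1), (36, 1)]))) (.nd 6 (.nd 5 (.lf [(36, 1)]) (.lf [])) (.nd 7 (.lf [(39, 1), (40, 1), (41, 3), (42, 1), (43, 3), (44, 2), (45, 2), (46, 3), (48, 3)]) (.nd 8 (.lf [(39, 4), (40, 4), (41, 2), (42, 4), (43, 2), (44, 4), (45, 3), (46, 2), (48, 2), (49, 1)]) (.lf [(51, 1), (52, 2), (53, 1), (54, 4), (55, 2), (56, 2), (57, 1), (58, 1), (59, 3), (60, 4)]))))) (.nd 14 (.nd 11 (.nd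 10 (.lf [(51, 1), (52, 4), (53, 1), (55, 3), (57, 3), (58, 2), (59, 4), (60, 3)]) (.lf [(60, 1)])) (.nd 12 (.lf [(51, 1), (52, 2), (53, 1), (55, 3), (56, 4), (59, 4), (60, 4)]) (.nd 13 (.lf [(62, 4), (63, 1)]) (.lf [(63, 1)])))) (.nd 16 (.nd 15 (.lf [(61, 4)]) (.lf [(61, 3), (62, 1), (63, 2)])) (.nd 17 (.lf [(64, 4), (65, 4), (66, 4)]) (.nd 18 (.lf [(65, 4), (67, 3)]) (.lf [(64, 3), (65, 4), (66, 3), (67, 2)])))))) (.nd 29 (.nd 24 (.nd 21 (.nd 20 (.lf [(68, 1), (70, 2), (71, 1), (72, 2)]) (.lf [(68, 1), (69, 3), (71, 4)])) (.nd 22 (.lf [(68, 4), (70, 3)]) (.nd 23 (.lf [(68, 2), (69, 1), (70, 2), (71, 2), (72, 3)]) (.lf [(69, 4), (70, 1), (71, 4), (72, 4)])))) (.nd 26 (.nd 25 (.lf [(68, 1), (69, 1), (70, 2), (72, 2)]) (.lf [(68, 4), (70, 1), (71, 1), (72, 4)])) (.nd 27 (.lf [(68,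 1), (71, 4), (72, 2)]) (.nd 28 (.lf [(73, 4), (74, 4)]) (.lf [(73, 3), (74, 2)]))))) (.nd 34 (.nd 31 (.nd 30 (.lf [(73, 2), (74, 4)]) (.lf [(73, 4), (74, 2)])) (.nd 32 (.lf [(73, 1), (74, 3)]) (.nd 33 (.lf [(73, 2), (74, 4)]) (.lf [(73, 3), (74, 2)])))) (.nd 36 (.nd 35 (.lf [(73, 4), (74, 2)]) (.lf [(73, 1), (74, 1)])) (.nd 37 (.lf [(73, 3), (74, 4)]) (.lf [])))))) (.nd 59 (.nd 49 (.nd 44 (.nd 41 (.nd 40 (.lf [(75, 4), (76, 2)]) (.lf [(75, 2), (76, 4)])) (.nd 42 (.lf [(76, 3)]) (.nd 43 (.lf [(75, 3), (76, 1)]) (.lf [(75, 1)])))) (.nd 46 (.nd 45 (.lf [(76, 1)]) (.lf [(75, 1), (76, 4)])) (.nd 47 (.lf [(76, 3)]) (.nd 48 (.lf [(76, 3)]) (.lf [(75, 2), (76, 2)]))))) (.nd 54 (.nd 51 (.nd 50 (.lf []) (.lf [(75, 4), (76, 1)])) (.nd 52 (.lf [(77, 1)]) (.nd 53 (.lf [(77, 1)]) (.lf [(77,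 3)])))) (.nd 56 (.nd 55 (.lf [(77, 4)]) (.lf [(77, 1)])) (.nd 57 (.lf [(77, 3)]) (.nd 58 (.lf []) (.lf [(77, 1)])))))) (.nd 69 (.nd 64 (.nd 61 (.lf [(77, 2)]) (.lf [])) (.nd 66 (.lf []) (.nd 67 (.lf []) (.nd 68 (.lf []) (.lf [(78, 4)]))))) (.nd 74 (.nd 71 (.nd 70 (.lf [(78, 2)]) (.lf [(78, 3)])) (.nd 72 (.lf [(78, 4)]) (.nd 73 (.lf [(78, 1)]) (.lf [])))) (.lf []))))

/-- a row of the table -/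
def R5_5 : Tr (List (ℕ × ℕ)) := .nd 39 (.nd 19 (.nd 9 (.nd 4 (.nd 2 (.nd 1 (.lf [(12, 1)]) (.lf [])) (.nd 3 (.lf [(35, 1)]) (.lf [(37, 1)]))) (.nd 6 (.lf []) (.nd 7 (.lf [(51, 3), (52, 1), (53, 2), (54, 1), (57, 3), (58, 3), (59, 4), (60, 2)]) (.nd 8 (.lf [(51, 3), (52, 1), (54, 3), (55, 4), (56, 3), (57, 2), (58, 4), (59, 1), (60, 4)]) (.lf [(62, 2), (63, 4)]))))) (.nd 14 (.nd 11 (.lf [(62, 1), (63, 4)]) (.lf [])) (.nd 16 (.lf []) (.nd 17 (.lf [(69, 4), (70, 2), (71, 3), (72, 4)]) (.nd 18 (.lf [(68, 3), (69, 2), (70, 4), (71, 1)]) (.lf [(68, 3), (69, 4), (70, 4), (72, 1)])))))) (.nd 29 (.nd 24 (.nd 21 (.nd 20 (.lf [(73, 4), (74, 2)]) (.lf [])) (.nd 22 (.lf [(73, 1), (74, 2)]) (.nd 23 (.lf [(73, 3), (74, 1)]) (.lf [])))) (.nd 26 (.nd 25 (.lf [(73, 1), (74, 1)]) (.lf [(73, 1),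 (74, 4)])) (.nd 27 (.lf [(73, 4), (74, 4)]) (.lf [])))) (.lf []))) (.nd 59 (.nd 49 (.nd 44 (.nd 41 (.lf [(77, 2)]) (.nd 42 (.lf [(77, 4)]) (.nd 43 (.lf [(77, 3)]) (.lf [(77, 1)])))) (.nd 46 (.nd 45 (.lf []) (.lf [(77, 1)])) (.nd 47 (.lf [(77, 2)]) (.nd 48 (.lf [(77, 1)]) (.lf [(77, 2)]))))) (.nd 54 (.nd 51 (.lf [(77, 3)]) (.lf [])) (.lf []))) (.nd 69 (.nd 64 (.lf []) (.nd 66 (.nd 65 (.lf [(78, 2)]) (.lf [])) (.nd 67 (.lf [(78, 3)]) (.nd 68 (.lf [(78, 1)]) (.lf []))))) (.lf [])))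

/-- a row of the table -/
def R5_6 : Tr (List (ℕ × ℕ)) := .nd 39 (.nd 19 (.nd 9 (.nd 4 (.nd 2 (.nd 1 (.lf [(16, 1)]) (.lf [(22, 1)])) (.nd 3 (.lf [(38, 1)]) (.lf [(41, 4), (42, 2), (43, 4), (44, 2), (45, 4), (47, 2), (48, 3), (50, 1)]))) (.nd 6 (.nd 5 (.lf [(41, 4), (42, 2), (44, 2), (45, 4), (47, 2), (48, 2), (50, 1)]) (.lf [(51, 3), (53, 4), (54, 3), (55, 1), (56, 2), (57, 2), (58, 2), (59, 4), (60, 3)])) (.nd 7 (.lf []) (.nd 8 (.lf []) (.lf [(64, 1), (65, 3), (66, 1), (67, 4)]))))) (.nd 14 (.nd 11 (.nd 10 (.lf [(64, 2), (65, 2), (66, 3), (67, 1)]) (.lf [(64, 1), (65, 3), (66, 1), (67, 2)])) (.nd 12 (.lf [(64, 1), (65, 3), (66, 2), (67, 1)]) (.nd 13 (.lf [(68, 4), (70, 1), (72, 4)]) (.lf [(68, 3), (69, 1), (70, 1), (71, 4), (72, 4)])))) (.nd 16 (.nd 15 (.lf [(69, 1), (70,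 4), (71, 3)]) (.lf [(68, 4), (69, 2), (70, 2), (71, 1), (72, 1)])) (.lf [])))) (.nd 29 (.nd 24 (.lf []) (.nd 26 (.lf []) (.nd 27 (.lf []) (.nd 28 (.lf [(75, 3), (76, 2)]) (.lf [(75, 2), (76, 4)]))))) (.nd 34 (.nd 31 (.nd 30 (.lf [(75, 2), (76, 3)]) (.lf [(76, 3)])) (.nd 32 (.lf [(75, 2), (76, 3)]) (.nd 33 (.lf [(75, 3), (76, 3)]) (.lf [(75, 4)])))) (.nd 36 (.nd 35 (.lf [(75, 3), (76, 4)]) (.lf [(75, 4), (76, 3)])) (.nd 37 (.lf [(75, 3), (76, 2)]) (.nd 38 (.lf [(77, 2)]) (.lf []))))))) (.nd 59 (.lf []) (.nd 69 (.nd 64 (.nd 61 (.lf []) (.nd 62 (.lf [(78, 2)]) (.nd 63 (.lf [(78, 4)]) (.lf [])))) (.lf [])) (.lf [])))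

/-- a row of the table -/
def R5_7 : Tr (List (ℕ × ℕ)) := .nd 39 (.nd 19 (.nd 9 (.nd 4 (.nd 2 (.nd 1 (.lf [(17, 1)]) (.lf [(25, 1)])) (.nd 3 (.lf [(38, 2)]) (.lf [(39, 1), (40, 1), (41, 2), (42, 3), (43, 3), (44, 2), (46, 4), (47, 2), (49, 1), (50, 1)]))) (.nd 6 (.nd 5 (.lf [(39, 1), (40, 1), (41, 2), (42, 3), (43, 3), (44, 2), (45, 1), (46, 3), (47, 2), (49, 1), (50, 1)]) (.lf [(51, 2), (52, 3), (53, 3), (54, 3), (57, 2), (58, 2), (59, 3), (60, 1)])) (.nd 7 (.lf []) (.nd 8 (.lf []) (.lf [(64, 3), (65, 3), (66, 3), (67, 3)]))))) (.nd 14 (.nd 11 (.nd 10 (.lf [(64, 2), (65, 2), (66, 1), (67, 2)]) (.lf [(64, 2), (65, 3), (66, 3)])) (.nd 12 (.lf [(64, 2), (65, 3), (66, 3), (67, 1)]) (.nd 13 (.lf [(68, 4), (70, 2)]) (.lf [(68, 1), (69, 3), (70, 2), (72, 1)])))) (.nd 16 (.nd 15 (.lf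 [(68, 2), (69, 3), (70, 2), (72, 4)]) (.lf [(68, 3), (69, 3), (70, 2), (71, 3), (72, 4)])) (.lf [])))) (.nd 29 (.nd 24 (.lf []) (.nd 26 (.lf []) (.nd 27 (.lf []) (.nd 28 (.lf [(76, 3)]) (.lf [(75, 3), (76, 4)]))))) (.nd 34 (.nd 31 (.nd 30 (.lf []) (.lf [(75, 1), (76, 2)])) (.nd 32 (.lf [(75, 1), (76, 1)]) (.nd 33 (.lf [(75, 1)]) (.lf [(75, 2), (76, 2)])))) (.nd 36 (.nd 35 (.lf [(75, 3), (76, 2)]) (.lf [(75, 4)])) (.nd 37 (.lf [(75, 3)]) (.nd 38 (.lf [(77, 1)]) (.lf []))))))) (.nd 59 (.lf []) (.nd 69 (.nd 64 (.nd 61 (.lf []) (.nd 62 (.lf [(78, 1)]) (.nd 63 (.lf [(78, 1)]) (.lf [])))) (.lf [])) (.lf [])))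

/-- a row of the table -/
def R5_8 : Tr (List (ℕ × ℕ)) := .nd 39 (.nd 19 (.nd 9 (.nd 4 (.nd 2 (.nd 1 (.lf [(19, 1)]) (.lf [(33, 1)])) (.nd 3 (.lf [(39, 2), (40, 1), (41, 2), (42, 3), (43, 3), (44, 2), (46, 4), (47, 3), (48, 4), (49, 1)]) (.lf [(51, 3), (52, 1), (54, 2), (55, 4), (56, 3), (57, 1), (58, 3), (59, 4), (60, 3)]))) (.nd 6 (.nd 5 (.lf [(52, 2), (53, 4), (54, 3), (55, 4), (57, 4), (58, 4), (59, 4), (60, 3)]) (.lf [])) (.nd 7 (.lf [(64, 4), (65, 4), (66, 3)]) (.nd 8 (.lf [(64, 4), (65, 4), (66, 3), (67, 4)]) (.lf [(68, 4), (69, 3), (71, 2), (72, 4)]))))) (.nd 14 (.nd 11 (.nd 10 (.lf [(68, 1), (69, 4), (70, 2), (71, 1), (72, 2)]) (.lf [(68, 1), (69, 1), (70, 1), (71, 2), (72, 1)])) (.nd 12 (.lf [(68, 3), (69, 3), (70, 4), (71, 2)]) (.nd 13 (.lf [(73, 1)]) (.lf [(73, 2),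 (74, 2)])))) (.nd 16 (.nd 15 (.lf [(73, 1)]) (.lf [(73, 4), (74, 4)])) (.lf [])))) (.nd 29 (.nd 24 (.nd 21 (.nd 20 (.lf [(75, 4), (76, 4)]) (.lf [(75, 4)])) (.nd 22 (.lf [(75, 4), (76, 4)]) (.nd 23 (.lf [(75, 3), (76, 2)]) (.lf [(75, 1)])))) (.nd 26 (.lf [(76, 1)]) (.nd 27 (.lf [(75, 4)]) (.nd 28 (.lf [(77, 3)]) (.lf []))))) (.nd 34 (.nd 31 (.nd 30 (.lf [(77, 2)]) (.lf [(77, 3)])) (.nd 32 (.lf [(77, 2)]) (.nd 33 (.lf [(77, 4)]) (.lf [(77, 3)])))) (.nd 36 (.nd 35 (.lf [(77, 3)]) (.lf [])) (.nd 37 (.lf [(77, 3)]) (.lf [])))))) (.nd 59 (.nd 49 (.lf []) (.nd 54 (.nd 51 (.lf []) (.lf [(78, 1)])) (.nd 56 (.nd 55 (.lf [(78, 1)]) (.lf [(78, 4)])) (.nd 57 (.lf [(78, 4)]) (.nd 58 (.lf [(78, 3)]) (.lf [(78, 2)])))))) (.nd 69 (.nd 64 (.nd 61 (.nd 60 (.lf [(78, 4)]) (.lf [(78, 2)])) (.lf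 [])) (.lf [])) (.lf [])))

/-- a row of the table -/
def R5_9 : Tr (List (ℕ × ℕ)) := .nd 39 (.nd 19 (.nd 9 (.nd 4 (.nd 2 (.nd 1 (.lf [(20, 1)]) (.lf [(32, 1)])) (.nd 3 (.lf [(50, 1)]) (.lf [(51, 1), (53, 1), (54, 2), (55, 3), (56, 1), (59, 1), (60, 3)]))) (.nd 6 (.nd 5 (.lf [(51, 1), (53, 1), (54, 2), (55, 3), (56, 2), (59, 1), (60, 3)]) (.lf [(61, 1)])) (.nd 7 (.lf [(64, 1), (65, 3), (66, 2), (67, 3)]) (.nd 8 (.lf [(64, 4), (65, 3), (66, 2), (67, 2)]) (.lf [(68, 1), (69, 4), (70, 2), (71, 4)]))))) (.nd 14 (.nd 11 (.nd 10 (.lf [(68, 3), (69, 4), (71, 4), (72, 2)]) (.lf [(68, 2), (69, 1), (71, 4), (72, 3)])) (.nd 12 (.lf [(68, 3), (69, 2), (70, 4), (71, 2)]) (.nd 13 (.lf [(73, 1), (74, 1)]) (.lf [(73, 2), (74, 1)])))) (.nd 16 (.nd 15 (.lf [(73, 1), (74, 3)]) (.lf [(73, 2), (74,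 4)])) (.lf [])))) (.nd 29 (.nd 24 (.nd 21 (.nd 20 (.lf [(75, 2)]) (.lf [(76, 4)])) (.nd 22 (.lf [(75, 1), (76, 3)]) (.nd 23 (.lf []) (.lf [(75, 3), (76, 1)])))) (.nd 26 (.nd 25 (.lf [(76, 2)]) (.lf [(75, 2), (76, 3)])) (.nd 27 (.lf [(75, 1), (76, 2)]) (.nd 28 (.lf []) (.lf [(77, 2)]))))) (.nd 34 (.nd 31 (.nd 30 (.lf [(77, 1)]) (.lf [(77, 2)])) (.nd 32 (.lf [(77, 3)]) (.nd 33 (.lf []) (.lf [(77, 1)])))) (.nd 36 (.nd 35 (.lf [(77, 3)]) (.lf [])) (.nd 37 (.lf [(77, 1)]) (.lf [])))))) (.nd 59 (.nd 49 (.lf []) (.nd 54 (.nd 51 (.lf []) (.nd 52 (.lf [(78, 2)]) (.nd 53 (.lf []) (.lf [(78, 3)])))) (.nd 56 (.nd 55 (.lf []) (.lf [(78, 2)])) (.nd 57 (.lf [(78, 3)]) (.nd 58 (.lf [(78, 4)]) (.lf [])))))) (.nd 69 (.nd 64 (.nd 61 (.nd 60 (.lf []) (.lf [(78, 2)])) (.lf [])) (.lf [])) (.lf [])))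

/-- a row of the table -/
def R5_10 : Tr (List (ℕ × ℕ)) := .nd 39 (.nd 19 (.nd 9 (.nd 4 (.nd 2 (.nd 1 (.lf [(21, 1)]) (.lf [(31, 1)])) (.nd 3 (.lf [(49, 1)]) (.lf [(51, 3), (52, 4), (53, 3), (54, 4), (55, 2), (56, 1), (57, 4), (58, 3), (59, 1), (60, 4)]))) (.nd 6 (.nd 5 (.lf [(51, 2), (52, 1), (53, 2), (55, 1), (56, 4), (57, 3), (58, 2), (59, 3), (60, 1)]) (.lf [(61, 2), (62, 1), (63, 2)])) (.nd 7 (.lf [(64, 2), (65, 4), (66, 2), (67, 1)]) (.nd 8 (.lf [(64, 1), (65, 1), (67, 2)]) (.lf [(68, 1), (69, 4), (70, 4), (72, 4)]))))) (.nd 14 (.nd 11 (.nd 10 (.lf [(68, 2), (69, 1), (70, 2)]) (.lf [(68, 3), (70, 1), (72, 2)])) (.nd 12 (.lf [(68, 4), (69, 2), (70, 3), (71, 4)]) (.nd 13 (.lf [(73, 1)]) (.lf [(73, 2), (74, 4)])))) (.nd 16 (.nd 15 (.lf [(73, 2), (74, 2)]) (.lf [(73, 2)]))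 (.lf [])))) (.nd 29 (.nd 24 (.nd 21 (.nd 20 (.lf []) (.lf [(75, 4), (76, 1)])) (.nd 22 (.lf [(75, 1)]) (.nd 23 (.lf [(76, 3)]) (.lf [(75, 4), (76, 3)])))) (.nd 26 (.nd 25 (.lf [(75, 4), (76, 1)]) (.lf [(75, 3), (76, 3)])) (.nd 27 (.lf [(75, 4), (76, 3)]) (.nd 28 (.lf [(77, 1)]) (.lf [(77, 4)]))))) (.nd 34 (.nd 31 (.lf [(77, 4)]) (.nd 32 (.lf [(77, 2)]) (.nd 33 (.lf [(77, 3)]) (.lf [])))) (.nd 36 (.nd 35 (.lf [(77, 1)]) (.lf [(77, 4)])) (.nd 37 (.lf [(77, 4)]) (.lf [])))))) (.nd 59 (.nd 49 (.lf []) (.nd 54 (.nd 51 (.lf []) (.nd 52 (.lf [(78, 4)]) (.nd 53 (.lf [(78, 4)]) (.lf [(78, 3)])))) (.nd 56 (.lf []) (.nd 57 (.lf []) (.nd 58 (.lf [(78, 2)]) (.lf [])))))) (.nd 69 (.nd 64 (.nd 61 (.lf [(78, 1)]) (.lf [])) (.lf [])) (.lf [])))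

/-- a row of the table -/
def R5_11 : Tr (List (ℕ × ℕ)) := .nd 39 (.nd 19 (.nd 9 (.nd 4 (.nd 2 (.nd 1 (.lf [(24, 1)]) (.lf [(34, 1)])) (.nd 3 (.lf [(41, 4), (42, 3), (44, 1), (45, 3), (47, 2), (48, 2), (49, 1), (50, 1)]) (.lf [(51, 1), (52, 2), (53, 2), (54, 2), (55, 1), (57, 3), (58, 1), (59, 1), (60, 2)]))) (.nd 6 (.nd 5 (.lf [(51, 2), (52, 1), (53, 3), (55, 4), (56, 1), (57, 4), (59, 4)]) (.lf [(61, 1), (62, 2), (63, 1)])) (.nd 7 (.lf [(64, 4), (66, 4), (67, 1)]) (.nd 8 (.lf [(64, 4), (65, 4), (66, 4), (67, 2)]) (.lf [(69, 3), (70, 2), (71, 2), (72, 4)]))))) (.nd 14 (.nd 11 (.nd 10 (.lf [(68, 1), (69, 1), (70, 4), (71, 2), (72, 2)]) (.lf [(68, 3), (69, 1), (70, 3), (71, 3), (72, 2)])) (.nd 12 (.lf [(68, 1), (69, 3), (70, 2), (71, 4), (72, 2)]) (.nd 13 (.lf [(74, 1)]) (.lf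 [(73, 2), (74, 4)])))) (.nd 16 (.nd 15 (.lf [(73, 2), (74, 2)]) (.lf [(73, 2), (74, 1)])) (.lf [])))) (.nd 29 (.nd 24 (.nd 21 (.nd 20 (.lf [(76, 3)]) (.lf [(75, 3), (76, 3)])) (.nd 22 (.lf [(75, 2), (76, 3)]) (.nd 23 (.lf [(75, 2), (76, 2)]) (.lf [(76, 2)])))) (.nd 26 (.nd 25 (.lf [(75, 3), (76, 3)]) (.lf [(75, 4)])) (.nd 27 (.lf [(75, 4), (76, 4)]) (.nd 28 (.lf [(77, 2)]) (.lf []))))) (.nd 34 (.nd 31 (.nd 30 (.lf [(77, 1)]) (.lf [])) (.lf [(77, 1)])) (.nd 36 (.nd 35 (.lf [(77, 4)]) (.lf [(77, 2)])) (.lf []))))) (.nd 59 (.nd 49 (.lf []) (.nd 54 (.nd 51 (.lf []) (.nd 52 (.lf [(78, 1)]) (.nd 53 (.lf [(78, 1)]) (.lf [(78, 3)])))) (.nd 56 (.lf [(78, 4)]) (.nd 57 (.lf []) (.nd 58 (.lf [(78, 1)]) (.lf [])))))) (.nd 69 (.nd 64 (.nd 61 (.lf [(78, 3)]) (.lf [])) (.lf [])) (.lf [])))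

/-- a row of the table -/
def R5_12 : Tr (List (ℕ × ℕ)) := .nd 39 (.nd 19 (.nd 9 (.nd 4 (.nd 2 (.nd 1 (.lf [(27, 1)]) (.lf [(37, 1)])) (.nd 3 (.lf [(51, 1), (52, 2), (53, 2), (54, 4), (55, 4), (56, 3), (57, 4), (58, 2), (60, 1)]) (.lf [(61, 4), (62, 2), (63, 4)]))) (.nd 6 (.nd 5 (.lf [(62, 1), (63, 4)]) (.lf [])) (.nd 7 (.lf [(68, 2), (69, 2), (70, 1), (71, 4), (72, 2)]) (.nd 8 (.lf [(68, 1), (70, 2), (72, 2)]) (.lf [(73, 1), (74, 3)]))))) (.nd 14 (.nd 11 (.nd 10 (.lf [(73, 4), (74, 2)]) (.lf [(73, 1), (74, 1)])) (.lf [])) (.nd 16 (.lf []) (.nd 17 (.lf [(76, 3)]) (.nd 18 (.lf [(75, 2)]) (.lf [(75, 3), (76, 1)])))))) (.nd 29 (.nd 24 (.nd 21 (.nd 20 (.lf [(77, 1)]) (.lf [(77, 4)])) (.nd 22 (.lf [(77, 2)]) (.nd 23 (.lf [(77, 2)]) (.lf [(77, 3)])))) (.nd 26 (.nd 25 (.lf [(77, 1)])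 (.lf [(77, 3)])) (.nd 27 (.lf [(77, 3)]) (.lf [])))) (.lf []))) (.nd 59 (.nd 49 (.nd 44 (.nd 41 (.nd 40 (.lf [(78, 3)]) (.lf [(78, 4)])) (.nd 42 (.lf [(78, 2)]) (.nd 43 (.lf [(78, 2)]) (.lf [(78, 1)])))) (.nd 46 (.nd 45 (.lf [(78, 4)]) (.lf [(78, 1)])) (.nd 47 (.lf [(78, 2)]) (.lf [(78, 1)])))) (.nd 54 (.nd 51 (.nd 50 (.lf [(78, 1)]) (.lf [(78, 3)])) (.lf [])) (.lf []))) (.lf []))

/-- a row of the table -/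
def R5_13 : Tr (List (ℕ × ℕ)) := .nd 39 (.nd 19 (.nd 9 (.nd 4 (.nd 2 (.nd 1 (.lf [(28, 1)]) (.lf [])) (.nd 3 (.lf [(51, 4), (55, 1), (56, 2), (57, 3), (58, 1), (59, 2), (60, 3)]) (.lf [(62, 1)]))) (.nd 6 (.nd 5 (.lf [(61, 4)]) (.lf [])) (.nd 7 (.lf [(69, 4), (70, 2), (71, 2), (72, 1)]) (.nd 8 (.lf [(68, 1), (69, 2), (70, 4), (71, 4), (72, 2)]) (.lf [(73, 3), (74, 4)]))))) (.nd 14 (.nd 11 (.nd 10 (.lf [(73, 4), (74, 1)]) (.lf [(73, 1), (74, 3)])) (.nd 12 (.lf [(74, 1)]) (.lf []))) (.nd 16 (.lf []) (.nd 17 (.lf [(75, 3), (76, 2)]) (.nd 18 (.lf [(75, 4), (76, 2)]) (.lf [(76, 4)])))))) (.nd 29 (.nd 24 (.nd 21 (.nd 20 (.lf [(77, 3)]) (.lf [(77, 4)])) (.nd 22 (.lf [(77, 2)]) (.nd 23 (.lf [(77, 1)]) (.lf [])))) (.lf [])) (.lf []))) (.nd 59 (.nd 49 (.nd 44 (.nd 41 (.nd 40 (.lf [(78,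 2)]) (.lf [])) (.nd 42 (.lf []) (.nd 43 (.lf []) (.lf [(78, 4)])))) (.nd 46 (.nd 45 (.lf [(78, 3)]) (.lf [(78, 2)])) (.lf [(78, 3)]))) (.nd 54 (.nd 51 (.nd 50 (.lf [(78, 1)]) (.lf [(78, 3)])) (.lf [])) (.lf []))) (.lf []))

/-- a row of the table -/
def R5_14 : Tr (List (ℕ × ℕ)) := .nd 39 (.nd 19 (.nd 9 (.nd 4 (.nd 2 (.nd 1 (.lf [(30, 1)]) (.lf [(37, 1)])) (.nd 3 (.lf [(51, 3), (52, 2), (53, 3), (54, 3), (55, 4), (57, 3), (58, 1), (59, 4), (60, 3)]) (.lf [(61, 4), (62, 1)]))) (.nd 6 (.nd 5 (.lf [(62, 1), (63, 4)]) (.lf [])) (.nd 7 (.lf [(68, 1), (69, 2), (72, 1)]) (.nd 8 (.lf [(68, 3), (69, 3), (70, 4), (71, 4), (72, 3)]) (.lf [(73, 4), (74, 2)]))))) (.nd 14 (.nd 11 (.nd 10 (.lf [(73, 3), (74, 2)]) (.lf [(74, 4)])) (.lf [])) (.nd 16 (.lf []) (.nd 17 (.lf [(75, 4), (76, 4)]) (.nd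 18 (.lf [(75, 3), (76, 4)]) (.lf [(76, 4)])))))) (.nd 29 (.nd 24 (.nd 21 (.lf [(77, 3)]) (.nd 22 (.lf [(77, 4)]) (.lf []))) (.nd 26 (.lf [(77, 1)]) (.nd 27 (.lf [(77, 3)]) (.lf [])))) (.lf []))) (.nd 59 (.nd 49 (.nd 44 (.nd 41 (.nd 40 (.lf []) (.lf [(78, 2)])) (.nd 42 (.lf [(78, 2)]) (.nd 43 (.lf [(78, 2)]) (.lf [(78, 1)])))) (.nd 46 (.nd 45 (.lf [(78, 1)]) (.lf [(78, 4)])) (.nd 47 (.lf [(78, 1)]) (.nd 48 (.lf [(78, 3)]) (.lf [(78, 2)]))))) (.nd 54 (.nd 51 (.lf [(78, 1)]) (.lf [])) (.lf []))) (.lf []))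

/-- a row of the table -/
def R5_15 : Tr (List (ℕ × ℕ)) := .nd 39 (.nd 19 (.nd 9 (.nd 4 (.nd 2 (.nd 1 (.lf [(29, 1)]) (.lf [])) (.nd 3 (.lf [(51, 3), (52, 3), (54, 2), (55, 3), (56, 4), (58, 4), (60, 3)]) (.lf [(62, 4), (63, 1)]))) (.nd 6 (.nd 5 (.lf [(62, 4), (63, 1)]) (.lf [])) (.nd 7 (.lf [(68, 4), (69, 4), (70, 4), (71, 2)]) (.nd 8 (.lf [(68, 1), (69, 1), (70, 3), (71, 3)]) (.lf [(73, 3), (74, 1)]))))) (.nd 14 (.nd 11 (.nd 10 (.lf [(74, 2)]) (.lf [(73, 1), (74, 1)])) (.nd 12 (.lf [(73, 1), (74, 1)]) (.lf []))) (.nd 16 (.lf []) (.nd 17 (.lf []) (.nd 18 (.lf [(75, 4)]) (.lf [(76, 1)])))))) (.nd 29 (.nd 24 (.nd 21 (.nd 20 (.lf [(77, 3)]) (.lf [(77, 2)])) (.nd 22 (.lf [(77, 4)]) (.nd 23 (.lf []) (.lf [(77, 2)])))) (.nd 26 (.nd 25 (.lf []) (.lf [(77, 4)])) (.nd 27 (.lf [(77,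 2)]) (.lf [])))) (.lf []))) (.nd 59 (.nd 49 (.nd 44 (.nd 41 (.lf []) (.nd 42 (.lf []) (.nd 43 (.lf [(78, 1)]) (.lf [(78, 3)])))) (.nd 46 (.lf [(78, 2)]) (.nd 47 (.lf [(78, 4)]) (.lf [])))) (.nd 54 (.nd 51 (.nd 50 (.lf [(78, 4)]) (.lf [(78, 3)])) (.lf [])) (.lf []))) (.lf []))

/-- a row of the table -/
def R5_16 : Tr (List (ℕ × ℕ)) := .nd 39 (.nd 19 (.nd 9 (.nd 4 (.nd 2 (.nd 1 (.lf [(38, 1)]) (.lf [(48, 1)])) (.nd 3 (.lf []) (.lf [(64, 2), (65, 2), (66, 2)]))) (.nd 6 (.nd 5 (.lf [(64, 3), (65, 2)]) (.lf [(68, 2), (69, 3), (70, 4), (71, 4), (72, 1)])) (.lf []))) (.nd 14 (.nd 11 (.lf []) (.nd 12 (.lf []) (.nd 13 (.lf [(76, 1)]) (.lf [(75, 4), (76, 4)])))) (.nd 16 (.lf [(76, 1)]) (.lf [])))) (.nd 29 (.lf []) (.nd 34 (.lf []) (.nd 36 (.lf []) (.nd 37 (.lf []) (.nd 38 (.lf [(78, 4)])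 (.lf []))))))) (.lf [])

/-- a row of the table -/
def R5_17 : Tr (List (ℕ × ℕ)) := .nd 39 (.nd 19 (.nd 9 (.nd 4 (.nd 2 (.nd 1 (.lf [(38, 2)]) (.lf [(46, 1)])) (.nd 3 (.lf []) (.lf [(64, 3), (65, 1), (66, 3), (67, 2)]))) (.nd 6 (.nd 5 (.lf [(64, 1), (65, 4), (66, 4), (67, 1)]) (.lf [(68, 1), (69, 2), (70, 3), (71, 1), (72, 2)])) (.lf []))) (.nd 14 (.nd 11 (.lf []) (.nd 12 (.lf []) (.nd 13 (.lf [(75, 3), (76, 1)]) (.lf [(75, 3), (76, 2)])))) (.nd 16 (.nd 15 (.lf [(75, 3), (76, 2)]) (.lf [(75, 2)])) (.lf [])))) (.nd 29 (.lf []) (.nd 34 (.lf []) (.nd 36 (.lf []) (.nd 37 (.lf []) (.nd 38 (.lf [(78, 3)]) (.lf []))))))) (.lf [])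

/-- a row of the table -/
def R5_18 : Tr (List (ℕ × ℕ)) := .nd 39 (.nd 19 (.nd 9 (.nd 4 (.nd 2 (.nd 1 (.lf []) (.lf [(39, 4), (40, 4), (41, 2), (42, 3), (43, 1), (45, 4), (46, 2), (48, 3)])) (.nd 3 (.lf []) (.lf [(64, 1), (65, 3), (66, 1), (67, 3)]))) (.nd 6 (.nd 5 (.lf [(65, 4), (66, 1)]) (.lf [(68, 3), (69, 4), (70, 3), (71, 4), (72, 3)])) (.lf []))) (.nd 14 (.nd 11 (.lf []) (.nd 12 (.lf []) (.nd 13 (.lf [(75, 2)]) (.lf [])))) (.nd 16 (.nd 15 (.lf [(75, 2), (76, 4)]) (.lf [(75, 3), (76, 2)])) (.lf [])))) (.lf [])) (.lf [])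

/-- a row of the table -/
def R5_19 : Tr (List (ℕ × ℕ)) := .nd 39 (.nd 19 (.nd 9 (.nd 4 (.nd 2 (.nd 1 (.lf [(39, 1)]) (.lf [(51, 3), (52, 4), (53, 1), (54, 4), (56, 3), (57, 2), (58, 4), (59, 1)])) (.nd 3 (.lf [(65, 4), (66, 4), (67, 3)]) (.lf [(69, 1), (70, 4), (71, 1), (72, 2)]))) (.nd 6 (.nd 5 (.lf [(68, 2), (69, 3), (71, 3), (72, 2)]) (.lf [(74, 4)])) (.nd 7 (.lf []) (.nd 8 (.lf []) (.lf [(75, 1), (76, 4)]))))) (.nd 14 (.nd 11 (.nd 10 (.lf [(75, 3), (76, 3)]) (.lf [(76, 3)])) (.nd 12 (.lf [(75, 1), (76, 2)]) (.nd 13 (.lf [(77, 3)]) (.lf [(77, 1)])))) (.nd 16 (.nd 15 (.lf [(77, 1)]) (.lf [(77, 2)])) (.lf [])))) (.nd 29 (.nd 24 (.lf []) (.nd 26 (.lf []) (.nd 27 (.lf []) (.nd 28 (.lf [(78, 1)]) (.lf [(78, 2)]))))) (.nd 34 (.nd 31 (.nd 30 (.lf []) (.lf [(78, 4)])) (.nd 32 (.lf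 [(78, 4)]) (.nd 33 (.lf [(78, 4)]) (.lf [(78, 3)])))) (.nd 36 (.nd 35 (.lf [(78, 3)]) (.lf [(78, 2)])) (.lf []))))) (.lf [])

/-- a row of the table -/
def R5_20 : Tr (List (ℕ × ℕ)) := .nd 39 (.nd 19 (.nd 9 (.nd 4 (.nd 2 (.nd 1 (.lf [(41, 1)]) (.lf [])) (.nd 3 (.lf [(64, 3), (65, 3), (66, 1), (67, 2)]) (.lf [(68, 4), (69, 1), (70, 2), (71, 1), (72, 1)]))) (.nd 6 (.nd 5 (.lf [(68, 2), (69, 1), (70, 1), (71, 1), (72, 4)]) (.lf [(73, 2), (74, 2)])) (.nd 7 (.lf []) (.nd 8 (.lf []) (.lf [(75, 4), (76, 2)]))))) (.nd 14 (.nd 11 (.nd 10 (.lf []) (.lf [(75, 4), (76, 1)])) (.nd 12 (.lf [(76, 1)]) (.nd 13 (.lf []) (.lf [(77, 2)])))) (.nd 16 (.nd 15 (.lf []) (.lf [(77, 3)])) (.lf [])))) (.nd 29 (.nd 24 (.lf []) (.nd 26 (.lf []) (.nd 27 (.lf []) (.nd 28 (.lf [(78, 2)]) (.lf [(78, 1)])))))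 (.nd 34 (.nd 31 (.nd 30 (.lf []) (.lf [(78, 1)])) (.nd 32 (.lf [(78, 2)]) (.nd 33 (.lf []) (.lf [(78, 2)])))) (.nd 36 (.nd 35 (.lf [(78, 2)]) (.lf [(78, 1)])) (.nd 37 (.lf [(78, 1)]) (.lf [])))))) (.lf [])

/-- a row of the table -/
def R5_21 : Tr (List (ℕ × ℕ)) := .nd 39 (.nd 19 (.nd 9 (.nd 4 (.nd 2 (.nd 1 (.lf [(40, 1)]) (.lf [(51, 1), (52, 3), (53, 1), (54, 4), (55, 2), (56, 2), (57, 1), (58, 1), (59, 3), (60, 3)])) (.nd 3 (.lf [(64, 1), (65, 2), (67, 4)]) (.lf [(68, 4), (69, 1), (70, 1), (71, 1), (72, 2)]))) (.nd 6 (.nd 5 (.lf [(69, 4), (70, 3), (71, 4)]) (.lf [(73, 2), (74, 1)])) (.nd 7 (.lf []) (.nd 8 (.lf []) (.lf [(76, 3)]))))) (.nd 14 (.nd 11 (.nd 10 (.lf [(75, 3), (76, 1)]) (.lf [(75, 2), (76, 2)])) (.nd 12 (.lf [(75, 4)]) (.lf [(77, 4)]))) (.nd 16 (.lf [(77, 3)]) (.lf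 [])))) (.nd 29 (.nd 24 (.lf []) (.nd 26 (.lf []) (.nd 27 (.lf []) (.nd 28 (.lf [(78, 2)]) (.lf [(78, 1)]))))) (.nd 34 (.nd 31 (.nd 30 (.lf [(78, 2)]) (.lf [])) (.nd 32 (.lf []) (.nd 33 (.lf [(78, 1)]) (.lf [(78, 3)])))) (.nd 36 (.nd 35 (.lf [(78, 4)]) (.lf [(78, 2)])) (.nd 37 (.lf [(78, 3)]) (.lf [])))))) (.lf [])

/-- a row of the table -/
def R5_22 : Tr (List (ℕ × ℕ)) := .nd 39 (.nd 19 (.nd 9 (.nd 4 (.nd 2 (.nd 1 (.lf [(43, 1)]) (.lf [(51, 3), (52, 1), (53, 3), (54, 1), (55, 4), (56, 4), (57, 2), (59, 2), (60, 3)])) (.nd 3 (.lf [(64, 2), (65, 3), (66, 3)]) (.lf [(68, 1), (70, 1), (71, 3), (72, 1)]))) (.nd 6 (.nd 5 (.lf [(68, 1), (69, 2), (70, 1), (71, 3)]) (.lf [])) (.nd 7 (.lf []) (.nd 8 (.lf []) (.lf [(75, 2), (76, 3)]))))) (.nd 14 (.nd 11 (.nd 10 (.lf [(75, 2), (76, 2)])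 (.lf [(76, 4)])) (.nd 12 (.lf [(75, 4)]) (.nd 13 (.lf [(77, 3)]) (.lf [(77, 1)])))) (.nd 16 (.nd 15 (.lf [(77, 3)]) (.lf [(77, 1)])) (.lf [])))) (.nd 29 (.nd 24 (.lf []) (.nd 26 (.lf []) (.nd 27 (.lf []) (.nd 28 (.lf [(78, 4)]) (.lf [(78, 3)]))))) (.nd 34 (.nd 31 (.nd 30 (.lf [(78, 3)]) (.lf [(78, 2)])) (.nd 32 (.lf [(78, 1)]) (.nd 33 (.lf [(78, 4)]) (.lf [])))) (.nd 36 (.nd 35 (.lf [(78, 4)]) (.lf [(78, 2)])) (.nd 37 (.lf [(78, 2)]) (.lf [])))))) (.lf [])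

/-- a row of the table -/
def R5_23 : Tr (List (ℕ × ℕ)) := .nd 39 (.nd 19 (.nd 9 (.nd 4 (.nd 2 (.nd 1 (.lf [(47, 1)]) (.lf [(51, 2), (52, 2), (53, 1), (54, 4), (55, 2), (56, 2), (57, 3), (59, 2), (60, 3)])) (.nd 3 (.lf [(64, 4), (65, 3), (66, 3), (67, 2)]) (.lf [(68, 2), (70, 1), (71, 2), (72, 2)]))) (.nd 6 (.nd 5 (.lf [(68, 4), (69, 4), (70, 2), (71, 3), (72, 4)]) (.lf [(73, 4), (74, 1)])) (.nd 7 (.lf []) (.nd 8 (.lf []) (.lf [(75, 2), (76, 3)]))))) (.nd 14 (.nd 11 (.nd 10 (.lf [(75, 1)]) (.lf [(75, 4), (76, 4)])) (.nd 12 (.lf [(75, 4), (76, 2)]) (.nd 13 (.lf [(77, 4)]) (.lf [])))) (.nd 16 (.nd 15 (.lf [(77, 2)]) (.lf [(77, 3)])) (.lf [])))) (.nd 29 (.nd 24 (.lf []) (.nd 26 (.lf []) (.nd 27 (.lf []) (.nd 28 (.lf [(78, 1)]) (.lf [(78, 2)]))))) (.nd 34 (.nd 31 (.nd 30 (.lf [])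 (.lf [(78, 4)])) (.nd 32 (.lf [(78, 2)]) (.nd 33 (.lf [(78, 1)]) (.lf [(78, 4)])))) (.nd 36 (.nd 35 (.lf [(78, 2)]) (.lf [(78, 3)])) (.nd 37 (.lf [(78, 1)]) (.lf [])))))) (.lf [])

/-- a row of the table -/
def R5_24 : Tr (List (ℕ × ℕ)) := .nd 39 (.nd 19 (.nd 9 (.nd 4 (.nd 2 (.nd 1 (.lf [(42, 1)]) (.lf [(51, 4), (52, 1), (53, 4), (54, 2), (55, 2), (56, 4), (57, 4), (58, 2), (59, 2), (60, 2)])) (.nd 3 (.lf [(64, 2), (65, 1), (66, 2)]) (.lf [(69, 3), (70, 3), (71, 3)]))) (.nd 6 (.nd 5 (.lf [(68, 1), (69, 3), (70, 3), (72, 2)]) (.lf [(73, 3), (74, 1)])) (.lf []))) (.nd 14 (.nd 11 (.nd 10 (.lf [(75, 3), (76, 1)]) (.lf [(75, 4), (76, 2)])) (.nd 12 (.lf [(75, 2), (76, 1)]) (.nd 13 (.lf [(77, 3)]) (.lf [])))) (.nd 16 (.nd 15 (.lf []) (.lf [(77, 1)])) (.lf [])))) (.nd 29 (.nd 24 (.lf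 []) (.nd 26 (.lf []) (.nd 27 (.lf []) (.nd 28 (.lf [(78, 2)]) (.lf []))))) (.nd 34 (.nd 31 (.nd 30 (.lf []) (.lf [(78, 4)])) (.nd 32 (.lf [(78, 3)]) (.nd 33 (.lf [(78, 1)]) (.lf [(78, 2)])))) (.nd 36 (.lf [(78, 1)]) (.lf []))))) (.lf [])

/-- a row of the table -/
def R5_25 : Tr (List (ℕ × ℕ)) := .nd 39 (.nd 19 (.nd 9 (.nd 4 (.nd 2 (.nd 1 (.lf [(45, 1)]) (.lf [(51, 4), (52, 4), (53, 1), (54, 2), (55, 1), (56, 2), (57, 1), (58, 4), (59, 4), (60, 4)])) (.nd 3 (.lf [(66, 1), (67, 4)]) (.lf [(68, 1), (70, 2), (71, 1), (72, 2)]))) (.nd 6 (.nd 5 (.lf [(69, 2), (70, 4), (71, 2), (72, 3)]) (.lf [])) (.nd 7 (.lf []) (.nd 8 (.lf []) (.lf [(75, 4), (76, 2)]))))) (.nd 14 (.nd 11 (.nd 10 (.lf [(75, 4), (76, 3)]) (.lf [(75, 1), (76, 2)])) (.nd 12 (.lf [(75, 3), (76, 3)]) (.nd 13 (.lf [(77,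 4)]) (.lf [(77, 2)])))) (.nd 16 (.nd 15 (.lf [(77, 4)]) (.lf [(77, 2)])) (.lf [])))) (.nd 29 (.nd 24 (.lf []) (.nd 26 (.lf []) (.nd 27 (.lf []) (.nd 28 (.lf [(78, 1)]) (.lf []))))) (.nd 34 (.nd 31 (.nd 30 (.lf [(78, 4)]) (.lf [(78, 1)])) (.nd 32 (.lf [(78, 1)]) (.lf [(78, 3)]))) (.nd 36 (.nd 35 (.lf []) (.lf [(78, 1)])) (.nd 37 (.lf [(78, 4)]) (.lf [])))))) (.lf [])

/-- a row of the table -/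
def R5_26 : Tr (List (ℕ × ℕ)) := .nd 39 (.nd 19 (.nd 9 (.nd 4 (.nd 2 (.nd 1 (.lf [(44, 1)]) (.lf [(51, 3), (52, 4), (53, 2), (54, 4), (55, 4), (56, 4), (57, 3)])) (.nd 3 (.lf [(64, 3), (65, 4), (66, 3), (67, 2)]) (.lf [(68, 2), (69, 2), (70, 3), (71, 3), (72, 2)]))) (.nd 6 (.nd 5 (.lf [(68, 3), (69, 3), (70, 4), (71, 4), (72, 3)]) (.lf [(73, 2), (74, 1)])) (.nd 7 (.lf []) (.nd 8 (.lf []) (.lf [(75, 4), (76, 1)]))))) (.nd 14 (.nd 11 (.nd 10 (.lf [(75, 4), (76, 3)]) (.lf [(75, 1), (76, 3)])) (.nd 12 (.lf [(76, 3)]) (.nd 13 (.lf [(77, 1)]) (.lf [])))) (.nd 16 (.nd 15 (.lf [(77, 3)]) (.lf [(77, 2)])) (.lf [])))) (.nd 29 (.nd 24 (.lf []) (.nd 26 (.lf []) (.nd 27 (.lf []) (.nd 28 (.lf []) (.lf [(78, 2)]))))) (.nd 34 (.nd 31 (.nd 30 (.lf [(78, 2)]) (.lf [])) (.nd 32 (.lf []) (.nd 33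 (.lf [(78, 1)]) (.lf [(78, 3)])))) (.nd 36 (.nd 35 (.lf [(78, 3)]) (.lf [])) (.lf []))))) (.lf [])

/-- a row of the table -/
def R5_27 : Tr (List (ℕ × ℕ)) := .nd 39 (.nd 19 (.nd 9 (.nd 4 (.nd 2 (.nd 1 (.lf [(51, 1)]) (.lf [(62, 1)])) (.nd 3 (.lf [(68, 3), (69, 4), (70, 3), (71, 3)]) (.lf [(74, 2)]))) (.nd 6 (.nd 5 (.lf [(73, 4), (74, 1)]) (.lf [])) (.nd 7 (.lf [(75, 1)]) (.nd 8 (.lf [(75, 2), (76, 3)]) (.lf [(77, 3)]))))) (.nd 14 (.nd 11 (.nd 10 (.lf [(77, 3)]) (.lf [(77, 2)])) (.lf [])) (.lf []))) (.nd 29 (.nd 24 (.nd 21 (.nd 20 (.lf []) (.lf [(78, 1)])) (.nd 22 (.lf [(78, 4)]) (.lf [(78, 2)]))) (.nd 26 (.nd 25 (.lf [(78, 1)]) (.lf [(78, 2)])) (.lf []))) (.lf []))) (.lf [])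

/-- a row of the table -/
def R5_28 : Tr (List (ℕ × ℕ)) := .nd 39 (.nd 19 (.nd 9 (.nd 4 (.nd 2 (.nd 1 (.lf [(52, 1)]) (.lf [(61, 1), (62, 1)])) (.nd 3 (.lf [(68, 3), (69, 2), (70, 3), (71, 3), (72, 1)]) (.lf [(73, 1), (74, 2)]))) (.nd 6 (.nd 5 (.lf [(74, 2)]) (.lf [])) (.nd 7 (.lf [(75, 3), (76, 3)]) (.nd 8 (.lf [(75, 2), (76, 3)]) (.lf []))))) (.nd 14 (.nd 11 (.lf [(77, 1)]) (.lf [])) (.lf []))) (.nd 29 (.nd 24 (.nd 21 (.nd 20 (.lf [(78, 4)]) (.lf [(78, 3)])) (.nd 22 (.lf [(78, 1)]) (.nd 23 (.lf [(78, 4)]) (.lf [(78, 2)])))) (.nd 26 (.nd 25 (.lf [(78, 4)]) (.lf [(78, 3)])) (.nd 27 (.lf [(78, 4)]) (.lf [])))) (.lf []))) (.lf [])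

/-- a row of the table -/
def R5_29 : Tr (List (ℕ × ℕ)) := .nd 39 (.nd 19 (.nd 9 (.nd 4 (.nd 2 (.nd 1 (.lf [(53, 1)]) (.lf [])) (.nd 3 (.lf [(68, 4), (71, 2), (72, 4)]) (.lf [(73, 3), (74, 4)]))) (.nd 6 (.nd 5 (.lf [(73, 1), (74, 4)]) (.lf [])) (.nd 7 (.lf [(75, 4)]) (.nd 8 (.lf [(75, 3), (76, 3)]) (.lf [(77, 4)]))))) (.nd 14 (.nd 11 (.nd 10 (.lf [(77, 4)]) (.lf [(77, 3)])) (.lf [])) (.lf []))) (.nd 29 (.nd 24 (.nd 21 (.nd 20 (.lf []) (.lf [(78, 2)])) (.nd 22 (.lf [(78, 4)]) (.nd 23 (.lf [(78, 4)]) (.lf [])))) (.nd 26 (.nd 25 (.lf [(78, 3)]) (.lf [(78, 2)])) (.lf []))) (.lf []))) (.lf [])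

/-- a row of the table -/
def R5_30 : Tr (List (ℕ × ℕ)) := .nd 39 (.nd 19 (.nd 9 (.nd 4 (.nd 2 (.nd 1 (.lf [(54, 1)]) (.lf [(63, 1)])) (.nd 3 (.lf [(69, 2), (71, 2), (72, 1)]) (.lf [(73, 3), (74, 4)]))) (.nd 6 (.nd 5 (.lf [(73, 3), (74, 1)]) (.lf [])) (.nd 7 (.lf [(75, 4), (76, 3)]) (.nd 8 (.lf [(75, 4), (76, 1)]) (.lf [(77, 1)]))))) (.nd 14 (.nd 11 (.nd 10 (.lf []) (.lf [(77, 1)])) (.nd 12 (.lf [(77, 2)]) (.lf []))) (.lf []))) (.nd 29 (.nd 24 (.nd 21 (.nd 20 (.lf [(78, 3)]) (.lf [(78, 2)])) (.nd 22 (.lf []) (.nd 23 (.lf [(78, 1)]) (.lf [(78, 4)])))) (.nd 26 (.nd 25 (.lf [(78, 3)]) (.lf [])) (.nd 27 (.lf [(78, 3)]) (.lf [])))) (.lf []))) (.lf [])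

/-- a row of the table -/
def R5_31 : Tr (List (ℕ × ℕ)) := .nd 39 (.nd 19 (.nd 9 (.nd 4 (.nd 2 (.nd 1 (.lf [(55, 1)]) (.lf [(61, 3), (62, 2), (63, 1)])) (.nd 3 (.lf [(68, 4), (69, 3)]) (.lf [(73, 2), (74, 4)]))) (.nd 6 (.nd 5 (.lf [(73, 4)]) (.lf [])) (.nd 7 (.lf [(75, 2), (76, 3)]) (.nd 8 (.lf [(75, 2), (76, 1)]) (.lf [(77, 1)]))))) (.nd 14 (.nd 11 (.lf [(77, 2)]) (.nd 12 (.lf [(77, 2)]) (.lf []))) (.lf []))) (.nd 29 (.nd 24 (.nd 21 (.nd 20 (.lf [(78, 4)]) (.lf [(78, 3)])) (.nd 22 (.lf [(78, 4)]) (.nd 23 (.lf [(78, 2)]) (.lf [(78, 4)])))) (.nd 26 (.nd 25 (.lf [(78, 4)]) (.lf [(78, 2)])) (.lf []))) (.lf []))) (.lf [])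

/-- a row of the table -/
def R5_32 : Tr (List (ℕ × ℕ)) := .nd 39 (.nd 19 (.nd 9 (.nd 4 (.nd 2 (.nd 1 (.lf [(56, 1)]) (.lf [(61, 4), (62, 2), (63, 3)])) (.nd 3 (.lf [(68, 3), (69, 4), (71, 4), (72, 2)]) (.lf [(73, 2), (74, 1)]))) (.nd 6 (.nd 5 (.lf [(73, 2), (74, 2)]) (.lf [])) (.nd 7 (.lf [(76, 2)]) (.nd 8 (.lf [(75, 4), (76, 4)]) (.lf [(77, 3)]))))) (.nd 14 (.nd 11 (.nd 10 (.lf [(77, 4)]) (.lf [(77, 2)])) (.nd 12 (.lf [(77, 1)]) (.lf []))) (.lf []))) (.nd 29 (.nd 24 (.nd 21 (.nd 20 (.lf [(78, 3)]) (.lf [(78, 1)])) (.nd 22 (.lf []) (.nd 23 (.lf [(78, 1)]) (.lf [(78, 2)])))) (.nd 26 (.nd 25 (.lf [(78, 2)]) (.lf [(78, 4)])) (.nd 27 (.lf [(78, 4)]) (.lf [])))) (.lf []))) (.lf [])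

/-- a row of the table -/
def R5_33 : Tr (List (ℕ × ℕ)) := .nd 39 (.nd 19 (.nd 9 (.nd 4 (.nd 2 (.nd 1 (.lf [(59, 1)]) (.lf [(62, 3), (63, 2)])) (.nd 3 (.lf [(68, 4), (69, 4), (70, 2), (71, 4), (72, 1)]) (.lf [(73, 1), (74, 3)]))) (.nd 6 (.nd 5 (.lf [(73, 3)]) (.lf [])) (.nd 7 (.lf [(75, 3)]) (.nd 8 (.lf [(75, 2), (76, 1)]) (.lf [(77, 3)]))))) (.nd 14 (.nd 11 (.nd 10 (.lf [(77, 4)]) (.lf [(77, 1)])) (.nd 12 (.lf [(77, 4)]) (.lf []))) (.lf []))) (.nd 29 (.nd 24 (.nd 21 (.nd 20 (.lf [(78, 2)]) (.lf [])) (.nd 22 (.lf []) (.nd 23 (.lf [(78, 1)]) (.lf [(78, 4)])))) (.nd 26 (.nd 25 (.lf [(78, 2)]) (.lf [(78, 3)])) (.nd 27 (.lf [(78, 3)]) (.lf [])))) (.lf []))) (.lf [])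

/-- a row of the table -/
def R5_34 : Tr (List (ℕ × ℕ)) := .nd 39 (.nd 19 (.nd 9 (.nd 4 (.nd 2 (.nd 1 (.lf [(58, 1)]) (.lf [(61, 4), (62, 4), (63, 4)])) (.nd 3 (.lf [(68, 2), (69, 2), (70, 2), (71, 1), (72, 4)]) (.lf [(73, 2), (74, 3)]))) (.nd 6 (.nd 5 (.lf [(73, 3), (74, 4)]) (.lf [])) (.nd 7 (.lf [(76, 3)]) (.nd 8 (.lf [(76, 3)]) (.lf [(77, 4)]))))) (.nd 14 (.nd 11 (.lf [(77, 2)]) (.nd 12 (.lf [(77, 3)]) (.lf []))) (.lf []))) (.nd 29 (.nd 24 (.nd 21 (.lf []) (.nd 22 (.lf [(78, 3)]) (.nd 23 (.lf [(78, 3)]) (.lf [(78, 4)])))) (.nd 26 (.nd 25 (.lf [(78, 2)]) (.lf [(78, 4)])) (.nd 27 (.lf [(78, 2)]) (.lf [])))) (.lf []))) (.lf [])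

/-- a row of the table -/
def R5_35 : Tr (List (ℕ × ℕ)) := .nd 39 (.nd 19 (.nd 9 (.nd 4 (.nd 2 (.nd 1 (.lf [(57, 1)]) (.lf [(62, 2), (63, 4)])) (.nd 3 (.lf [(68, 3), (69, 4), (70, 4), (72, 1)]) (.lf [(73, 3), (74, 2)]))) (.nd 6 (.nd 5 (.lf [(73, 4), (74, 2)]) (.lf [])) (.nd 7 (.lf [(75, 4)]) (.nd 8 (.lf [(75, 3), (76, 4)]) (.lf [(77, 3)]))))) (.nd 14 (.nd 11 (.nd 10 (.lf [(77, 1)]) (.lf [(77, 3)])) (.nd 12 (.lf [(77, 3)]) (.lf []))) (.lf []))) (.nd 29 (.nd 24 (.nd 21 (.nd 20 (.lf []) (.lf [(78, 2)])) (.nd 22 (.lf []) (.nd 23 (.lf [(78, 4)]) (.lf [(78, 3)])))) (.nd 26 (.nd 25 (.lf [(78, 4)]) (.lf [(78, 1)])) (.nd 27 (.lf [(78, 4)]) (.lf [])))) (.lf []))) (.lf [])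

/-- a row of the table -/
def R5_36 : Tr (List (ℕ × ℕ)) := .nd 39 (.nd 19 (.nd 9 (.nd 4 (.nd 2 (.nd 1 (.lf [(60, 1)]) (.lf [(63, 1)])) (.nd 3 (.lf [(68, 1), (71, 4), (72, 2)]) (.lf [(73, 1)]))) (.nd 6 (.nd 5 (.lf [(73, 3), (74, 4)]) (.lf [])) (.nd 7 (.lf [(76, 1)]) (.lf [])))) (.nd 14 (.nd 11 (.lf [(77, 2)]) (.nd 12 (.lf [(77, 2)]) (.lf []))) (.lf []))) (.nd 29 (.nd 24 (.nd 21 (.lf [(78, 1)]) (.nd 22 (.lf []) (.nd 23 (.lf [(78, 2)]) (.lf [(78, 1)])))) (.nd 26 (.nd 25 (.lf [(78, 4)]) (.lf [(78, 2)])) (.nd 27 (.lf [(78, 2)]) (.lf [])))) (.lf []))) (.lf [])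

/-- a row of the table -/
def R5_37 : Tr (List (ℕ × ℕ)) := .nd 39 (.nd 19 (.nd 9 (.nd 4 (.nd 2 (.nd 1 (.lf [(61, 1)]) (.lf [])) (.nd 3 (.lf [(73, 1)]) (.lf []))) (.nd 6 (.lf []) (.nd 7 (.lf [(77, 1)]) (.lf [])))) (.nd 14 (.lf []) (.nd 16 (.lf []) (.nd 17 (.lf [(78, 1)]) (.nd 18 (.lf []) (.lf [(78, 2)])))))) (.lf [])) (.lf [])

/-- a row of the table -/
def R5_38 : Tr (List (ℕ × ℕ)) := .nd 39 (.nd 19 (.nd 9 (.nd 4 (.nd 2 (.nd 1 (.lf []) (.lf [(65, 3)])) (.lf [])) (.nd 6 (.nd 5 (.lf []) (.lf [(76, 3)])) (.lf []))) (.lf [])) (.lf [])) (.lf [])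

/-- a row of the table -/
def R5_39 : Tr (List (ℕ × ℕ)) := .nd 39 (.nd 19 (.nd 9 (.nd 4 (.nd 2 (.nd 1 (.lf [(64, 1)]) (.lf [(68, 2), (70, 2), (71, 3), (72, 2)])) (.lf [])) (.nd 6 (.nd 5 (.lf [(75, 4), (76, 3)]) (.lf [(77, 4)])) (.lf []))) (.nd 14 (.nd 11 (.lf []) (.nd 12 (.lf []) (.lf [(78, 4)]))) (.nd 16 (.lf [(78, 2)]) (.lf [])))) (.lf [])) (.lf [])

/-- a row of the table -/
def R5_40 : Tr (List (ℕ × ℕ)) := .nd 39 (.nd 19 (.nd 9 (.nd 4 (.nd 2 (.nd 1 (.lf [(66, 1)]) (.lf [(68, 3), (69, 4), (70, 3), (72, 3)])) (.nd 3 (.lf []) (.lf [(75, 4), (76, 4)]))) (.nd 6 (.nd 5 (.lf [(76, 3)]) (.lf [(77, 3)])) (.lf []))) (.nd 14 (.nd 11 (.lf []) (.nd 12 (.lf []) (.nd 13 (.lf [(78, 2)]) (.lf [(78, 1)])))) (.nd 16 (.nd 15 (.lf [(78, 3)]) (.lf [(78, 2)])) (.lf [])))) (.lf [])) (.lf [])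

/-- a row of the table -/
def R5_41 : Tr (List (ℕ × ℕ)) := .nd 39 (.nd 19 (.nd 9 (.nd 4 (.nd 2 (.nd 1 (.lf [(65, 1)]) (.lf [(68, 2), (70, 1), (72, 2)])) (.nd 3 (.lf []) (.lf [(75, 3), (76, 4)]))) (.nd 6 (.nd 5 (.lf [(75, 1), (76, 1)]) (.lf [(77, 4)])) (.lf []))) (.nd 14 (.nd 11 (.lf []) (.nd 12 (.lf []) (.nd 13 (.lf [(78, 3)]) (.lf [(78, 1)])))) (.nd 16 (.nd 15 (.lf [(78, 4)]) (.lf [])) (.lf [])))) (.lf [])) (.lf [])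

/-- a row of the table -/
def R5_42 : Tr (List (ℕ × ℕ)) := .nd 39 (.nd 19 (.nd 9 (.nd 4 (.nd 2 (.nd 1 (.lf [(67, 1)]) (.lf [(68, 4), (69, 1), (70, 4), (71, 3)])) (.nd 3 (.lf []) (.lf [(76, 2)]))) (.nd 6 (.nd 5 (.lf [(75, 1), (76, 4)]) (.lf [(77, 2)])) (.lf []))) (.nd 14 (.nd 11 (.lf []) (.nd 12 (.lf []) (.lf [(78, 4)]))) (.nd 16 (.lf [(78, 1)]) (.lf [])))) (.lf [])) (.lf [])

/-- a row of the table -/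
def R5_43 : Tr (List (ℕ × ℕ)) := .nd 39 (.nd 19 (.nd 9 (.nd 4 (.nd 2 (.nd 1 (.lf [(65, 3), (67, 3)]) (.lf [(68, 1), (69, 4), (70, 3), (71, 4)])) (.nd 3 (.lf []) (.lf [(75, 3), (76, 2)]))) (.nd 6 (.nd 5 (.lf [(75, 1), (76, 2)]) (.lf [(77, 4)])) (.lf []))) (.nd 14 (.nd 11 (.lf []) (.nd 12 (.lf []) (.nd 13 (.lf [(78, 2)]) (.lf [(78, 1)])))) (.nd 16 (.nd 15 (.lf [(78, 1)]) (.lf [(78, 3)])) (.lf [])))) (.lf [])) (.lf [])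

/-- a row of the table -/
def R5_44 : Tr (List (ℕ × ℕ)) := .nd 39 (.nd 19 (.nd 9 (.nd 4 (.nd 2 (.nd 1 (.lf [(64, 2), (65, 2), (66, 1), (67, 2)]) (.lf [(68, 4), (69, 3), (71, 1), (72, 2)])) (.nd 3 (.lf []) (.lf [(75, 4)]))) (.nd 6 (.nd 5 (.lf [(75, 3)]) (.lf [(77, 2)])) (.lf []))) (.nd 14 (.nd 11 (.lf []) (.nd 12 (.lf []) (.nd 13 (.lf [(78, 3)]) (.lf [(78, 4)])))) (.nd 16 (.nd 15 (.lf [(78, 1)]) (.lf [(78, 3)])) (.lf [])))) (.lf [])) (.lf [])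

/-- a row of the table -/
def R5_45 : Tr (List (ℕ × ℕ)) := .nd 39 (.nd 19 (.nd 9 (.nd 4 (.nd 2 (.nd 1 (.lf [(64, 4), (65, 1), (67, 2)]) (.lf [(68, 4), (69, 2), (70, 3), (72, 4)])) (.nd 3 (.lf []) (.lf [(75, 1), (76, 3)]))) (.nd 6 (.nd 5 (.lf [(75, 1), (76, 4)]) (.lf [(77, 1)])) (.lf []))) (.nd 14 (.nd 11 (.lf []) (.nd 12 (.lf []) (.nd 13 (.lf [(78, 2)]) (.lf [])))) (.nd 16 (.nd 15 (.lf []) (.lf [(78, 1)])) (.lf [])))) (.lf [])) (.lf [])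

/-- a row of the table -/
def R5_46 : Tr (List (ℕ × ℕ)) := .nd 39 (.nd 19 (.nd 9 (.nd 4 (.nd 2 (.nd 1 (.lf [(64, 3), (65, 4), (66, 1), (67, 4)]) (.lf [(68, 2), (69, 2), (71, 4), (72, 4)])) (.nd 3 (.lf []) (.lf [(75, 1)]))) (.nd 6 (.nd 5 (.lf [(75, 3), (76, 3)]) (.lf [])) (.lf []))) (.nd 14 (.nd 11 (.lf []) (.nd 12 (.lf []) (.nd 13 (.lf [(78, 4)]) (.lf [])))) (.nd 16 (.nd 15 (.lf [(78, 4)]) (.lf [(78, 3)])) (.lf [])))) (.lf [])) (.lf [])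

/-- a row of the table -/
def R5_47 : Tr (List (ℕ × ℕ)) := .nd 39 (.nd 19 (.nd 9 (.nd 4 (.nd 2 (.nd 1 (.lf [(64, 3), (65, 1), (66, 2)]) (.lf [(68, 2), (69, 3), (70, 3), (71, 2), (72, 3)])) (.nd 3 (.lf []) (.lf [(75, 3)]))) (.nd 6 (.nd 5 (.lf [(75, 1)]) (.lf [])) (.lf []))) (.nd 14 (.nd 11 (.lf []) (.nd 12 (.lf []) (.nd 13 (.lf [(78, 4)]) (.lf [])))) (.nd 16 (.nd 15 (.lf [(78, 1)]) (.lf [(78, 3)])) (.lf [])))) (.lf [])) (.lf [])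

/-- a row of the table -/
def R5_48 : Tr (List (ℕ × ℕ)) := .nd 39 (.nd 19 (.nd 9 (.nd 4 (.nd 2 (.nd 1 (.lf [(64, 1), (65, 3), (66, 3)]) (.lf [(68, 1), (69, 3), (70, 4), (72, 1)])) (.nd 3 (.lf []) (.lf [(75, 3)]))) (.nd 6 (.nd 5 (.lf [(76, 4)]) (.lf [])) (.lf []))) (.nd 14 (.nd 11 (.lf []) (.nd 12 (.lf []) (.nd 13 (.lf [(78, 1)]) (.lf [])))) (.nd 16 (.nd 15 (.lf [(78, 1)]) (.lf [])) (.lf [])))) (.lf [])) (.lf [])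

/-- a row of the table -/
def R5_49 : Tr (List (ℕ × ℕ)) := .nd 39 (.nd 19 (.nd 9 (.nd 4 (.nd 2 (.nd 1 (.lf [(64, 2), (65, 3), (66, 2), (67, 4)]) (.lf [(68, 1), (69, 3), (70, 2), (71, 4), (72, 4)])) (.nd 3 (.lf []) (.lf [(75, 2), (76, 1)]))) (.nd 6 (.nd 5 (.lf [(75, 3)]) (.lf [(77, 1)])) (.lf []))) (.nd 14 (.nd 11 (.lf []) (.nd 12 (.lf []) (.nd 13 (.lf []) (.lf [(78, 1)])))) (.nd 16 (.nd 15 (.lf [(78, 4)]) (.lf [(78, 1)])) (.lf [])))) (.lf [])) (.lf [])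

/-- a row of the table -/
def R5_50 : Tr (List (ℕ × ℕ)) := .nd 39 (.nd 19 (.nd 9 (.nd 4 (.nd 2 (.nd 1 (.lf [(64, 2), (65, 3), (66, 3), (67, 3)]) (.lf [(68, 1), (69, 2), (70, 1), (71, 2), (72, 3)])) (.nd 3 (.lf []) (.lf [(75, 2), (76, 4)]))) (.nd 6 (.nd 5 (.lf [(76, 1)]) (.lf [(77, 3)])) (.lf []))) (.nd 14 (.nd 11 (.lf []) (.nd 12 (.lf []) (.nd 13 (.lf []) (.lf [(78, 4)])))) (.nd 16 (.lf [(78, 2)]) (.lf [])))) (.lf [])) (.lf [])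

/-- a row of the table -/
def R5_51 : Tr (List (ℕ × ℕ)) := .nd 39 (.nd 19 (.nd 9 (.nd 4 (.nd 2 (.nd 1 (.lf [(68, 1)]) (.lf [(73, 1), (74, 2)])) (.nd 3 (.lf [(75, 4), (76, 4)]) (.lf [(77, 2)]))) (.nd 6 (.nd 5 (.lf [(77, 3)]) (.lf [])) (.nd 7 (.lf []) (.nd 8 (.lf []) (.lf [(78, 1)]))))) (.nd 14 (.nd 11 (.nd 10 (.lf [(78, 3)]) (.lf [])) (.lf [])) (.lf []))) (.lf [])) (.lf [])

/-- a row of the table -/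
def R5_52 : Tr (List (ℕ × ℕ)) := .nd 39 (.nd 19 (.nd 9 (.nd 4 (.nd 2 (.nd 1 (.lf [(69, 1)]) (.lf [(73, 2), (74, 1)])) (.nd 3 (.lf [(75, 1), (76, 3)]) (.lf [(77, 2)]))) (.nd 6 (.nd 5 (.lf [(77, 4)]) (.lf [])) (.lf []))) (.nd 14 (.nd 11 (.nd 10 (.lf [(78, 1)]) (.lf [(78, 3)])) (.nd 12 (.lf [(78, 2)]) (.lf []))) (.lf []))) (.lf [])) (.lf [])

/-- a row of the table -/
def R5_53 : Tr (List (ℕ × ℕ)) := .nd 39 (.nd 19 (.nd 9 (.nd 4 (.nd 2 (.nd 1 (.lf [(70, 1)]) (.lf [(73, 2)])) (.nd 3 (.lf [(75, 1), (76, 1)]) (.lf [(77, 3)]))) (.nd 6 (.nd 5 (.lf [(77, 4)]) (.lf [])) (.nd 7 (.lf []) (.nd 8 (.lf []) (.lf [(78, 1)]))))) (.nd 14 (.nd 11 (.nd 10 (.lf [(78, 3)]) (.lf [(78, 4)])) (.nd 12 (.lf [(78, 2)]) (.lf []))) (.lf []))) (.lf [])) (.lf [])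

/-- a row of the table -/
def R5_54 : Tr (List (ℕ × ℕ)) := .nd 39 (.nd 19 (.nd 9 (.nd 4 (.nd 2 (.nd 1 (.lf [(71, 1)]) (.lf [(74, 3)])) (.nd 3 (.lf [(75, 1), (76, 3)]) (.lf []))) (.nd 6 (.nd 5 (.lf [(77, 3)]) (.lf [])) (.nd 7 (.lf []) (.nd 8 (.lf []) (.lf [(78, 4)]))))) (.nd 14 (.nd 11 (.nd 10 (.lf [(78, 2)]) (.lf [(78, 3)])) (.nd 12 (.lf [(78, 2)]) (.lf []))) (.lf []))) (.lf [])) (.lf [])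

/-- a row of the table -/
def R5_55 : Tr (List (ℕ × ℕ)) := .nd 39 (.nd 19 (.nd 9 (.nd 4 (.nd 2 (.nd 1 (.lf [(72, 1)]) (.lf [(73, 1), (74, 1)])) (.nd 3 (.lf [(76, 1)]) (.lf [(77, 2)]))) (.nd 6 (.lf []) (.nd 7 (.lf []) (.nd 8 (.lf []) (.lf [(78, 3)]))))) (.nd 14 (.nd 11 (.nd 10 (.lf [(78, 2)]) (.lf [])) (.nd 12 (.lf [(78, 3)]) (.lf []))) (.lf []))) (.lf [])) (.lf [])

/-- a row of the table -/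
def R5_56 : Tr (List (ℕ × ℕ)) := .nd 39 (.nd 19 (.nd 9 (.nd 4 (.nd 2 (.nd 1 (.lf [(68, 3), (69, 2), (70, 4)]) (.lf [(73, 4), (74, 1)])) (.nd 3 (.lf [(75, 2), (76, 4)]) (.lf [(77, 3)]))) (.nd 6 (.nd 5 (.lf [(77, 1)]) (.lf [])) (.nd 7 (.lf []) (.nd 8 (.lf []) (.lf [(78, 4)]))))) (.nd 14 (.nd 11 (.nd 10 (.lf [(78, 2)]) (.lf [(78, 1)])) (.nd 12 (.lf [(78, 1)]) (.lf []))) (.lf []))) (.lf [])) (.lf [])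

/-- a row of the table -/
def R5_57 : Tr (List (ℕ × ℕ)) := .nd 39 (.nd 19 (.nd 9 (.nd 4 (.nd 2 (.nd 1 (.lf [(69, 4), (70, 1), (71, 1), (72, 3)]) (.lf [(73, 4), (74, 2)])) (.nd 3 (.lf []) (.lf [(77, 4)]))) (.nd 6 (.nd 5 (.lf [(77, 3)]) (.lf [])) (.nd 7 (.lf []) (.nd 8 (.lf []) (.lf [(78, 2)]))))) (.nd 14 (.nd 11 (.nd 10 (.lf [(78, 2)]) (.lf [])) (.nd 12 (.lf [(78, 4)]) (.lf []))) (.lf []))) (.lf [])) (.lf [])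

/-- a row of the table -/
def R5_58 : Tr (List (ℕ × ℕ)) := .nd 39 (.nd 19 (.nd 9 (.nd 4 (.nd 2 (.nd 1 (.lf [(68, 2), (69, 4), (71, 4), (72, 3)]) (.lf [(73, 3), (74, 3)])) (.nd 3 (.lf [(76, 4)]) (.lf [(77, 2)]))) (.nd 6 (.nd 5 (.lf [(77, 3)]) (.lf [])) (.nd 7 (.lf []) (.nd 8 (.lf []) (.lf [(78, 2)]))))) (.nd 14 (.nd 11 (.nd 10 (.lf [(78, 2)]) (.lf [(78, 4)])) (.nd 12 (.lf [(78, 1)]) (.lf []))) (.lf []))) (.lf [])) (.lf [])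

/-- a row of the table -/
def R5_59 : Tr (List (ℕ × ℕ)) := .nd 39 (.nd 19 (.nd 9 (.nd 4 (.nd 2 (.nd 1 (.lf [(68, 4), (69, 3), (70, 3), (71, 3), (72, 4)]) (.lf [(73, 3), (74, 1)])) (.nd 3 (.lf [(76, 3)]) (.lf [(77, 1)]))) (.nd 6 (.lf []) (.nd 7 (.lf []) (.nd 8 (.lf []) (.lf [(78, 1)]))))) (.nd 14 (.nd 11 (.nd 10 (.lf [(78, 4)]) (.lf [])) (.nd 12 (.lf [(78, 4)]) (.lf []))) (.lf []))) (.lf [])) (.lf [])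

/-- a row of the table -/
def R5_60 : Tr (List (ℕ × ℕ)) := .nd 39 (.nd 19 (.nd 9 (.nd 4 (.nd 2 (.nd 1 (.lf [(68, 1), (69, 1), (70, 2), (72, 2)]) (.lf [(73, 3), (74, 1)])) (.nd 3 (.lf [(76, 3)]) (.lf [(77, 1)]))) (.nd 6 (.nd 5 (.lf [(77, 2)]) (.lf [])) (.nd 7 (.lf []) (.nd 8 (.lf []) (.lf [(78, 3)]))))) (.nd 14 (.nd 11 (.nd 10 (.lf [(78, 1)]) (.lf [])) (.nd 12 (.lf [(78, 2)]) (.lf []))) (.lf []))) (.lf [])) (.lf [])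

/-- a row of the table -/
def R5_61 : Tr (List (ℕ × ℕ)) := .nd 39 (.nd 19 (.nd 9 (.nd 4 (.nd 2 (.nd 1 (.lf [(73, 1)]) (.lf [])) (.lf [])) (.nd 6 (.lf []) (.nd 7 (.lf [(78, 4)]) (.nd 8 (.lf [(78, 3)]) (.lf []))))) (.lf [])) (.lf [])) (.lf [])

/-- a row of the table -/
def R5_62 : Tr (List (ℕ × ℕ)) := .nd 39 (.nd 19 (.nd 9 (.nd 4 (.nd 2 (.nd 1 (.lf [(74, 1)]) (.lf [])) (.lf [])) (.nd 6 (.lf []) (.nd 7 (.lf [(78, 4)]) (.lf [])))) (.lf [])) (.lf [])) (.lf [])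

/-- a row of the table -/
def R5_63 : Tr (List (ℕ × ℕ)) := .nd 39 (.nd 19 (.nd 9 (.nd 4 (.nd 2 (.lf []) (.nd 3 (.lf [(77, 2)]) (.lf []))) (.nd 6 (.lf []) (.nd 7 (.lf [(78, 4)]) (.nd 8 (.lf [(78, 3)]) (.lf []))))) (.lf [])) (.lf [])) (.lf [])

/-- a row of the table -/
def R5_64 : Tr (List (ℕ × ℕ)) := .nd 39 (.nd 19 (.nd 9 (.nd 4 (.nd 2 (.nd 1 (.lf []) (.lf [(75, 3), (76, 3)])) (.lf [])) (.lf [])) (.lf [])) (.lf [])) (.lf [])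

/-- a row of the table -/
def R5_65 : Tr (List (ℕ × ℕ)) := .nd 39 (.nd 19 (.nd 9 (.nd 4 (.nd 2 (.nd 1 (.lf []) (.lf [(76, 1)])) (.lf [])) (.lf [])) (.lf [])) (.lf [])) (.lf [])

/-- a row of the table -/
def R5_66 : Tr (List (ℕ × ℕ)) := .nd 39 (.nd 19 (.nd 9 (.nd 4 (.nd 2 (.nd 1 (.lf []) (.lf [(76, 1)])) (.lf [])) (.nd 6 (.nd 5 (.lf []) (.lf [(78, 2)])) (.lf []))) (.lf [])) (.lf [])) (.lf [])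

/-- a row of the table -/
def R5_67 : Tr (List (ℕ × ℕ)) := .lf []

/-- a row of the table -/
def R5_68 : Tr (List (ℕ × ℕ)) := .nd 39 (.nd 19 (.nd 9 (.nd 4 (.nd 2 (.nd 1 (.lf [(75, 1)]) (.lf [(77, 2)])) (.nd 3 (.lf []) (.lf [(78, 2)]))) (.lf [])) (.lf [])) (.lf [])) (.lf [])

/-- a row of the table -/
def R5_69 : Tr (List (ℕ × ℕ)) := .nd 39 (.nd 19 (.nd 9 (.nd 4 (.nd 2 (.nd 1 (.lf [(76, 1)]) (.lf [(77, 1)])) (.nd 3 (.lf []) (.lf [(78, 3)]))) (.nd 6 (.nd 5 (.lf [(78, 4)]) (.lf [])) (.lf []))) (.lf [])) (.lf [])) (.lf [])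

/-- a row of the table -/
def R5_70 : Tr (List (ℕ × ℕ)) := .nd 39 (.nd 19 (.nd 9 (.nd 4 (.nd 2 (.nd 1 (.lf [(75, 1), (76, 1)]) (.lf [(77, 1)])) (.nd 3 (.lf []) (.lf [(78, 4)]))) (.nd 6 (.nd 5 (.lf [(78, 1)]) (.lf [])) (.lf []))) (.lf [])) (.lf [])) (.lf [])

/-- a row of the table -/
def R5_71 : Tr (List (ℕ × ℕ)) := .nd 39 (.nd 19 (.nd 9 (.nd 4 (.nd 2 (.nd 1 (.lf [(75, 1), (76, 4)]) (.lf [])) (.lf [])) (.nd 6 (.nd 5 (.lf [(78, 1)]) (.lf [])) (.lf []))) (.lf [])) (.lf [])) (.lf [])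

/-- a row of the table -/
def R5_72 : Tr (List (ℕ × ℕ)) := .nd 39 (.nd 19 (.nd 9 (.nd 4 (.nd 2 (.nd 1 (.lf [(76, 1)]) (.lf [(77, 4)])) (.nd 3 (.lf []) (.lf [(78, 1)]))) (.lf [])) (.lf [])) (.lf [])) (.lf [])

/-- a row of the table -/
def R5_73 : Tr (List (ℕ × ℕ)) := .nd 39 (.nd 19 (.nd 9 (.nd 4 (.nd 2 (.nd 1 (.lf [(77, 1)]) (.lf [])) (.nd 3 (.lf [(78, 2)]) (.lf []))) (.lf [])) (.lf [])) (.lf [])) (.lf [])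

/-- a row of the table -/
def R5_74 : Tr (List (ℕ × ℕ)) := .nd 39 (.nd 19 (.nd 9 (.nd 4 (.nd 2 (.nd 1 (.lf [(77, 1)]) (.lf [])) (.nd 3 (.lf [(78, 4)]) (.lf []))) (.lf [])) (.lf [])) (.lf [])) (.lf [])

/-- a row of the table -/
def R5_75 : Tr (List (ℕ × ℕ)) := .nd 39 (.nd 19 (.nd 9 (.nd 4 (.nd 2 (.nd 1 (.lf []) (.lf [(78, 4)])) (.lf [])) (.lf [])) (.lf [])) (.lf [])) (.lf [])

/-- a row of the table -/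
def R5_76 : Tr (List (ℕ × ℕ)) := .lf []

/-- a row of the table -/
def R5_77 : Tr (List (ℕ × ℕ)) := .nd 39 (.nd 19 (.nd 9 (.nd 4 (.nd 2 (.nd 1 (.lf [(78, 1)]) (.lf [])) (.lf [])) (.lf [])) (.lf [])) (.lf [])) (.lf [])

/-- a row of the table -/
def R5_78 : Tr (List (ℕ × ℕ)) := .lf []

/-- the table -/
def T5 : Tr (Tr (List (ℕ × ℕ))) := .nd 39 (.nd 19 (.nd 9 (.nd 4 (.nd 2 (.nd 1 (.lf R5_0) (.lf R5_1)) (.nd 3 (.lf R5_2) (.lf R5_3))) (.nd 6 (.nd 5 (.lf R5_4) (.lf R5_5)) (.nd 7 (.lf R5_6) (.nd 8 (.lf R5_7) (.lf R5_8))))) (.nd 14 (.nd 11 (.nd 10 (.lf R5_9) (.lf R5_10)) (.nd 12 (.lf R5_11) (.nd 13 (.lf R5_12) (.lf R5_13)))) (.nd 16 (.nd 15 (.lf R5_14) (.lf R5_15)) (.nd 17 (.lf R5_16) (.nd 18 (.lf R5_17) (.lf R5_18)))))) (.nd 29 (.nd 24 (.nd 21 (.nd 20 (.lf R5_19) (.lf R5_20)) (.nd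 22 (.lf R5_21) (.nd 23 (.lf R5_22) (.lf R5_23)))) (.nd 26 (.nd 25 (.lf R5_24) (.lf R5_25)) (.nd 27 (.lf R5_26) (.nd 28 (.lf R5_27) (.lf R5_28))))) (.nd 34 (.nd 31 (.nd 30 (.lf R5_29) (.lf R5_30)) (.nd 32 (.lf R5_31) (.nd 33 (.lf R5_32) (.lf R5_33)))) (.nd 36 (.nd 35 (.lf R5_34) (.lf R5_35)) (.nd 37 (.lf R5_36) (.nd 38 (.lf R5_37) (.lf R5_38))))))) (.nd 59 (.nd 49 (.nd 44 (.nd 41 (.nd 40 (.lf R5_39) (.lf R5_40)) (.nd 42 (.lf R5_41) (.nd 43 (.lf R5_42) (.lf R5_43)))) (.nd 46 (.nd 45 (.lf R5_44) (.lf R5_45)) (.nd 47 (.lf R5_46) (.nd 48 (.lf R5_47) (.lf R5_48))))) (.nd 54 (.nd 51 (.nd 50 (.lf R5_49) (.lf R5_50)) (.nd 52 (.lf R5_51) (.nd 53 (.lf R5_52) (.lf R5_53)))) (.nd 56 (.nd 55 (.lf R5_54) (.lf R5_55)) (.nd 57 (.lf R5_56) (.nd 58 (.lf R5_57) (.lf R5_58)))))) (.nd 69 (.nd 64 (.nd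 61 (.nd 60 (.lf R5_59) (.lf R5_60)) (.nd 62 (.lf R5_61) (.nd 63 (.lf R5_62) (.lf R5_63)))) (.nd 66 (.nd 65 (.lf R5_64) (.lf R5_65)) (.nd 67 (.lf R5_66) (.nd 68 (.lf R5_67) (.lf R5_68))))) (.nd 74 (.nd 71 (.nd 70 (.lf R5_69) (.lf R5_70)) (.nd 72 (.lf R5_71) (.nd 73 (.lf R5_72) (.lf R5_73)))) (.nd 76 (.nd 75 (.lf R5_74) (.lf R5_75)) (.nd 77 (.lf R5_76) (.nd 78 (.lf R5_77) (.lf R5_78)))))))

/-- the degrees -/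
def A5 : Tr ℕ := .nd 39 (.nd 19 (.nd 9 (.nd 4 (.nd 2 (.nd 1 (.lf 1) (.lf 0)) (.nd 3 (.lf 2) (.lf 1))) (.nd 6 (.nd 5 (.lf 1) (.lf 0)) (.nd 7 (.lf 3) (.nd 8 (.lf 3) (.lf 2))))) (.nd 14 (.nd 11 (.lf 2) (.nd 12 (.lf 2) (.lf 1))) (.nd 16 (.lf 1) (.lf 4)))) (.nd 29 (.nd 24 (.lf 3) (.nd 26 (.lf 3) (.nd 27 (.lf 3) (.lf 2)))) (.nd 34 (.lf 2) (.nd 36 (.lf 2) (.nd 37 (.lf 2) (.nd 38 (.lf 1) (.lf 5))))))) (.nd 59 (.nd 49 (.lf 4) (.nd 54 (.nd 51 (.lf 4) (.lf 3)) (.lf 3))) (.nd 69 (.nd 64 (.nd 61 (.lf 3) (.lf 2)) (.nd 66 (.lf 5) (.nd 67 (.lf 5) (.nd 68 (.lf 5) (.lf 4))))) (.nd 74 (.nd 71 (.lf 4) (.nd 72 (.lf 4) (.nd 73 (.lf 4) (.lf 3)))) (.nd 76 (.nd 75 (.lf 3) (.lf 5)) (.nd 77 (.lf 5) (.nd 78 (.lf 4) (.lf 5)))))))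

/-- the degrees -/
def B5 : Tr ℕ := .nd 39 (.nd 19 (.nd 9 (.nd 4 (.nd 2 (.nd 1 (.lf 0) (.lf 1)) (.nd 3 (.lf 0) (.lf 1))) (.nd 6 (.nd 5 (.lf 1) (.lf 2)) (.nd 7 (.lf 0) (.nd 8 (.lf 0) (.lf 1))))) (.nd 14 (.nd 11 (.lf 1) (.nd 12 (.lf 1) (.lf 2))) (.nd 16 (.lf 2) (.lf 0)))) (.nd 29 (.nd 24 (.lf 1) (.nd 26 (.lf 1) (.nd 27 (.lf 1) (.lf 2)))) (.nd 34 (.lf 2) (.nd 36 (.lf 2) (.nd 37 (.lf 2) (.nd 38 (.lf 3) (.lf 0))))))) (.nd 59 (.nd 49 (.lf 1) (.nd 54 (.nd 51 (.lf 1) (.lf 2)) (.lf 2))) (.nd 69 (.nd 64 (.nd 61 (.lf 2) (.lf 3)) (.nd 66 (.lf 1) (.nd 67 (.lf 1) (.nd 68 (.lf 1) (.lf 2))))) (.nd 74 (.nd 71 (.lf 2) (.nd 72 (.lf 2) (.nd 73 (.lf 2) (.lf 3)))) (.nd 76 (.nd 75 (.lf 3) (.lf 2)) (.nd 77 (.lf 2) (.lf 3))))))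

/-- the product -/
noncomputable def Q5 (i j : ℕ) : List (ℕ × ℕ) := ntab T5 79 i j

end Pool.Agent.Zk64.Alt
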